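import Pool.Agent.Helper533.BallObstacle.Defs

open MeasureTheory Metric Set

namespace Pool.Agent.Helper533.BallObstacle

theorem exists_test {N : ℕ} {U : Set (EuclideanSpace ℝ (Fin N))} (hU : IsOpen U)
    (hne : U.Nonempty) : ∃ u, IsTest U u := by
  obtain ⟨c, hc⟩ := hne
  obtain ⟨r, hr, hrU⟩ := Metric.isOpen_iff.mp hU c hc
  let f : ContDiffBump c := ⟨r / 4, r / 2, by positivity, by linarith⟩
  refine ⟨f, f.contDiff, f.hasCompactSupport, ?_, c, ?_⟩
  · rw [f.tsupport_eq]
    exact (closedBall_subset_ball (by show r / 2 < r; linarith)).trans hrU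
  · have : f c = 1 := f.one_of_mem_closedBall (mem_closedBall_self f.rIn_pos.le)
    rw [this]; norm_num

theorem rayleigh_nonneg {N : ℕ} (u : EuclideanSpace ℝ (Fin N) → ℝ) : 0 ≤ rayleigh u := by
  unfold rayleigh
  apply div_nonneg
  · exact integral_nonneg fun z => by positivity
  · exact integral_nonneg fun z => by positivity

theorem lambda1_le {N : ℕ} {U : Set (EuclideanSpace ℝ (Fin N))} {u : EuclideanSpace ℝ (Fin N) → ℝ}
    (h : IsTest U u) : lambda1 U ≤ rayleigh u := by
  apply csInf_le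
  · exact ⟨0, by rintro q ⟨v, _, rfl⟩; exact rayleigh_nonneg v⟩
  · exact ⟨u, h, rfl⟩

theorem le_lambda1 {N : ℕ} {U : Set (EuclideanSpace ℝ (Fin N))} (hU : IsOpen U)
    (hne : U.Nonempty) {a : ℝ} (h : ∀ u, IsTest U u → a ≤ rayleigh u) : a ≤ lambda1 U := by
  obtain ⟨u, hu⟩ := exists_test hU hne
  have hne' : {q : ℝ | ∃ u : EuclideanSpace ℝ (Fin N) → ℝ, IsTest U u ∧ q = rayleigh u}.Nonempty :=
    ⟨rayleigh u, u, hu, rfl⟩
  apply le_csInf hne'
  rintro q ⟨v, hv, rfl⟩
  exact h v hv

theorem integral_sq_pos {N : ℕ} {U : Set (EuclideanSpace ℝ (Fin N))}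
    {u : EuclideanSpace ℝ (Fin N) → ℝ} (h : IsTest U u) : 0 < ∫ z, (u z) ^ 2 := by
  obtain ⟨h1, h2, h3, z, hz⟩ := h
  have hc : Continuous (fun z => (u z) ^ 2) := h1.continuous.pow 2
  have hs : HasCompactSupport (fun z => (u z) ^ 2) := by
    apply h2.of_isClosed_subset (isClosed_tsupport _)
    apply closure_mono
    intro y hy
    rw [Function.mem_support] at hy ⊢
    intro h0
    apply hy
    simp [h0]
  apply hc.integral_pos_of_hasCompactSupport_nonneg_nonzero hs (x := z)
  · intro y; positivity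
  · positivity

/-- The translation diffeomorphism near the obstacle: comparison of Rayleigh quotients. -/
theorem transport (Ω : Set (EuclideanSpace ℝ (Fin 3)))
    (x₀ : EuclideanSpace ℝ (Fin 3)) (r₀ ρ s : ℝ) (hr₀ : 0 ≤ r₀) (hρ : 0 < ρ) (hs : 0 < s)
    (hsub : closedBall x₀ (r₀ + ρ + s) ⊆ Ω) (e : ℝ) (he : 0 < e) :
    ∃ δ > 0, ∀ x ∈ closedBall x₀ r₀, ∀ y ∈ closedBall x₀ r₀, ‖y - x‖ < δ →
      ∀ u, IsTest (Ω \ closedBall y ρ) u →
        ∃ v, IsTest (Ω \ closedBall x ρ) v ∧ rayleigh v ≤ (1 + e) * rayleigh u := by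
  let χ : ContDiffBump x₀ := ⟨r₀ + ρ, r₀ + ρ + s, by linarith, by linarith⟩
  have hχs : ContDiff ℝ (⊤ : ℕ∞) χ := χ.contDiff
  have hχd : Differentiable ℝ χ := hχs.differentiable (by simp)
  obtain ⟨C₀, hC₀⟩ := (hχs.continuous_fderiv (by simp)).bounded_above_of_compact_support
    (χ.hasCompactSupport.fderiv ℝ)
  set C : ℝ := max C₀ 1 with hC
  have hC1 : 1 ≤ C := le_max_right _ _
  have hCb : ∀ z, ‖fderiv ℝ χ z‖ ≤ C := fun z => (hC₀ z).trans (le_max_left _ _)
  -- parameter for the determinant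
  obtain ⟨a, ha0, ha1, hae⟩ : ∃ a : ℝ, 0 < a ∧ a < 1 ∧ (1 + a) ^ 2 * (1 + a) / (1 - a) ≤ 1 + e := by
    have hcont : ContinuousAt (fun a : ℝ => (1 + a) ^ 2 * (1 + a) / (1 - a)) 0 := by
      apply ContinuousAt.div <;> [fun_prop; fun_prop; norm_num]
    have h1 : (fun a : ℝ => (1 + a) ^ 2 * (1 + a) / (1 - a)) 0 < 1 + e := by
      norm_num; exact he
    have h2 := hcont.eventually (gt_mem_nhds h1)
    rw [Metric.eventually_nhds_iff] at h2
    obtain ⟨ε, hε, h3⟩ := h2
    refine ⟨min (ε / 2) (1 / 2), by positivity, ?_, ?_⟩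
    · exact lt_of_le_of_lt (min_le_right _ _) (by norm_num)
    · apply le_of_lt
      apply h3
      rw [Real.dist_eq, sub_zero, abs_of_pos (by positivity)]
      exact lt_of_le_of_lt (min_le_left _ _) (by linarith)
  have hdet : ∃ b > 0, ∀ A : EuclideanSpace ℝ (Fin 3) →L[ℝ] EuclideanSpace ℝ (Fin 3),
      ‖A - ContinuousLinearMap.id ℝ _‖ < b → |A.det - 1| < a := by
    have h1 : Continuous (fun A : EuclideanSpace ℝ (Fin 3) →L[ℝ] EuclideanSpace ℝ (Fin 3) => A.det) :=
      ContinuousLinearMap.continuous_det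
    have h2 := (Metric.continuousAt_iff.mp (h1.continuousAt (x := ContinuousLinearMap.id ℝ _))) a ha0
    obtain ⟨b, hb, h3⟩ := h2
    refine ⟨b, hb, fun A hA => ?_⟩
    have := h3 (x := A) (by rw [dist_eq_norm]; exact hA)
    have hid : (ContinuousLinearMap.id ℝ (EuclideanSpace ℝ (Fin 3))).det = 1 := by
      simp [ContinuousLinearMap.det]
    rw [Real.dist_eq, hid] at this
    exact this
  obtain ⟨b, hb, hdetb⟩ := hdet
  refine ⟨min (a / C) (b / C), by positivity, ?_⟩
  intro x hx y hy hxy u hu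
  obtain ⟨hu1, hu2, hu3, w₀, hw₀⟩ := hu
  set h := y - x with hh
  have hha : C * ‖h‖ < a := by
    have := lt_of_lt_of_le hxy (min_le_left _ _)
    rw [lt_div_iff₀ (by linarith)] at this
    linarith
  have hhb : C * ‖h‖ < b := by
    have := lt_of_lt_of_le hxy (min_le_right _ _)
    rw [lt_div_iff₀ (by linarith)] at this
    linarith
  set Φ : EuclideanSpace ℝ (Fin 3) → EuclideanSpace ℝ (Fin 3) := fun z => z + χ z • h with hΦ
  have hΦs : ContDiff ℝ (⊤ : ℕ∞) Φ := contDiff_id.add (hχs.smul contDiff_const)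
  have hLip : ∀ z w, |χ z - χ w| ≤ C * ‖z - w‖ := by
    intro z w
    have := Convex.norm_image_sub_le_of_norm_fderiv_le (𝕜 := ℝ) (f := χ) (C := C) (s := univ)
      (fun z _ => hχd z) (fun z _ => hCb z) convex_univ (mem_univ w) (mem_univ z)
    rwa [Real.norm_eq_abs] at this
  have hinj : Function.Injective Φ := by
    intro z w hzw
    have h1 : z - w = (χ w - χ z) • h := by
      have : z + χ z • h = w + χ w • h := hzw
      rw [sub_smul]
      have h2 : z - w = χ w • h - χ z • h := by
        rw [sub_eq_sub_iff_add_eq_add, this, add_comm]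
      exact h2
    have h2 : ‖z - w‖ ≤ C * ‖h‖ * ‖z - w‖ := by
      conv_lhs => rw [h1]
      rw [norm_smul, Real.norm_eq_abs]
      have := hLip w z
      rw [norm_sub_rev] at this
      calc |χ w - χ z| * ‖h‖ ≤ (C * ‖z - w‖) * ‖h‖ := mul_le_mul_of_nonneg_right this (norm_nonneg _)
        _ = _ := by ring
    have h3 : ‖z - w‖ = 0 := by
      by_contra hne
      have : 0 < ‖z - w‖ := lt_of_le_of_ne (norm_nonneg _) (Ne.symm hne)
      nlinarith
    exact sub_eq_zero.mp (norm_eq_zero.mp h3)
  have hsurj : Function.Surjective Φ := by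
    intro w
    set K : NNReal := ⟨C * ‖h‖, by positivity⟩ with hK
    have hKc : (K : ℝ) = C * ‖h‖ := rfl
    have hcontr : ContractingWith K (fun z => w - χ z • h) := by
      refine ⟨?_, ?_⟩
      · rw [← NNReal.coe_lt_coe, hKc, NNReal.coe_one]
        linarith
      · apply LipschitzWith.of_dist_le_mul
        intro z z'
        rw [dist_eq_norm, dist_eq_norm]
        have e1 : w - χ z • h - (w - χ z' • h) = (χ z' - χ z) • h := by rw [sub_smul]; abel
        rw [e1, norm_smul, Real.norm_eq_abs]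
        have := hLip z' z
        rw [norm_sub_rev] at this
        rw [hKc]
        calc |χ z' - χ z| * ‖h‖ ≤ (C * ‖z - z'‖) * ‖h‖ := mul_le_mul_of_nonneg_right this (norm_nonneg _)
          _ = _ := by ring
    obtain ⟨z, hz, -⟩ := hcontr.exists_fixedPoint w (edist_ne_top _ _)
    refine ⟨z, ?_⟩
    have : w - χ z • h = z := hz
    show z + χ z • h = w
    rw [← this]
    rw [this]
    nth_rewrite 1 [← this]
    abel
  have hΦd : ∀ z, HasFDerivAt Φ (ContinuousLinearMap.id ℝ _ + (fderiv ℝ χ z).smulRight h) z := by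
    intro z
    exact (hasFDerivAt_id z).add ((hχd z).hasFDerivAt.smul_const h)
  have hsmall : ∀ z, ‖(ContinuousLinearMap.id ℝ _ + (fderiv ℝ χ z).smulRight h) -
      ContinuousLinearMap.id ℝ (EuclideanSpace ℝ (Fin 3))‖ ≤ C * ‖h‖ := by
    intro z
    rw [add_sub_cancel_left, ContinuousLinearMap.norm_smulRight_apply]
    exact mul_le_mul_of_nonneg_right (hCb z) (norm_nonneg _)
  have hdetz : ∀ z, |(ContinuousLinearMap.id ℝ (EuclideanSpace ℝ (Fin 3)) +
      (fderiv ℝ χ z).smulRight h).det - 1| < a := fun z =>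
    hdetb _ (lt_of_le_of_lt (hsmall z) hhb)
  have hnorm : ∀ z, ‖ContinuousLinearMap.id ℝ (EuclideanSpace ℝ (Fin 3)) +
      (fderiv ℝ χ z).smulRight h‖ ≤ 1 + a := by
    intro z
    have h1 := norm_add_le (ContinuousLinearMap.id ℝ (EuclideanSpace ℝ (Fin 3))) ((fderiv ℝ χ z).smulRight h)
    have h2 : ‖ContinuousLinearMap.id ℝ (EuclideanSpace ℝ (Fin 3))‖ ≤ 1 := ContinuousLinearMap.norm_id_le
    have h3 : ‖(fderiv ℝ χ z).smulRight h‖ ≤ C * ‖h‖ := by
      rw [ContinuousLinearMap.norm_smulRight_apply]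
      exact mul_le_mul_of_nonneg_right (hCb z) (norm_nonneg _)
    linarith
  -- change of variables
  have hcv : ∀ g : EuclideanSpace ℝ (Fin 3) → ℝ,
      ∫ z, g z = ∫ z, |(ContinuousLinearMap.id ℝ (EuclideanSpace ℝ (Fin 3)) +
        (fderiv ℝ χ z).smulRight h).det| * g (Φ z) := by
    intro g
    have := integral_image_eq_integral_abs_det_fderiv_smul
      (volume : Measure (EuclideanSpace ℝ (Fin 3))) (s := univ) (f := Φ)
      (f' := fun z => ContinuousLinearMap.id ℝ (EuclideanSpace ℝ (Fin 3)) + (fderiv ℝ χ z).smulRight h)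
      MeasurableSet.univ (fun z _ => (hΦd z).hasFDerivWithinAt) hinj.injOn g
    rw [image_univ, hsurj.range_eq] at this
    simpa using this
  set v : EuclideanSpace ℝ (Fin 3) → ℝ := fun z => u (Φ z) with hv
  have hvs : ContDiff ℝ (⊤ : ℕ∞) v := hu1.comp hΦs
  have hvsub : tsupport v ⊆ Φ ⁻¹' (tsupport u) := by
    apply closure_minimal _ ((isClosed_tsupport u).preimage hΦs.continuous)
    intro z hz
    exact subset_tsupport _ hz
  have hprecomp : IsCompact (Φ ⁻¹' (tsupport u)) := by
    rw [Metric.isCompact_iff_isClosed_bounded]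
    refine ⟨(isClosed_tsupport u).preimage hΦs.continuous, ?_⟩
    obtain ⟨B, hB⟩ := hu2.isBounded.exists_norm_le
    rw [isBounded_iff_forall_norm_le]
    refine ⟨B + ‖h‖, fun z hz => ?_⟩
    have h1 := hB (Φ z) hz
    have h2 : z = Φ z - χ z • h := by simp [hΦ]
    rw [h2]
    have h3 := norm_sub_le (Φ z) (χ z • h)
    have h4 : ‖χ z • h‖ ≤ ‖h‖ := by
      rw [norm_smul, Real.norm_of_nonneg χ.nonneg]
      exact mul_le_of_le_one_left (norm_nonneg _) χ.le_one
    linarith
  have hvc : HasCompactSupport v := hprecomp.of_isClosed_subset (isClosed_tsupport _) hvsub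
  have hvtest : IsTest (Ω \ closedBall x ρ) v := by
    refine ⟨hvs, hvc, ?_, ?_⟩
    · intro z hz
      have hz1 := hu3 (hvsub hz)
      constructor
      · by_contra hcon
        have h0 : χ z = 0 := by
          by_contra hne
          apply hcon
          apply hsub
          have h5 : z ∈ Function.support χ := hne
          rw [χ.support_eq] at h5
          exact ball_subset_closedBall h5
        have : Φ z = z := by simp [hΦ, h0]
        rw [this] at hz1
        exact hcon hz1.1
      · intro hzx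
        have h1 : χ z = 1 := by
          apply χ.one_of_mem_closedBall
          rw [mem_closedBall] at hzx hx ⊢
          have := dist_triangle z x x₀
          show dist z x₀ ≤ r₀ + ρ
          linarith
        have : Φ z = z + h := by simp [hΦ, h1]
        rw [this] at hz1
        apply hz1.2
        rw [mem_closedBall, dist_eq_norm] at hzx ⊢
        have e1 : z + h - y = z - x := by rw [hh]; abel
        rw [e1]
        exact hzx
    · obtain ⟨z, hz⟩ := hsurj w₀
      exact ⟨z, by simp only [hv, hz]; exact hw₀⟩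
  refine ⟨v, hvtest, ?_⟩
  -- energies
  have hug : Continuous (fun z => ‖gradient u z‖ ^ 2) := by
    have : Continuous (fun z => gradient u z) := by
      unfold gradient
      exact (LinearIsometryEquiv.continuous _).comp (hu1.continuous_fderiv (by simp))
    exact this.norm.pow 2
  have hvg : Continuous (fun z => ‖gradient v z‖ ^ 2) := by
    have : Continuous (fun z => gradient v z) := by
      unfold gradient
      exact (LinearIsometryEquiv.continuous _).comp (hvs.continuous_fderiv (by simp))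
    exact this.norm.pow 2
  have hgz : ∀ f : EuclideanSpace ℝ (Fin 3) → ℝ, ∀ z, z ∉ tsupport f → gradient f z = 0 := by
    intro f z hz
    have h0 : f =ᶠ[nhds z] fun _ => 0 := notMem_tsupport_iff_eventuallyEq.mp hz
    rw [gradient, h0.fderiv_eq]
    simp
  have hdetc : Continuous (fun z => |(ContinuousLinearMap.id ℝ (EuclideanSpace ℝ (Fin 3)) +
        (fderiv ℝ χ z).smulRight h).det|) := by
    apply Continuous.abs
    apply ContinuousLinearMap.continuous_det.comp
    apply continuous_const.add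
    exact ((ContinuousLinearMap.smulRightL ℝ (EuclideanSpace ℝ (Fin 3)) (EuclideanSpace ℝ (Fin 3))).flip h).continuous.comp
      (hχs.continuous_fderiv (by simp))
  have hE : (1 - a) * ∫ z, ‖gradient v z‖ ^ 2 ≤ (1 + a) ^ 2 * ∫ z, ‖gradient u z‖ ^ 2 := by
    rw [hcv (fun z => ‖gradient u z‖ ^ 2), ← integral_const_mul, ← integral_const_mul]
    apply integral_mono
    · apply Continuous.integrable_of_hasCompactSupport (continuous_const.mul hvg)
      apply hvc.of_isClosed_subset (isClosed_tsupport _)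
      apply closure_minimal _ (isClosed_tsupport v)
      intro z hz
      by_contra hcon
      apply hz
      simp [hgz v z hcon]
    · apply Continuous.integrable_of_hasCompactSupport
      · exact continuous_const.mul (hdetc.mul (hug.comp hΦs.continuous))
      · apply hprecomp.of_isClosed_subset (isClosed_tsupport _)
        apply closure_minimal _ ((isClosed_tsupport u).preimage hΦs.continuous)
        intro z hz
        by_contra hcon
        apply hz
        simp [hgz u (Φ z) hcon]
    · intro z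
      simp only
      have h1 : ‖gradient v z‖ ≤ ‖gradient u (Φ z)‖ * (1 + a) := by
        have e1 : ‖gradient v z‖ = ‖fderiv ℝ v z‖ := by rw [gradient, LinearIsometryEquiv.norm_map]
        have e2 : ‖gradient u (Φ z)‖ = ‖fderiv ℝ u (Φ z)‖ := by rw [gradient, LinearIsometryEquiv.norm_map]
        rw [e1, e2]
        have e3 : fderiv ℝ v z = (fderiv ℝ u (Φ z)).comp (ContinuousLinearMap.id ℝ _ + (fderiv ℝ χ z).smulRight h) :=
          (((hu1.differentiable (by simp)) (Φ z)).hasFDerivAt.comp z (hΦd z)).fderiv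
        rw [e3]
        exact (ContinuousLinearMap.opNorm_comp_le _ _).trans
          (mul_le_mul_of_nonneg_left (hnorm z) (norm_nonneg _))
      have h2 : ‖gradient v z‖ ^ 2 ≤ (1 + a) ^ 2 * ‖gradient u (Φ z)‖ ^ 2 := by
        have := pow_le_pow_left₀ (norm_nonneg _) h1 2
        rw [mul_pow] at this
        linarith
      have h3 : 1 - a ≤ |(ContinuousLinearMap.id ℝ (EuclideanSpace ℝ (Fin 3)) +
        (fderiv ℝ χ z).smulRight h).det| := by
        have := hdetz z
        rw [abs_lt] at this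
        exact le_trans (by linarith) (le_abs_self _)
      calc (1 - a) * ‖gradient v z‖ ^ 2 ≤ |(ContinuousLinearMap.id ℝ (EuclideanSpace ℝ (Fin 3)) +
        (fderiv ℝ χ z).smulRight h).det| * ((1 + a) ^ 2 * ‖gradient u (Φ z)‖ ^ 2) :=
            mul_le_mul h3 h2 (by positivity) (by positivity)
        _ = _ := by ring
  have hM : ∫ z, u z ^ 2 ≤ (1 + a) * ∫ z, v z ^ 2 := by
    rw [hcv (fun z => u z ^ 2), ← integral_const_mul]
    apply integral_mono
    · apply Continuous.integrable_of_hasCompactSupport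
      · exact hdetc.mul ((hu1.continuous.pow 2).comp hΦs.continuous)
      · apply hprecomp.of_isClosed_subset (isClosed_tsupport _)
        apply closure_minimal _ ((isClosed_tsupport u).preimage hΦs.continuous)
        intro z hz
        by_contra hcon
        apply hz
        have : u (Φ z) = 0 := image_eq_zero_of_notMem_tsupport hcon
        simp [this]
    · apply Continuous.integrable_of_hasCompactSupport (continuous_const.mul (hvs.continuous.pow 2))
      apply hvc.of_isClosed_subset (isClosed_tsupport _)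
      apply closure_minimal _ (isClosed_tsupport v)
      intro z hz
      by_contra hcon
      apply hz
      have : v z = 0 := image_eq_zero_of_notMem_tsupport hcon
      simp [this]
    · intro z
      simp only
      have h3 : |(ContinuousLinearMap.id ℝ (EuclideanSpace ℝ (Fin 3)) +
        (fderiv ℝ χ z).smulRight h).det| ≤ 1 + a := by
        have := hdetz z
        rw [abs_lt] at this
        rw [abs_le]
        constructor <;> linarith
      exact mul_le_mul_of_nonneg_right h3 (by positivity)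
  have hup : 0 < ∫ z, u z ^ 2 := integral_sq_pos ⟨hu1, hu2, hu3, w₀, hw₀⟩
  have hvp : 0 < ∫ z, v z ^ 2 := integral_sq_pos hvtest
  have hEu : 0 ≤ ∫ z, ‖gradient u z‖ ^ 2 := integral_nonneg fun z => by positivity
  have ha1' : 0 < 1 - a := by linarith
  unfold rayleigh
  rw [div_le_iff₀ hvp]
  have hk1 : ∫ z, ‖gradient v z‖ ^ 2 ≤ (1 + a) ^ 2 / (1 - a) * ∫ z, ‖gradient u z‖ ^ 2 := by
    rw [div_mul_eq_mul_div, le_div_iff₀ ha1']
    linarith
  have hk2 : (∫ z, ‖gradient u z‖ ^ 2) ≤ (∫ z, ‖gradient u z‖ ^ 2) / (∫ z, u z ^ 2) * ((1 + a) * ∫ z, v z ^ 2) := by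
    rw [div_mul_eq_mul_div, le_div_iff₀ hup]
    exact mul_le_mul_of_nonneg_left hM hEu
  have hk3 : (1 + a) ^ 2 / (1 - a) * (1 + a) ≤ 1 + e := by
    rw [div_mul_eq_mul_div]
    exact hae
  have hq : 0 ≤ (∫ z, ‖gradient u z‖ ^ 2) / (∫ z, u z ^ 2) * ∫ z, v z ^ 2 := by positivity
  calc ∫ z, ‖gradient v z‖ ^ 2 ≤ (1 + a) ^ 2 / (1 - a) * ∫ z, ‖gradient u z‖ ^ 2 := hk1
    _ ≤ (1 + a) ^ 2 / (1 - a) * ((∫ z, ‖gradient u z‖ ^ 2) / (∫ z, u z ^ 2) * ((1 + a) * ∫ z, v z ^ 2)) :=
        mul_le_mul_of_nonneg_left hk2 (by positivity)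
    _ = ((1 + a) ^ 2 / (1 - a) * (1 + a)) * ((∫ z, ‖gradient u z‖ ^ 2) / (∫ z, u z ^ 2) * ∫ z, v z ^ 2) := by ring
    _ ≤ (1 + e) * ((∫ z, ‖gradient u z‖ ^ 2) / (∫ z, u z ^ 2) * ∫ z, v z ^ 2) :=
        mul_le_mul_of_nonneg_right hk3 hq
    _ = _ := by ring

end Pool.Agent.Helper533.BallObstacle
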