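import Mathlib

/-!
First Dirichlet eigenvalue of an open set of Euclidean space, defined through Rayleigh quotients
of smooth compactly supported functions.
-/

open MeasureTheory Metric Set

namespace Pool.Agent.Helper533.BallObstacle

/-- `IsTest U u` : `u` is a smooth function with compact support contained in `U`,
not identically zero. -/
def IsTest {N : ℕ} (U : Set (EuclideanSpace ℝ (Fin N))) (u : EuclideanSpace ℝ (Fin N) → ℝ) : Prop :=
  ContDiff ℝ (⊤ : ℕ∞) u ∧ HasCompactSupport u ∧ tsupport u ⊆ U ∧ ∃ z, u z ≠ 0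

/-- Rayleigh quotient of the Dirichlet Laplacian. -/
noncomputable def rayleigh {N : ℕ} (u : EuclideanSpace ℝ (Fin N) → ℝ) : ℝ :=
  (∫ z, ‖gradient u z‖ ^ 2) / (∫ z, (u z) ^ 2)

/-- First eigenvalue of the Dirichlet Laplacian on `U`. -/
noncomputable def lambda1 {N : ℕ} (U : Set (EuclideanSpace ℝ (Fin N))) : ℝ :=
  sInf {q : ℝ | ∃ u : EuclideanSpace ℝ (Fin N) → ℝ, IsTest U u ∧ q = rayleigh u}

end Pool.Agent.Helper533.BallObstacle
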