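import Pool.Agent.Helper533.BallObstacle.Patch

open MeasureTheory Metric Set

namespace Pool.Agent.Helper533.BallObstacle

/-- Near field with finitely many poles. -/
noncomputable def nearV {m : ℕ} (c0 τ : ℝ) (c : Fin m → ℝ) (q : Fin m → EuclideanSpace ℝ (Fin 3))
    (z : EuclideanSpace ℝ (Fin 3)) : ℝ :=
  c0 - τ / 6 * ‖z‖ ^ 2 - ∑ i, c i / ‖z - q i‖

/-- Gradient of the near field. -/
noncomputable def nearX {m : ℕ} (τ : ℝ) (c : Fin m → ℝ) (q : Fin m → EuclideanSpace ℝ (Fin 3))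
    (z : EuclideanSpace ℝ (Fin 3)) : EuclideanSpace ℝ (Fin 3) :=
  -(τ / 3) • z + ∑ i, (c i / ‖z - q i‖ ^ 3) • (z - q i)

theorem hasFDerivAt_norm_sub {N : ℕ} (q z : EuclideanSpace ℝ (Fin N)) (h : z ≠ q) :
    HasFDerivAt (fun y : EuclideanSpace ℝ (Fin N) => ‖y - q‖)
      (innerSL ℝ ((1 / ‖z - q‖) • (z - q))) z := by
  have hp : 0 < ‖z - q‖ := norm_pos_iff.mpr (sub_ne_zero.mpr h)
  have h1 : HasFDerivAt (fun y : EuclideanSpace ℝ (Fin N) => ‖y - q‖ ^ 2)
      (2 • (innerSL ℝ (z - q))) z := by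
    have := ((hasFDerivAt_id z).sub_const q).norm_sq
    simpa using this
  have h2 : HasDerivAt (fun t => √t) (1 / (2 * √(‖z - q‖ ^ 2))) (‖z - q‖ ^ 2) :=
    Real.hasDerivAt_sqrt (by positivity)
  have h3 := h2.comp_hasFDerivAt z h1
  have h4 : (fun t => √t) ∘ (fun y : EuclideanSpace ℝ (Fin N) => ‖y - q‖ ^ 2) = fun y => ‖y - q‖ := by
    funext y
    simp [Real.sqrt_sq]
  rw [h4, Real.sqrt_sq hp.le] at h3
  refine h3.congr_fderiv ?_
  ext y
  simp only [map_smul, FunLike.coe_smul, Pi.smul_apply, innerSL_apply_apply, smul_eq_mul, nsmul_eq_mul]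
  field_simp
  norm_num [inner_sub_left]

theorem hasFDerivAt_radial {N : ℕ} (q z : EuclideanSpace ℝ (Fin N)) (h : z ≠ q) (g : ℝ → ℝ) (g' : ℝ)
    (hg : HasDerivAt g g' ‖z - q‖) :
    HasFDerivAt (fun y : EuclideanSpace ℝ (Fin N) => g ‖y - q‖)
      (innerSL ℝ ((g' / ‖z - q‖) • (z - q))) z := by
  have h1 := hasFDerivAt_norm_sub q z h
  have h2 := hg.comp_hasFDerivAt z h1
  refine h2.congr_fderiv ?_
  ext y
  simp only [map_smul, FunLike.coe_smul, Pi.smul_apply, innerSL_apply_apply, smul_eq_mul]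
  ring

theorem contDiffAt_norm_sub {N : ℕ} (q z : EuclideanSpace ℝ (Fin N)) (h : z ≠ q) {n : WithTop ℕ∞} :
    ContDiffAt ℝ n (fun y : EuclideanSpace ℝ (Fin N) => ‖y - q‖) z := by
  have : z - q ≠ 0 := sub_ne_zero.mpr h
  exact ContDiffAt.norm ℝ (contDiffAt_id.sub contDiffAt_const) this

theorem nearV_contDiffAt {m : ℕ} (c0 τ : ℝ) (c : Fin m → ℝ) (q : Fin m → EuclideanSpace ℝ (Fin 3))
    (z : EuclideanSpace ℝ (Fin 3)) (h : ∀ i, z ≠ q i) {n : WithTop ℕ∞} :
    ContDiffAt ℝ n (nearV c0 τ c q) z := by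
  unfold nearV
  apply ContDiffAt.sub
  · exact contDiffAt_const.sub (contDiffAt_const.mul (contDiff_norm_sq ℝ).contDiffAt)
  · apply ContDiffAt.sum
    intro i _
    refine contDiffAt_const.div (contDiffAt_norm_sub _ _ (h i)) ?_
    rw [norm_ne_zero_iff, sub_ne_zero]
    exact h i

theorem nearV_hasFDerivAt {m : ℕ} (c0 τ : ℝ) (c : Fin m → ℝ) (q : Fin m → EuclideanSpace ℝ (Fin 3))
    (z : EuclideanSpace ℝ (Fin 3)) (h : ∀ i, z ≠ q i) :
    HasFDerivAt (nearV c0 τ c q) (innerSL ℝ (nearX τ c q z)) z := by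
  unfold nearV nearX
  have h1 : HasFDerivAt (fun y : EuclideanSpace ℝ (Fin 3) => ‖y‖ ^ 2)
      (innerSL ℝ ((2:ℝ) • z)) z := by
    have := (hasFDerivAt_id z).norm_sq
    refine this.congr_fderiv ?_
    ext y
    simp [two_mul]
  have h2 : ∀ i ∈ (Finset.univ : Finset (Fin m)), HasFDerivAt (fun y : EuclideanSpace ℝ (Fin 3) => c i / ‖y - q i‖)
      (innerSL ℝ ((-(c i) / ‖z - q i‖ ^ 3) • (z - q i))) z := by
    intro i _
    have hp : 0 < ‖z - q i‖ := norm_pos_iff.mpr (sub_ne_zero.mpr (h i))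
    have h3 : HasDerivAt (fun r => c i / r) (-(c i) / ‖z - q i‖ ^ 2) ‖z - q i‖ := by
      have := (hasDerivAt_inv hp.ne').const_mul (c i)
      have e : -(c i) / ‖z - q i‖ ^ 2 = c i * -(‖z - q i‖ ^ 2)⁻¹ := by ring
      rw [e]
      exact this
    have h4 := hasFDerivAt_radial (q i) z (h i) _ _ h3
    refine h4.congr_fderiv ?_
    have : -c i / ‖z - q i‖ ^ 2 / ‖z - q i‖ = -c i / ‖z - q i‖ ^ 3 := by
      field_simp
    rw [this]
  have h5 := ((h1.const_mul (τ / 6)).const_sub c0).sub (HasFDerivAt.fun_sum h2)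
  refine h5.congr_fderiv ?_
  ext y
  simp only [map_add, map_sum, map_smul, FunLike.coe_smul, FunLike.coe_sub, FunLike.coe_add, FunLike.coe_neg,
    FunLike.coe_sum, Pi.neg_apply, Finset.sum_apply, Pi.smul_apply, Pi.sub_apply, Pi.add_apply, innerSL_apply_apply, smul_eq_mul, nsmul_eq_mul,
    neg_smul, map_neg]
  rw [sub_eq_add_neg, ← Finset.sum_neg_distrib]
  congr 1
  · ring
  · refine Finset.sum_congr rfl fun i _ => ?_
    ring

theorem nearX_continuousAt {m : ℕ} (τ : ℝ) (c : Fin m → ℝ) (q : Fin m → EuclideanSpace ℝ (Fin 3))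
    (z : EuclideanSpace ℝ (Fin 3)) (h : ∀ i, z ≠ q i) : ContinuousAt (nearX τ c q) z := by
  unfold nearX
  apply ContinuousAt.add (by fun_prop)
  apply tendsto_finsetSum
  intro i _
  have hp : ‖z - q i‖ ^ 3 ≠ 0 := by
    have : 0 < ‖z - q i‖ := norm_pos_iff.mpr (sub_ne_zero.mpr (h i))
    positivity
  have h1 : ContinuousAt (fun y : EuclideanSpace ℝ (Fin 3) => ‖y - q i‖ ^ 3) z := by fun_prop
  have h2 : ContinuousAt (fun y : EuclideanSpace ℝ (Fin 3) => y - q i) z := by fun_prop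
  exact (ContinuousAt.div continuousAt_const h1 hp).smul h2

/-- Weak form of `-Δ v = τ` for the near field. -/
theorem nearX_identity {m : ℕ} (τ : ℝ) (c : Fin m → ℝ) (q : Fin m → EuclideanSpace ℝ (Fin 3))
    (w : EuclideanSpace ℝ (Fin 3) → ℝ) (hw : ContDiff ℝ 1 w) (hwc : HasCompactSupport w)
    (h : ∀ i, q i ∉ tsupport w) :
    ∫ z, fderiv ℝ w z (nearX τ c q z) = τ * ∫ z, w z := by
  have hne : ∀ i, ∀ z ∈ tsupport w, z ≠ q i := by
    rintro i z hz rfl
    exact h i hz
  have hpos : ∀ i, ∀ z ∈ tsupport w, 0 < ‖z - q i‖ := fun i z hz =>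
    norm_pos_iff.mpr (sub_ne_zero.mpr (hne i z hz))
  have e1 : ∀ z, fderiv ℝ w z (nearX τ c q z) =
      (-(τ / 3)) * fderiv ℝ w z z + ∑ i, (c i / ‖z - q i‖ ^ 3) * fderiv ℝ w z (z - q i) := by
    intro z
    unfold nearX
    rw [map_add, map_smul, map_sum, smul_eq_mul]
    congr 1
    refine Finset.sum_congr rfl fun i _ => ?_
    rw [map_smul, smul_eq_mul]
  have i0 : Integrable (fun z => (-(τ / 3)) * fderiv ℝ w z z) :=
    (integrable_fderiv_apply (X := fun z => z) hw hwc (fun z _ => continuousAt_id)).const_mul _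
  have ii : ∀ i, Integrable (fun z => (c i / ‖z - q i‖ ^ 3) * fderiv ℝ w z (z - q i)) := by
    intro i
    have := integrable_fderiv_apply (X := fun z => (c i / ‖z - q i‖ ^ 3) • (z - q i)) hw hwc (by
      intro z hz
      have hp : ‖z - q i‖ ^ 3 ≠ 0 := by
        have := hpos i z hz
        positivity
      have h1 : ContinuousAt (fun y : EuclideanSpace ℝ (Fin 3) => ‖y - q i‖ ^ 3) z := by fun_prop
      have h2 : ContinuousAt (fun y : EuclideanSpace ℝ (Fin 3) => y - q i) z := by fun_prop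
      exact (ContinuousAt.div continuousAt_const h1 hp).smul h2)
    simpa only [map_smul, smul_eq_mul] using this
  simp_rw [e1]
  rw [integral_add i0 (integrable_finset_sum _ (fun i _ => ii i)), integral_finset_sum _ (fun i _ => ii i)]
  have t0 : ∫ z, (-(τ / 3)) * fderiv ℝ w z z = τ * ∫ z, w z := by
    rw [integral_const_mul]
    have := ibp_radial w hw hwc 0 (fun _ => 1) (fun _ => 0) (fun z _ => hasDerivAt_const _ _)
      (fun z _ => continuousAt_const)
    simp only [sub_zero, one_mul, mul_zero, add_zero, mul_one] at this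
    rw [this, integral_mul_const]
    push_cast
    ring
  have ti : ∀ i, ∫ z, (c i / ‖z - q i‖ ^ 3) * fderiv ℝ w z (z - q i) = 0 := by
    intro i
    have := ibp_norm w hw hwc (q i) (h i) (fun r => c i / r ^ 3) (fun r => - 3 * c i / r ^ 4)
      (by
        intro z hz
        have hp := hpos i z hz
        have h1 : HasDerivAt (fun r : ℝ => r ^ 3) (3 * ‖z - q i‖ ^ 2) ‖z - q i‖ := by
          simpa using hasDerivAt_pow 3 ‖z - q i‖
        have h2 := (h1.inv (by positivity)).const_mul (c i)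
        have e : -3 * c i / ‖z - q i‖ ^ 4 = c i * (-(3 * ‖z - q i‖ ^ 2) / (‖z - q i‖ ^ 3) ^ 2) := by
          field_simp
        rw [e]
        exact h2)
      (by
        intro z hz
        have hp := hpos i z hz
        have h1 : ContinuousAt (fun r : ℝ => r ^ 4) ‖z - q i‖ := by fun_prop
        exact continuousAt_const.div h1 (by positivity))
    rw [this]
    rw [neg_eq_zero]
    apply integral_eq_zero_of_ae
    refine Filter.Eventually.of_forall fun z => ?_
    by_cases hz : z ∈ tsupport w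
    · have hp := hpos i z hz
      simp only [Pi.zero_apply]
      have : (3:ℕ) * (c i / ‖z - q i‖ ^ 3) + ‖z - q i‖ * (-3 * c i / ‖z - q i‖ ^ 4) = 0 := by
        push_cast
        field_simp
        ring
      rw [this, mul_zero]
    · have : w z = 0 := image_eq_zero_of_notMem_tsupport hz
      simp [this]
  rw [t0, Finset.sum_congr rfl (fun i _ => ti i)]
  simp

/-- Radial far field. -/
noncomputable def farg (k Q r : ℝ) : ℝ := Real.sin (k * (r - Q)) / r

noncomputable def farg' (k Q r : ℝ) : ℝ :=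
  k * Real.cos (k * (r - Q)) / r - Real.sin (k * (r - Q)) / r ^ 2

noncomputable def farX (k Q : ℝ) (z : EuclideanSpace ℝ (Fin 3)) : EuclideanSpace ℝ (Fin 3) :=
  (farg' k Q ‖z‖ / ‖z‖) • z

theorem hasDerivAt_farg (k Q r : ℝ) (hr : r ≠ 0) : HasDerivAt (farg k Q) (farg' k Q r) r := by
  have h1 : HasDerivAt (fun r => Real.sin (k * (r - Q))) (Real.cos (k * (r - Q)) * k) r := by
    have h2 : HasDerivAt (fun r => k * (r - Q)) k r := by
      simpa using ((hasDerivAt_id r).sub_const Q).const_mul k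
    exact h2.sin
  have h3 := h1.div (hasDerivAt_id r) hr
  unfold farg farg'
  have e : k * Real.cos (k * (r - Q)) / r - Real.sin (k * (r - Q)) / r ^ 2 =
      (Real.cos (k * (r - Q)) * k * id r - Real.sin (k * (r - Q)) * 1) / id r ^ 2 := by
    simp only [id]
    field_simp
  rw [e]
  exact h3

theorem farV_hasFDerivAt (k Q : ℝ) (z : EuclideanSpace ℝ (Fin 3)) (hz : z ≠ 0) :
    HasFDerivAt (fun z : EuclideanSpace ℝ (Fin 3) => farg k Q ‖z‖) (innerSL ℝ (farX k Q z)) z := by
  have hp : ‖z - 0‖ ≠ 0 := by simpa using hz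
  have := hasFDerivAt_radial 0 z hz (farg k Q) (farg' k Q ‖z - 0‖) (hasDerivAt_farg k Q _ hp)
  simp only [sub_zero] at this
  exact this

theorem farV_contDiffAt (k Q : ℝ) (z : EuclideanSpace ℝ (Fin 3)) (hz : z ≠ 0) {n : WithTop ℕ∞} :
    ContDiffAt ℝ n (fun z : EuclideanSpace ℝ (Fin 3) => farg k Q ‖z‖) z := by
  unfold farg
  have h1 : ContDiffAt ℝ n (fun y : EuclideanSpace ℝ (Fin 3) => ‖y‖) z := contDiffAt_norm ℝ hz
  refine ContDiffAt.div ?_ h1 (norm_ne_zero_iff.mpr hz)
  exact Real.contDiff_sin.contDiffAt.comp z (contDiffAt_const.mul (h1.sub contDiffAt_const))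

theorem farX_continuousAt (k Q : ℝ) (z : EuclideanSpace ℝ (Fin 3)) (hz : z ≠ 0) :
    ContinuousAt (farX k Q) z := by
  unfold farX farg'
  have h0 : ‖z‖ ≠ 0 := norm_ne_zero_iff.mpr hz
  have h1 : ContinuousAt (fun y : EuclideanSpace ℝ (Fin 3) => ‖y‖) z := by fun_prop
  have h2 : ContinuousAt (fun y : EuclideanSpace ℝ (Fin 3) => k * Real.cos (k * (‖y‖ - Q))) z := by fun_prop
  have h3 : ContinuousAt (fun y : EuclideanSpace ℝ (Fin 3) => Real.sin (k * (‖y‖ - Q))) z := by fun_prop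
  have h4 : ContinuousAt (fun y : EuclideanSpace ℝ (Fin 3) => ‖y‖ ^ 2) z := by fun_prop
  exact (((h2.div h1 h0).sub (h3.div h4 (by positivity))).div h1 h0).smul continuousAt_id

/-- Weak form of `-Δ v = k² v` for the far field. -/
theorem farX_identity (k Q : ℝ)
    (w : EuclideanSpace ℝ (Fin 3) → ℝ) (hw : ContDiff ℝ 1 w) (hwc : HasCompactSupport w)
    (h : (0 : EuclideanSpace ℝ (Fin 3)) ∉ tsupport w) :
    ∫ z, fderiv ℝ w z (farX k Q z) = k ^ 2 * ∫ z, w z * farg k Q ‖z‖ := by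
  have hpos : ∀ z ∈ tsupport w, 0 < ‖z - 0‖ := by
    intro z hz
    rw [sub_zero]
    apply norm_pos_iff.mpr
    rintro rfl
    exact h hz
  have hd : ∀ r : ℝ, r ≠ 0 → HasDerivAt (fun r => farg' k Q r / r)
      (- (k ^ 2) * Real.sin (k * (r - Q)) / r ^ 2 - 3 * k * Real.cos (k * (r - Q)) / r ^ 3 +
        3 * Real.sin (k * (r - Q)) / r ^ 4) r := by
    intro r hr
    have hlin : HasDerivAt (fun r => k * (r - Q)) k r := by
      simpa using ((hasDerivAt_id r).sub_const Q).const_mul k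
    have hc := (hlin.cos).const_mul k
    have hs := hlin.sin
    have hr2 : HasDerivAt (fun r : ℝ => r ^ 2) (2 * r) r := by simpa using hasDerivAt_pow 2 r
    have h1 := ((hc.div (hasDerivAt_id r) hr).sub (hs.div hr2 (by positivity))).div (hasDerivAt_id r) hr
    unfold farg'
    refine h1.congr_deriv ?_
    simp only [id, Pi.sub_apply, Pi.div_apply]
    field_simp
    ring
  have := ibp_norm w hw hwc 0 h (fun r => farg' k Q r / r)
    (fun r => - (k ^ 2) * Real.sin (k * (r - Q)) / r ^ 2 - 3 * k * Real.cos (k * (r - Q)) / r ^ 3 +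
        3 * Real.sin (k * (r - Q)) / r ^ 4)
    (fun z hz => hd _ (hpos z hz).ne')
    (by
      intro z hz
      have hp := hpos z hz
      have a1 : ContinuousAt (fun r : ℝ => r ^ 2) ‖z - 0‖ := by fun_prop
      have a2 : ContinuousAt (fun r : ℝ => r ^ 3) ‖z - 0‖ := by fun_prop
      have a3 : ContinuousAt (fun r : ℝ => r ^ 4) ‖z - 0‖ := by fun_prop
      have b1 : ContinuousAt (fun r : ℝ => - (k ^ 2) * Real.sin (k * (r - Q))) ‖z - 0‖ := by fun_prop
      have b2 : ContinuousAt (fun r : ℝ => 3 * k * Real.cos (k * (r - Q))) ‖z - 0‖ := by fun_prop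
      have b3 : ContinuousAt (fun r : ℝ => 3 * Real.sin (k * (r - Q))) ‖z - 0‖ := by fun_prop
      exact ((b1.div a1 (by positivity)).sub (b2.div a2 (by positivity))).add (b3.div a3 (by positivity)))
  simp only [sub_zero] at this
  have e1 : ∀ z, fderiv ℝ w z (farX k Q z) = farg' k Q ‖z‖ / ‖z‖ * fderiv ℝ w z z := by
    intro z
    unfold farX
    rw [map_smul, smul_eq_mul]
  simp_rw [e1]
  rw [this, ← integral_neg, ← integral_const_mul]
  apply integral_congr_ae
  refine Filter.Eventually.of_forall fun z => ?_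
  by_cases hz : z ∈ tsupport w
  · have hp := hpos z hz
    rw [sub_zero] at hp
    simp only
    have e2 : k ^ 2 * (w z * farg k Q ‖z‖) = w z * (k ^ 2 * farg k Q ‖z‖) := by ring
    rw [e2, ← mul_neg]
    congr 1
    unfold farg farg'
    push_cast
    field_simp
    ring
  · have : w z = 0 := image_eq_zero_of_notMem_tsupport hz
    simp [this]

end Pool.Agent.Helper533.BallObstacle
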