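import Pool.Agent.Helper533.BallObstacle.Near

open MeasureTheory Metric Set

namespace Pool.Agent.Helper533.BallObstacle

theorem dipole_bounds (z q : EuclideanSpace ℝ (Fin 3)) (hq : ‖q‖ ≤ 2) (hz : 2 < ‖z‖) :
    ‖z‖ * (‖z‖ - 2) / (‖z‖ + 2) ^ 3 ≤ inner ℝ z (z - q) / ‖z - q‖ ^ 3 ∧
      inner ℝ z (z - q) / ‖z - q‖ ^ 3 ≤ ‖z‖ * (‖z‖ + 2) / (‖z‖ - 2) ^ 3 := by
  set r := ‖z‖ with hr
  have h1 : inner ℝ z (z - q) = r ^ 2 - inner ℝ z q := by
    rw [inner_sub_right, real_inner_self_eq_norm_sq]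
  have h2 : |inner ℝ z q| ≤ r * 2 := by
    calc |inner ℝ z q| ≤ ‖z‖ * ‖q‖ := abs_real_inner_le_norm z q
      _ ≤ r * 2 := by
        rw [← hr]
        exact mul_le_mul_of_nonneg_left hq (by linarith)
  rw [abs_le] at h2
  have h3 : r - 2 ≤ ‖z - q‖ := by
    have := norm_sub_norm_le z q
    linarith
  have h4 : ‖z - q‖ ≤ r + 2 := by
    have := norm_sub_le z q
    linarith
  have h5 : 0 < ‖z - q‖ := by linarith
  constructor
  · apply div_le_div₀
    · rw [h1]; nlinarith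
    · rw [h1]; nlinarith
    · positivity
    · exact pow_le_pow_left₀ h5.le h4 3
  · apply div_le_div₀
    · nlinarith
    · rw [h1]; nlinarith
    · apply pow_pos; linarith
    · exact pow_le_pow_left₀ (by linarith) h3 3

theorem L_bound (r : ℝ) (hr : 20 ≤ r) : 1 - 8 / r ≤ r * (r * (r - 2) / (r + 2) ^ 3) := by
  have h0 : 0 < r := by linarith
  have e : 1 - 8 / r = (r - 8) / r := by field_simp
  rw [e, ← mul_div_assoc, div_le_div_iff₀ h0 (by positivity)]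
  nlinarith [sq_nonneg r]

theorem U_bound (r : ℝ) (hr : 20 ≤ r) : r * (r * (r + 2) / (r - 2) ^ 3) ≤ 1 + 12 / r := by
  have h0 : 0 < r := by linarith
  have e : 1 + 12 / r = (r + 12) / r := by field_simp
  have h2 : 0 < (r - 2) ^ 3 := by apply pow_pos; linarith
  rw [e, ← mul_div_assoc, div_le_div_iff₀ h2 h0]
  nlinarith [mul_nonneg (by linarith : (0:ℝ) ≤ r - 20) (mul_nonneg h0.le h0.le)]

theorem far_ratio (k Q r : ℝ) (hk : 0 < k) (hQ : 1 ≤ Q) (hr : Q < r) (hkr : k * (r - Q) < Real.pi / 2) :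
    r * farg' k Q r / farg k Q r ≤ Q / (r - Q) := by
  have hy : 0 < k * (r - Q) := mul_pos hk (by linarith)
  have hs : 0 < Real.sin (k * (r - Q)) :=
    Real.sin_pos_of_pos_of_lt_pi hy (by linarith [Real.pi_pos])
  have hc : 0 < Real.cos (k * (r - Q)) :=
    Real.cos_pos_of_mem_Ioo ⟨by linarith [Real.pi_pos], hkr⟩
  have ht := Real.lt_tan hy hkr
  rw [Real.tan_eq_sin_div_cos, lt_div_iff₀ hc] at ht
  have hr0 : 0 < r := by linarith
  have hrQ : 0 < r - Q := by linarith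
  unfold farg farg'
  have e : r * (k * Real.cos (k * (r - Q)) / r - Real.sin (k * (r - Q)) / r ^ 2) /
      (Real.sin (k * (r - Q)) / r) = r * (k * Real.cos (k * (r - Q))) / Real.sin (k * (r - Q)) - 1 := by
    field_simp
  rw [e]
  have e2 : Q / (r - Q) = r / (r - Q) - 1 := by
    field_simp
    ring
  rw [e2]
  apply sub_le_sub_right
  rw [div_le_div_iff₀ hs hrQ]
  nlinarith

theorem lhs_bound (r Q : ℝ) (hr : 20 ≤ r) (hQ1 : 1 ≤ Q) (hQ2 : Q ≤ 2) :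
    r * (Q / (r - Q)) ≤ Q + 8 / r := by
  have hr0 : 0 < r := by linarith
  have hrQ : 0 < r - Q := by linarith
  have e : Q + 8 / r = (Q * r + 8) / r := by field_simp
  rw [e, ← mul_div_assoc, div_le_div_iff₀ hrQ hr0]
  nlinarith [mul_nonneg (sub_nonneg.mpr hQ2) hr0.le, mul_nonneg (sub_nonneg.mpr hQ2) (sub_nonneg.mpr hQ1)]

theorem lower_bound (ε : ℝ) (p x : EuclideanSpace ℝ (Fin 3)) (k Q R s : ℝ)
    (hε : 0 < ε) (hε1 : ε ≤ 1 / 1000) (hp : ‖p‖ = 6 / 5) (hx : ‖x‖ ≤ 1 / 10)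
    (hs : 20 ≤ s) (hQ1 : 1 ≤ Q) (hQ2 : Q ≤ 2) (hk : 0 < k) (hkR : k * (R - Q) ≤ Real.pi)
    (hks : 44 / s + 14 * k ^ 2 * s ^ 3 ≤
      1 + ε * (1 - 100 * ε) * ((1 - 1 / ‖p - x‖) ^ 2 + (1 - 1 / ‖-p - x‖) ^ 2) - Q)
    (u : EuclideanSpace ℝ (Fin 3) → ℝ) (hu : ContDiff ℝ 1 u) (huc : HasCompactSupport u)
    (hsupp : ∀ z ∈ tsupport u, ‖z‖ < R ∧ 1 < ‖z - x‖ ∧ ε < ‖z - p‖ ∧ ε < ‖z - (-p)‖) :
    k ^ 2 * ∫ z, u z ^ 2 ≤ ∫ z, ‖gradient u z‖ ^ 2 := by
  set σ₁ := ‖p - x‖ with hσ₁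
  set σ₂ := ‖-p - x‖ with hσ₂
  have hσ₁l : 11 / 10 ≤ σ₁ := by
    have := norm_sub_norm_le p x
    linarith
  have hσ₁u : σ₁ ≤ 13 / 10 := by
    have := norm_sub_le p x
    linarith
  have hpn : ‖-p‖ = 6 / 5 := by rw [norm_neg, hp]
  have hσ₂l : 11 / 10 ≤ σ₂ := by
    have := norm_sub_norm_le (-p) x
    linarith
  have hσ₂u : σ₂ ≤ 13 / 10 := by
    have := norm_sub_le (-p) x
    linarith
  set m₁ := 1 - 1 / σ₁ with hm₁
  set m₂ := 1 - 1 / σ₂ with hm₂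
  have hm₁0 : 0 ≤ m₁ ∧ m₁ ≤ 3 / 13 := by
    constructor
    · have : 1 / σ₁ ≤ 1 := by rw [div_le_one (by linarith)]; linarith
      linarith
    · have : 10 / 13 ≤ 1 / σ₁ := by
        rw [div_le_div_iff₀ (by norm_num) (by linarith)]; linarith
      linarith
  have hm₂0 : 0 ≤ m₂ ∧ m₂ ≤ 3 / 13 := by
    constructor
    · have : 1 / σ₂ ≤ 1 := by rw [div_le_one (by linarith)]; linarith
      linarith
    · have : 10 / 13 ≤ 1 / σ₂ := by
        rw [div_le_div_iff₀ (by norm_num) (by linarith)]; linarith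
      linarith
  set b₁ := ε * m₁ * (1 - 100 * ε) with hb₁
  set b₂ := ε * m₂ * (1 - 100 * ε) with hb₂
  have h100 : 0 < 1 - 100 * ε := by linarith
  have hb₁0 : 0 ≤ b₁ := mul_nonneg (mul_nonneg hε.le hm₁0.1) h100.le
  have hb₂0 : 0 ≤ b₂ := mul_nonneg (mul_nonneg hε.le hm₂0.1) h100.le
  have hb₁1 : b₁ ≤ 1 / 1000 := by
    calc b₁ ≤ (1 / 1000 * 1) * 1 := by
          apply mul_le_mul (mul_le_mul hε1 (by linarith) hm₁0.1 (by norm_num)) (by linarith)
            h100.le (by norm_num)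
      _ = 1 / 1000 := by norm_num
  have hb₂1 : b₂ ≤ 1 / 1000 := by
    calc b₂ ≤ (1 / 1000 * 1) * 1 := by
          apply mul_le_mul (mul_le_mul hε1 (by linarith) hm₂0.1 (by norm_num)) (by linarith)
            h100.le (by norm_num)
      _ = 1 / 1000 := by norm_num
  -- smallness of k
  have hs0 : 0 < s := by linarith
  have hk2 : 14 * k ^ 2 * s ^ 3 ≤ 1 := by
    have h44 : 0 < 44 / s := by positivity
    have hsq1 : m₁ ^ 2 ≤ (3 / 13) ^ 2 := pow_le_pow_left₀ hm₁0.1 hm₁0.2 2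
    have hsq2 : m₂ ^ 2 ≤ (3 / 13) ^ 2 := pow_le_pow_left₀ hm₂0.1 hm₂0.2 2
    have hsq : m₁ ^ 2 + m₂ ^ 2 ≤ 1 := by norm_num at hsq1 hsq2; linarith
    have : ε * (1 - 100 * ε) * (m₁ ^ 2 + m₂ ^ 2) ≤ (1 * 1) * 1 := by
      apply mul_le_mul (mul_le_mul (by linarith) (by linarith) h100.le (by norm_num)) hsq
        (by positivity) (by norm_num)
    linarith
  have hk2s2 : k ^ 2 * s ^ 2 ≤ 1 / 280 := by
    have : 14 * k ^ 2 * s ^ 3 = 14 * (k ^ 2 * s ^ 2) * s := by ring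
    rw [this] at hk2
    have h8 : 0 ≤ k ^ 2 * s ^ 2 := by positivity
    have h9 : k ^ 2 * s ^ 2 * 20 ≤ k ^ 2 * s ^ 2 * s := mul_le_mul_of_nonneg_left hs h8
    linarith
  have hks1 : k * s ≤ 1 / 16 := by
    have : (k * s) ^ 2 ≤ (1 / 16) ^ 2 := by
      rw [mul_pow]; linarith
    exact le_of_sq_le_sq this (by norm_num)
  set τ := 2 * k ^ 2 with hτ
  set q₂ := x + (1 / σ₁ ^ 2) • (p - x) with hq₂
  set q₄ := x + (1 / σ₂ ^ 2) • (-p - x) with hq₄
  have hq₂n : ‖q₂ - x‖ = 1 / σ₁ := by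
    rw [hq₂, add_sub_cancel_left, norm_smul, Real.norm_of_nonneg (by positivity), ← hσ₁]
    field_simp
  have hq₄n : ‖q₄ - x‖ = 1 / σ₂ := by
    rw [hq₄, add_sub_cancel_left, norm_smul, Real.norm_of_nonneg (by positivity), ← hσ₂]
    field_simp
  have hinv₁ : 1 / σ₁ < 1 := by rw [div_lt_one (by linarith)]; linarith
  have hinv₂ : 1 / σ₂ < 1 := by rw [div_lt_one (by linarith)]; linarith
  -- the value of the near field
  have hV : ∀ z, nearV (1 + τ * (2 * s) ^ 2 / 6) τ ![1, b₁, -b₁ / σ₁, b₂, -b₂ / σ₂] ![x, p, q₂, -p, q₄] z =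
      (1 - 1 / ‖z - x‖ - b₁ * grn (z - x) (p - x) - b₂ * grn (z - x) (-p - x)) +
        τ * ((2 * s) ^ 2 - ‖z‖ ^ 2) / 6 := by
    intro z
    unfold nearV grn
    rw [Fin.sum_univ_five]
    simp only [Matrix.cons_val]
    have e1 : z - x - (p - x) = z - p := by abel
    have e2 : z - x - (-p - x) = z - -p := by abel
    have e3 : z - x - (1 / ‖p - x‖ ^ 2) • (p - x) = z - q₂ := by
      rw [hq₂, ← hσ₁]; abel
    have e4 : z - x - (1 / ‖-p - x‖ ^ 2) • (-p - x) = z - q₄ := by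
      rw [hq₄, ← hσ₂]; abel
    rw [e1, e2, e3, e4, ← hσ₁, ← hσ₂]
    have hσ₁0 : σ₁ ≠ 0 := by linarith
    have hσ₂0 : σ₂ ≠ 0 := by linarith
    ring
  have hX : ∀ z, inner ℝ z (nearX τ ![1, b₁, -b₁ / σ₁, b₂, -b₂ / σ₂] ![x, p, q₂, -p, q₄] z) =
      -(τ / 3) * ‖z‖ ^ 2 + (inner ℝ z (z - x) / ‖z - x‖ ^ 3 + b₁ * (inner ℝ z (z - p) / ‖z - p‖ ^ 3)
        - b₁ / σ₁ * (inner ℝ z (z - q₂) / ‖z - q₂‖ ^ 3) + b₂ * (inner ℝ z (z - -p) / ‖z - -p‖ ^ 3)
        - b₂ / σ₂ * (inner ℝ z (z - q₄) / ‖z - q₄‖ ^ 3)) := by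
    intro z
    unfold nearX
    rw [Fin.sum_univ_five]
    simp only [Matrix.cons_val, inner_add_right, inner_smul_right, inner_neg_right, real_inner_self_eq_norm_sq]
    ring
  have hVpos : ∀ z ∈ tsupport u, 0 < 1 - 1 / ‖z - x‖ - b₁ * grn (z - x) (p - x) - b₂ * grn (z - x) (-p - x) := by
    intro z hz
    obtain ⟨h1, h2, h3, h4⟩ := hsupp z hz
    have e12 : ‖(p - x) - (-p - x)‖ = 12 / 5 := by
      have : (p - x) - (-p - x) = (2:ℝ) • p := by rw [two_smul]; abel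
      rw [this, norm_smul, hp]
      norm_num
    have := green_pos ε hε hε1 (z - x) (p - x) (-p - x) h2 hσ₁l hσ₁u hσ₂l hσ₂u e12
      (by rw [show z - x - (p - x) = z - p by abel]; exact h3)
      (by rw [show z - x - (-p - x) = z - -p by abel]; exact h4)
    exact this
  have hVle : ∀ z ∈ tsupport u, 1 - 1 / ‖z - x‖ - b₁ * grn (z - x) (p - x) - b₂ * grn (z - x) (-p - x) ≤ 1 := by
    intro z hz
    obtain ⟨h1, h2, h3, h4⟩ := hsupp z hz
    have g1 := (grn_bound (z - x) (p - x) h2 hσ₁l (by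
      intro h
      have : z = p := by simpa using h
      rw [this] at h3
      simp at h3
      linarith)).1
    have g2 := (grn_bound (z - x) (-p - x) h2 hσ₂l (by
      intro h
      have : z = -p := by simpa using h
      rw [this] at h4
      simp at h4
      linarith)).1
    have : 0 < 1 / ‖z - x‖ := by positivity
    have := mul_nonneg hb₁0 g1
    have := mul_nonneg hb₂0 g2
    linarith
  apply lower_glue u hu huc (1 + τ * (2 * s) ^ 2 / 6) τ k Q R s ![1, b₁, -b₁ / σ₁, b₂, -b₂ / σ₂]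
    ![x, p, q₂, -p, q₄] hs0 (by linarith) hk hkR (fun z hz => (hsupp z hz).1)
  · intro z hz i
    obtain ⟨h1, h2, h3, h4⟩ := hsupp z hz
    have n0 : z ≠ x := by
      rintro rfl
      simp at h2
      linarith
    have n1 : z ≠ p := by
      rintro rfl
      simp at h3
      linarith
    have n2 : z ≠ q₂ := by
      intro h
      rw [h, hq₂n] at h2
      linarith
    have n3 : z ≠ -p := by
      intro h
      rw [h] at h4
      simp at h4
      linarith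
    have n4 : z ≠ q₄ := by
      intro h
      rw [h, hq₄n] at h2
      linarith
    fin_cases i
    · exact n0
    · exact n1
    · exact n2
    · exact n3
    · exact n4
  · intro z hz hzs
    rw [hV]
    have h1 := hVpos z hz
    have h2 := hVle z hz
    have h3 : 0 ≤ (2 * s) ^ 2 - ‖z‖ ^ 2 := sub_nonneg.mpr (pow_le_pow_left₀ (norm_nonneg z) hzs 2)
    have hτ0 : 0 < τ := by positivity
    have h4 : 0 ≤ τ * ((2 * s) ^ 2 - ‖z‖ ^ 2) / 6 := by positivity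
    refine ⟨by linarith, ?_⟩
    have h5 : τ * ((2 * s) ^ 2 - ‖z‖ ^ 2) / 6 ≤ 1 := by
      have : τ * ((2 * s) ^ 2 - ‖z‖ ^ 2) ≤ τ * (2 * s) ^ 2 := by
        apply mul_le_mul_of_nonneg_left _ hτ0.le
        have := sq_nonneg ‖z‖
        linarith
      have e : τ * (2 * s) ^ 2 = 8 * (k ^ 2 * s ^ 2) := by rw [hτ]; ring
      linarith
    have hk20 : 0 < k ^ 2 := by positivity
    calc k ^ 2 * (1 - 1 / ‖z - x‖ - b₁ * grn (z - x) (p - x) - b₂ * grn (z - x) (-p - x) +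
        τ * ((2 * s) ^ 2 - ‖z‖ ^ 2) / 6) ≤ k ^ 2 * 2 := mul_le_mul_of_nonneg_left (by linarith) hk20.le
      _ = τ := by rw [hτ]; ring
  · intro z hz hsz hzs
    set r := ‖z‖ with hr
    have hr0 : 0 < r := by linarith
    have hr20 : 20 ≤ r := by linarith
    have e1 : inner ℝ z (farX k Q z) = r * farg' k Q r := by
      unfold farX
      rw [inner_smul_right, real_inner_self_eq_norm_sq, ← hr]
      field_simp
    rw [e1]
    have hfr := far_ratio k Q r hk hQ1 (by linarith) (by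
      have : k * (r - Q) ≤ k * (2 * s) := mul_le_mul_of_nonneg_left (by linarith) hk.le
      have h3 := Real.pi_gt_three
      linarith)
    have h1 := hVpos z hz
    have h2 := hVle z hz
    have h3 : 0 ≤ (2 * s) ^ 2 - ‖z‖ ^ 2 := sub_nonneg.mpr (pow_le_pow_left₀ (norm_nonneg z) hzs 2)
    have hτ0 : 0 < τ := by positivity
    have h4 : 0 ≤ τ * ((2 * s) ^ 2 - ‖z‖ ^ 2) / 6 := by positivity
    refine hfr.trans ?_
    rw [hV, hX, ← hr]
    rw [← hr] at h4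
    set V := 1 - 1 / ‖z - x‖ - b₁ * grn (z - x) (p - x) - b₂ * grn (z - x) (-p - x) with hVdef
    have hv1 : V + τ * ((2 * s) ^ 2 - r ^ 2) / 6 ≤ 1 + 4 / 3 * (k ^ 2 * s ^ 2) := by
      have : τ * ((2 * s) ^ 2 - r ^ 2) ≤ τ * (2 * s) ^ 2 := by
        apply mul_le_mul_of_nonneg_left _ hτ0.le
        have := sq_nonneg r
        linarith
      have e : τ * (2 * s) ^ 2 = 8 * (k ^ 2 * s ^ 2) := by rw [hτ]; ring
      linarith
    have hxn : ‖x‖ ≤ 2 := by linarith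
    have hpn1 : ‖p‖ ≤ 2 := by linarith
    have hpn2 : ‖-p‖ ≤ 2 := by linarith
    have hq₂2 : ‖q₂‖ ≤ 2 := by
      have := norm_add_le (q₂ - x) x
      rw [sub_add_cancel, hq₂n] at this
      linarith
    have hq₄2 : ‖q₄‖ ≤ 2 := by
      have := norm_add_le (q₄ - x) x
      rw [sub_add_cancel, hq₄n] at this
      linarith
    obtain ⟨dx, -⟩ := dipole_bounds z x hxn (by linarith)
    obtain ⟨dp, -⟩ := dipole_bounds z p hpn1 (by linarith)
    obtain ⟨dn, -⟩ := dipole_bounds z (-p) hpn2 (by linarith)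
    obtain ⟨-, d2⟩ := dipole_bounds z q₂ hq₂2 (by linarith)
    obtain ⟨-, d4⟩ := dipole_bounds z q₄ hq₄2 (by linarith)
    rw [← hr] at dx dp dn d2 d4
    set L := r * (r - 2) / (r + 2) ^ 3 with hL
    set U := r * (r + 2) / (r - 2) ^ 3 with hU
    have hLb := L_bound r hr20
    have hUb := U_bound r hr20
    rw [← hL] at hLb
    rw [← hU] at hUb
    rw [le_div_iff₀ (by linarith)]
    -- reduce to a scalar inequality multiplied by r
    have hB1 : 0 ≤ b₁ / σ₁ := by positivity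
    have hB2 : 0 ≤ b₂ / σ₂ := by positivity
    have hB1' : b₁ / σ₁ ≤ b₁ := div_le_self hb₁0 (by linarith)
    have hB2' : b₂ / σ₂ ≤ b₂ := div_le_self hb₂0 (by linarith)
    have hinner : L * (1 + b₁ + b₂) - U * (b₁ / σ₁ + b₂ / σ₂) ≤
        (inner ℝ z (z - x) / ‖z - x‖ ^ 3 + b₁ * (inner ℝ z (z - p) / ‖z - p‖ ^ 3)
        - b₁ / σ₁ * (inner ℝ z (z - q₂) / ‖z - q₂‖ ^ 3) + b₂ * (inner ℝ z (z - -p) / ‖z - -p‖ ^ 3)
        - b₂ / σ₂ * (inner ℝ z (z - q₄) / ‖z - q₄‖ ^ 3)) := by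
      have i1 := mul_le_mul_of_nonneg_left dp hb₁0
      have i2 := mul_le_mul_of_nonneg_left dn hb₂0
      have i3 := mul_le_mul_of_nonneg_left d2 hB1
      have i4 := mul_le_mul_of_nonneg_left d4 hB2
      clear hX hV hVpos hVle hsupp hfr
      linarith
    have hQx : (1 + b₁ + b₂) - (b₁ / σ₁ + b₂ / σ₂) =
        1 + ε * (1 - 100 * ε) * (m₁ ^ 2 + m₂ ^ 2) := by
      have e1 : b₁ - b₁ / σ₁ = b₁ * m₁ := by rw [hm₁]; ring
      have e2 : b₂ - b₂ / σ₂ = b₂ * m₂ := by rw [hm₂]; ring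
      have : (1 + b₁ + b₂) - (b₁ / σ₁ + b₂ / σ₂) = 1 + (b₁ - b₁ / σ₁) + (b₂ - b₂ / σ₂) := by ring
      rw [this, e1, e2, hb₁, hb₂]
      ring
    have hinner2 : r * (L * (1 + b₁ + b₂) - U * (b₁ / σ₁ + b₂ / σ₂)) ≥
        (1 + ε * (1 - 100 * ε) * (m₁ ^ 2 + m₂ ^ 2)) - 12 / r := by
      have j1 : (1 - 8 / r) * (1 + b₁ + b₂) ≤ r * L * (1 + b₁ + b₂) :=
        mul_le_mul_of_nonneg_right hLb (by linarith)
      have j2 : r * U * (b₁ / σ₁ + b₂ / σ₂) ≤ (1 + 12 / r) * (b₁ / σ₁ + b₂ / σ₂) :=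
        mul_le_mul_of_nonneg_right hUb (by linarith)
      have hri : 0 < 1 / r := by positivity
      have j3 : 8 / r * (1 + b₁ + b₂) ≤ 9 * (1 / r) := by
        have : 8 / r * (1 + b₁ + b₂) = (8 * (1 + b₁ + b₂)) * (1 / r) := by ring
        rw [this]
        exact mul_le_mul_of_nonneg_right (by linarith) hri.le
      have j4 : 12 / r * (b₁ / σ₁ + b₂ / σ₂) ≤ 1 * (1 / r) := by
        have : 12 / r * (b₁ / σ₁ + b₂ / σ₂) = (12 * (b₁ / σ₁ + b₂ / σ₂)) * (1 / r) := by ring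
        rw [this]
        exact mul_le_mul_of_nonneg_right (by linarith) hri.le
      have e12 : 12 / r = 12 * (1 / r) := by ring
      rw [e12]
      rw [← hQx]
      have j5 : r * (L * (1 + b₁ + b₂) - U * (b₁ / σ₁ + b₂ / σ₂)) =
        r * L * (1 + b₁ + b₂) - r * U * (b₁ / σ₁ + b₂ / σ₂) := by ring
      have j6 : (1 - 8 / r) * (1 + b₁ + b₂) = (1 + b₁ + b₂) - 8 / r * (1 + b₁ + b₂) := by ring
      have j7 : (1 + 12 / r) * (b₁ / σ₁ + b₂ / σ₂) = (b₁ / σ₁ + b₂ / σ₂) + 12 / r * (b₁ / σ₁ + b₂ / σ₂) := by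
        ring
      rw [j6] at j1
      rw [j7] at j2
      rw [j5]
      linarith
    have hlhs : r * (Q / (r - Q)) ≤ Q + 8 / r := lhs_bound r Q hr20 hQ1 hQ2
    have hQr0 : 0 ≤ Q / (r - Q) := by
      apply div_nonneg <;> linarith
    have hks2 : k ^ 2 * s ^ 2 ≤ k ^ 2 * s ^ 3 / 20 := by
      have : k ^ 2 * s ^ 3 = k ^ 2 * s ^ 2 * s := by ring
      rw [this]
      have h8 : 0 ≤ k ^ 2 * s ^ 2 := by positivity
      have h9 : k ^ 2 * s ^ 2 * 20 ≤ k ^ 2 * s ^ 2 * s := mul_le_mul_of_nonneg_left hs h8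
      linarith
    have hr3 : k ^ 2 * r ^ 3 ≤ 8 * (k ^ 2 * s ^ 3) := by
      have : r ^ 3 ≤ (2 * s) ^ 3 := pow_le_pow_left₀ hr0.le hzs 3
      have h9 : 0 < k ^ 2 := by positivity
      calc k ^ 2 * r ^ 3 ≤ k ^ 2 * (2 * s) ^ 3 := mul_le_mul_of_nonneg_left this h9.le
        _ = 8 * (k ^ 2 * s ^ 3) := by ring
    have h1r : 1 / r ≤ 1 / s := one_div_le_one_div_of_le hs0 hsz
    have e44 : 44 / s = 44 * (1 / s) := by ring
    have e12 : 12 / r = 12 * (1 / r) := by ring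
    have e8 : 8 / r = 8 * (1 / r) := by ring
    have hri : 0 < 1 / r := by positivity
    have hri20 : 1 / r ≤ 1 / 20 := one_div_le_one_div_of_le (by norm_num) hr20
    have final : r * (Q / (r - Q) * (V + τ * ((2 * s) ^ 2 - r ^ 2) / 6)) ≤
        r * (-(τ / 3) * r ^ 2 + (L * (1 + b₁ + b₂) - U * (b₁ / σ₁ + b₂ / σ₂))) := by
      have f1 : r * (Q / (r - Q) * (V + τ * ((2 * s) ^ 2 - r ^ 2) / 6)) ≤
          (Q + 8 / r) * (1 + 4 / 3 * (k ^ 2 * s ^ 2)) := by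
        rw [← mul_assoc]
        apply mul_le_mul hlhs hv1 (by linarith)
        have : 0 < 8 / r := by positivity
        linarith
      have f2 : (Q + 8 / r) * (1 + 4 / 3 * (k ^ 2 * s ^ 2)) ≤ Q + 8 / r + 4 * (k ^ 2 * s ^ 2) := by
        have h0 : 0 ≤ k ^ 2 * s ^ 2 := by positivity
        have h1 : Q + 8 / r ≤ 3 := by rw [e8]; linarith
        have h2 := mul_le_mul_of_nonneg_right h1 h0
        linarith
      have f3 : r * (-(τ / 3) * r ^ 2) = - (2 / 3) * (k ^ 2 * r ^ 3) := by rw [hτ]; ring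
      rw [mul_add r (-(τ / 3) * r ^ 2), f3]
      have h0 : 0 ≤ k ^ 2 * s ^ 3 := by positivity
      have hks' : 44 * (1 / s) + 14 * (k ^ 2 * s ^ 3) ≤
          1 + ε * (1 - 100 * ε) * (m₁ ^ 2 + m₂ ^ 2) - Q := by
        rw [e44] at hks
        linarith
      rw [e12] at hinner2
      rw [e8] at f1 f2
      linarith
    have final2 := le_of_mul_le_mul_left final hr0
    linarith

end Pool.Agent.Helper533.BallObstacle
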