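import Pool.Agent.Helper533.BallObstacle.Upper
import Pool.Agent.Helper533.BallObstacle.Lower

open MeasureTheory Metric Set

namespace Pool.Agent.Helper533.BallObstacle

noncomputable def RR : ℝ := 10 ^ 36
noncomputable def ee : ℝ := 1 / 10 ^ 11
noncomputable def QQ : ℝ := 1 + ee * (1 / 18 + 1 / 5000)
noncomputable def kk : ℝ := Real.pi / (RR - QQ)

theorem kk_pos : 0 < kk := by
  unfold kk
  apply div_pos Real.pi_pos
  unfold RR QQ ee
  norm_num

/-- The concentric position: a test function with Rayleigh quotient below `kk ^ 2`. -/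
theorem upper_numeric (p : EuclideanSpace ℝ (Fin 3)) (hp : ‖p‖ = 6 / 5) :
    ∃ u : EuclideanSpace ℝ (Fin 3) → ℝ, ContDiff ℝ (⊤ : ℕ∞) u ∧ HasCompactSupport u ∧
      (∀ z ∈ tsupport u, (1 < ‖z‖ ∧ ‖z‖ < RR) ∧ ee < ‖z - p‖ ∧ ee < ‖z - (-p)‖) ∧
      0 < ∫ z, u z ^ 2 ∧
      ∫ z, ‖gradient u z‖ ^ 2 < kk ^ 2 * ∫ z, u z ^ 2 := by
  have hee : 0 < ee := by unfold ee; positivity
  obtain ⟨u, h1, h2, h3, h4, h5⟩ := upper_test ee (1 / 10 ^ 4) (1 / 2000) (1 / 10 ^ 100) RR p hee hp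
    (by norm_num) (by norm_num) (by norm_num) (by norm_num)
    (by unfold ee; norm_num) (by unfold RR; norm_num)
  refine ⟨u, h1, h2, h3, ?_⟩
  set k := Real.pi / (RR - 1) with hk
  set T := RR - 1 with hT
  have hT0 : 0 < T := by rw [hT]; unfold RR; norm_num
  have hkT : k * T = Real.pi := by rw [hk]; field_simp
  have hk0 : 0 < k := by have := Real.pi_pos; positivity
  have hkle : k ≤ 1 / 10 ^ 35 := by
    rw [hk, div_le_iff₀ hT0]
    have := Real.pi_le_four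
    rw [hT]
    unfold RR
    norm_num
    linarith
  have hom := om_pos
  set I := ∫ z, u z ^ 2 with hI
  set G := ∫ z, ‖gradient u z‖ ^ 2 with hG
  set d := QQ - 1 with hd
  have hd0 : d = ee * (1 / 18 + 1 / 5000) := by rw [hd]; unfold QQ; ring
  -- lower bound on I
  have hI1 : om * (T / 2 - 1 / 10 ^ 20) ≤ I := by
    refine le_trans ?_ h5
    have e1 : 2 * (1 / 10 ^ 100) * k * (om / 3 * RR ^ 3) ≤ om * (1 / 10 ^ 25) := by
      have : 2 * (1 / 10 ^ 100) * k * (om / 3 * RR ^ 3) = om * (k * (2 * (1 / 10 ^ 100) * (1 / 3) * RR ^ 3)) := by ring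
      rw [this]
      apply mul_le_mul_of_nonneg_left _ hom.le
      calc k * (2 * (1 / 10 ^ 100) * (1 / 3) * RR ^ 3) ≤ 1 / 10 ^ 35 * (2 * (1 / 10 ^ 100) * (1 / 3) * RR ^ 3) := by
            apply mul_le_mul_of_nonneg_right hkle
            unfold RR
            positivity
        _ ≤ 1 / 10 ^ 25 := by unfold RR; norm_num
    have e2 : k ^ 2 * (2 * (om / 3 * (2 * ee / (1 / 10 ^ 4)) ^ 3)) ≤ om * (1 / 10 ^ 25) := by
      have : k ^ 2 * (2 * (om / 3 * (2 * ee / (1 / 10 ^ 4)) ^ 3)) =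
          om * (k ^ 2 * (2 / 3 * (2 * ee / (1 / 10 ^ 4)) ^ 3)) := by ring
      rw [this]
      apply mul_le_mul_of_nonneg_left _ hom.le
      have hk2 : k ^ 2 ≤ (1 / 10 ^ 35) ^ 2 := pow_le_pow_left₀ hk0.le hkle 2
      calc k ^ 2 * (2 / 3 * (2 * ee / (1 / 10 ^ 4)) ^ 3) ≤ (1 / 10 ^ 35) ^ 2 * (2 / 3 * (2 * ee / (1 / 10 ^ 4)) ^ 3) := by
            apply mul_le_mul_of_nonneg_right hk2
            positivity
        _ ≤ 1 / 10 ^ 25 := by unfold ee; norm_num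
    have e3 : om * (T / 2 - 1 / 10 ^ 20) = om * (T / 2) - om * (1 / 10 ^ 20) := by ring
    rw [e3]
    have e4 : om * (1 / 10 ^ 25) + om * (1 / 10 ^ 25) ≤ om * (1 / 10 ^ 20) := by
      rw [← mul_add]
      apply mul_le_mul_of_nonneg_left _ hom.le
      norm_num
    linarith
  have hIpos : 0 < I := by
    refine lt_of_lt_of_le ?_ hI1
    apply mul_pos hom
    rw [hT]
    unfold RR
    norm_num
  refine ⟨hIpos, ?_⟩
  -- upper bound on G
  have hG1 : G ≤ om * k ^ 2 * (T / 2 + ee * (1 / 18 + 1 / 5000 - 1 / 100000)) := by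
    refine h4.trans ?_
    have e1 : om * (k ^ 2 * T / 2) + 1 / (1 / 2000) * (4 * k ^ 2) * (2 * (om / 3 * (2 * ee / (1 / 10 ^ 4)) ^ 3)) +
        (1 + 1 / 2000) * (k * (1 - 1 / (6 / 5 + 2 * ee / (1 / 10 ^ 4)))) ^ 2 * (1 / (1 - 4 * (1 / 10 ^ 4))) ^ 2 * (2 * (om * ee))
        = om * k ^ 2 * (T / 2 + ((2000 * 8 / 3) * (2 * ee / (1 / 10 ^ 4)) ^ 3 +
        (1 + 1 / 2000) * (1 - 1 / (6 / 5 + 2 * ee / (1 / 10 ^ 4))) ^ 2 * (1 / (1 - 4 * (1 / 10 ^ 4))) ^ 2 * (2 * ee))) := by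
      norm_num
      ring
    rw [e1]
    apply mul_le_mul_of_nonneg_left _ (by positivity)
    apply add_le_add le_rfl
    unfold ee
    norm_num
  -- comparison
  have hQT : RR - QQ = T - d := by rw [hT, hd]; ring
  have hd1 : 0 < d := by rw [hd0]; positivity
  have hd2 : d < 1 := by rw [hd0]; unfold ee; norm_num
  have hTbig : 100 < T := by rw [hT]; unfold RR; norm_num
  have hTd : 0 < T - d := by linarith
  have hkk : kk ^ 2 ≥ k ^ 2 * (1 + 2 * d / T) := by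
    unfold kk
    rw [hQT, ← hkT]
    have e : (k * T / (T - d)) ^ 2 = k ^ 2 * (T / (T - d)) ^ 2 := by ring
    rw [e]
    apply mul_le_mul_of_nonneg_left _ (by positivity)
    rw [div_pow, le_div_iff₀ (by positivity)]
    have e2 : (1 + 2 * d / T) * (T - d) ^ 2 = T ^ 2 - 3 * d ^ 2 + 2 * d ^ 3 / T := by
      field_simp
      ring
    rw [e2]
    have e3 : 2 * d ^ 3 / T ≤ 3 * d ^ 2 := by
      rw [div_le_iff₀ hT0]
      have : d ^ 3 ≤ d ^ 2 := by
        have : d ^ 3 = d ^ 2 * d := by ring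
        rw [this]
        have := sq_nonneg d
        nlinarith
      have : 0 ≤ d ^ 2 := sq_nonneg d
      nlinarith
    linarith
  calc G ≤ om * k ^ 2 * (T / 2 + ee * (1 / 18 + 1 / 5000 - 1 / 100000)) := hG1
    _ < om * k ^ 2 * ((1 + 2 * d / T) * (T / 2 - 1 / 10 ^ 20)) := by
        apply mul_lt_mul_of_pos_left _ (by positivity)
        have e : (1 + 2 * d / T) * (T / 2 - 1 / 10 ^ 20) = T / 2 + d - (1 / 10 ^ 20) * (1 + 2 * d / T) := by
          have hT0' : T ≠ 0 := hT0.ne'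
          have : 2 * d / T * (T / 2) = d := by field_simp
          linarith
        rw [e]
        have e2 : 2 * d / T ≤ 1 := by
          rw [div_le_one hT0]; linarith
        have e3 : (1 / 10 ^ 20 : ℝ) * (1 + 2 * d / T) ≤ 2 / 10 ^ 20 := by
          nlinarith
        have e4 : ee * (1 / 18 + 1 / 5000 - 1 / 100000) + 2 / 10 ^ 20 < d := by
          rw [hd0]
          unfold ee
          norm_num
        linarith
    _ = k ^ 2 * (1 + 2 * d / T) * (om * (T / 2 - 1 / 10 ^ 20)) := by ring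
    _ ≤ kk ^ 2 * I := by
        apply mul_le_mul hkk hI1
        · apply mul_nonneg hom.le
          rw [hT]; unfold RR; norm_num
        · positivity

/-- Tangent line inequality for the screening function. -/
theorem tangent (s : ℝ) (h1 : 11 / 10 ≤ s) (h2 : s ≤ 13 / 10) :
    1 / 36 + 125 / 1296 * (s ^ 2 - 36 / 25) ≤ (1 - 1 / s) ^ 2 := by
  have hs : 0 < s := by linarith
  have e : (1 - 1 / s) ^ 2 = (s - 1) ^ 2 / s ^ 2 := by
    field_simp
  rw [e, le_div_iff₀ (by positivity)]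
  have key : 0 ≤ (s - 6 / 5) ^ 2 * (900 - 300 * s - 125 * s ^ 2) := by
    apply mul_nonneg (sq_nonneg _)
    nlinarith
  nlinarith

/-- Off-centre positions: every Rayleigh quotient is at least `kk ^ 2`. -/
theorem lower_numeric (p x : EuclideanSpace ℝ (Fin 3)) (hp : ‖p‖ = 6 / 5) (hx : ‖x‖ ≤ 1 / 10)
    (hx' : 1 / 20 ≤ ‖x‖) (u : EuclideanSpace ℝ (Fin 3) → ℝ) (hu : ContDiff ℝ 1 u)
    (huc : HasCompactSupport u)
    (hsupp : ∀ z ∈ tsupport u, ‖z‖ < RR ∧ 1 < ‖z - x‖ ∧ ee < ‖z - p‖ ∧ ee < ‖z - (-p)‖) :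
    kk ^ 2 * ∫ z, u z ^ 2 ≤ ∫ z, ‖gradient u z‖ ^ 2 := by
  have hee : 0 < ee := by unfold ee; positivity
  apply lower_bound ee p x kk QQ RR (10 ^ 17) hee (by unfold ee; norm_num) hp hx (by norm_num)
    (by unfold QQ ee; norm_num) (by unfold QQ ee; norm_num) kk_pos
    (by
      unfold kk
      rw [div_mul_cancel₀]
      unfold RR QQ ee
      norm_num) _ u hu huc hsupp
  have hσ₁l : 11 / 10 ≤ ‖p - x‖ := by
    have := norm_sub_norm_le p x
    linarith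
  have hσ₁u : ‖p - x‖ ≤ 13 / 10 := by
    have := norm_sub_le p x
    linarith
  have hpn : ‖-p‖ = 6 / 5 := by rw [norm_neg, hp]
  have hσ₂l : 11 / 10 ≤ ‖-p - x‖ := by
    have := norm_sub_norm_le (-p) x
    linarith
  have hσ₂u : ‖-p - x‖ ≤ 13 / 10 := by
    have := norm_sub_le (-p) x
    linarith
  have t1 := tangent _ hσ₁l hσ₁u
  have t2 := tangent _ hσ₂l hσ₂u
  have hsum : ‖p - x‖ ^ 2 + ‖-p - x‖ ^ 2 = 2 * (36 / 25) + 2 * ‖x‖ ^ 2 := by
    rw [norm_sub_sq_real, norm_sub_sq_real, inner_neg_left, hpn, hp]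
    ring
  have hx2 : 1 / 400 ≤ ‖x‖ ^ 2 := by nlinarith
  have hS : 1 / 18 + 48 / 100000 ≤ (1 - 1 / ‖p - x‖) ^ 2 + (1 - 1 / ‖-p - x‖) ^ 2 := by
    nlinarith
  set S := (1 - 1 / ‖p - x‖) ^ 2 + (1 - 1 / ‖-p - x‖) ^ 2 with hSdef
  have hkk2 : kk ^ 2 ≤ 1 / 10 ^ 70 := by
    have h : kk ≤ 1 / 10 ^ 35 := by
      unfold kk
      rw [div_le_iff₀ (by unfold RR QQ ee; norm_num)]
      have := Real.pi_le_four
      unfold RR QQ ee
      norm_num
      linarith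
    calc kk ^ 2 ≤ (1 / 10 ^ 35) ^ 2 := pow_le_pow_left₀ kk_pos.le h 2
      _ = 1 / 10 ^ 70 := by norm_num
  have h100 : (1 - 100 * ee) * (1 / 18 + 48 / 100000) ≤ (1 - 100 * ee) * S :=
    mul_le_mul_of_nonneg_left hS (by unfold ee; norm_num)
  have h101 : ee * ((1 - 100 * ee) * (1 / 18 + 48 / 100000)) ≤ ee * ((1 - 100 * ee) * S) :=
    mul_le_mul_of_nonneg_left h100 hee.le
  have e1 : ee * ((1 - 100 * ee) * S) = ee * (1 - 100 * ee) * S := by ring
  rw [e1] at h101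
  have h102 : 44 / 10 ^ 17 + 14 * kk ^ 2 * (10 ^ 17) ^ 3 ≤ 1 / 10 ^ 15 := by
    have : 14 * kk ^ 2 * (10 ^ 17) ^ 3 ≤ 14 * (1 / 10 ^ 70) * (10 ^ 17) ^ 3 := by
      apply mul_le_mul_of_nonneg_right _ (by norm_num)
      linarith
    have h5 : (44:ℝ) / 10 ^ 17 + 14 * (1 / 10 ^ 70) * (10 ^ 17) ^ 3 ≤ 1 / 10 ^ 15 := by norm_num
    linarith
  have h103 : (1 / 10 ^ 15 : ℝ) ≤ 1 + ee * ((1 - 100 * ee) * (1 / 18 + 48 / 100000)) - QQ := by
    unfold QQ ee
    norm_num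
  linarith

end Pool.Agent.Helper533.BallObstacle
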