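import Pool.Agent.Helper533.BallObstacle.Geom
import Pool.Agent.Helper533.BallObstacle.Numeric

open MeasureTheory Metric Set

namespace Pool.Agent.Helper533.BallObstacle

theorem test_mono {N : ℕ} {u : EuclideanSpace ℝ (Fin N) → ℝ} {c : ℝ} (hpos : 0 < ∫ z, (u z) ^ 2)
    (h : c * ∫ z, (u z) ^ 2 ≤ ∫ z, ‖gradient u z‖ ^ 2) : c ≤ rayleigh u := by
  unfold rayleigh
  rw [le_div_iff₀ hpos]
  exact h

theorem lambda1_nonneg {N : ℕ} (U : Set (EuclideanSpace ℝ (Fin N))) : 0 ≤ lambda1 U := by
  apply Real.sInf_nonneg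
  rintro q ⟨u, _, rfl⟩
  exact rayleigh_nonneg u

theorem main_aux : ∃ (R : ℝ) (F : Finset (EuclideanSpace ℝ (Fin 3) × ℝ)), 0 < R ∧ goodFamily R F ∧
    (∃ x, ball x 1 ⊆ holedBall R F ∧
      ∀ y, ball y 1 ⊆ holedBall R F →
        lambda1 (holedBall R F \ closedBall x 1) ≤ lambda1 (holedBall R F \ closedBall y 1)) ∧
    ∀ x, ball x 1 ⊆ holedBall R F →
      (∀ y, ball y 1 ⊆ holedBall R F →
        lambda1 (holedBall R F \ closedBall x 1) ≤ lambda1 (holedBall R F \ closedBall y 1)) →
      1 < infDist x (frontier (holedBall R F)) := by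
  classical
  have hRR : (10:ℝ) ≤ RR := by unfold RR; norm_num
  have hee : 0 < ee := by unfold ee; positivity
  have hee1 : ee < 1 / 100 := by unfold ee; norm_num
  set p : EuclideanSpace ℝ (Fin 3) := EuclideanSpace.single 0 (6 / 5) with hpdef
  have hp : ‖p‖ = 6 / 5 := by
    rw [hpdef, EuclideanSpace.norm_single]
    norm_num
  have hpn : ‖-p‖ = 6 / 5 := by rw [norm_neg, hp]
  set F₀ : Finset (EuclideanSpace ℝ (Fin 3) × ℝ) := {(p, ee), (-p, ee)} with hF₀
  have hcb : ∀ q : EuclideanSpace ℝ (Fin 3), ‖q‖ = 6 / 5 → closedBall q ee ⊆ ball 0 RR := by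
    intro q hq z hz
    rw [mem_closedBall, dist_eq_norm] at hz
    rw [mem_ball_zero_iff]
    have := norm_add_le (z - q) q
    rw [sub_add_cancel] at this
    linarith
  have hdpp : Disjoint (closedBall p ee) (closedBall (-p) ee) := by
    rw [Set.disjoint_left]
    intro z hz hz'
    rw [mem_closedBall, dist_eq_norm] at hz hz'
    have e : (2:ℝ) • p = (z - (-p)) - (z - p) := by rw [two_smul]; abel
    have h1 := norm_sub_le (z - (-p)) (z - p)
    rw [← e, norm_smul, hp, Real.norm_of_nonneg (by norm_num : (0:ℝ) ≤ 2)] at h1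
    linarith
  have hgood₀ : goodFamily RR F₀ := by
    constructor
    · intro b hb
      rw [hF₀, Finset.mem_insert, Finset.mem_singleton] at hb
      rcases hb with rfl | rfl
      · exact ⟨hee, hcb p hp⟩
      · exact ⟨hee, hcb (-p) hpn⟩
    · intro b hb b' hb' hne
      rw [hF₀, Finset.mem_insert, Finset.mem_singleton] at hb hb'
      rcases hb with rfl | rfl
      · rcases hb' with rfl | rfl
        · exact absurd rfl hne
        · exact hdpp
      · rcases hb' with rfl | rfl
        · exact hdpp.symm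
        · exact absurd rfl hne
  obtain ⟨u₀, hu₀, hu₀c, hu₀s, hI, hG⟩ := upper_numeric p hp
  have hu₀sub : tsupport u₀ ⊆ holedBall RR F₀ := by
    intro z hz
    obtain ⟨⟨h1, h2⟩, h3, h4⟩ := hu₀s z hz
    refine ⟨by rw [mem_ball_zero_iff]; exact h2, ?_⟩
    simp only [hF₀, Finset.mem_insert, Finset.mem_singleton, mem_iUnion, exists_prop, not_exists,
      not_and]
    rintro b (rfl | rfl)
    · rw [mem_closedBall, dist_eq_norm]; push Not; exact h3
    · rw [mem_closedBall, dist_eq_norm]; push Not; exact h4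
  obtain ⟨P, hP1, hP2⟩ := exists_centres RR hRR
  set I₀ := ∫ z, u₀ z ^ 2 with hI₀
  set G₀ := ∫ z, ‖gradient u₀ z‖ ^ 2 with hG₀
  have hkk : 0 < kk ^ 2 := by have := kk_pos; positivity
  obtain ⟨e, he, he1, he2⟩ : ∃ e : ℝ, 0 < e ∧ e < I₀ ∧ G₀ + e < kk ^ 2 * (I₀ - e) := by
    refine ⟨min (I₀ / 2) ((kk ^ 2 * I₀ - G₀) / (2 * (1 + kk ^ 2))), ?_, ?_, ?_⟩
    · apply lt_min (by linarith)
      apply div_pos <;> linarith
    · exact lt_of_le_of_lt (min_le_left _ _) (by linarith)
    · have h1 : min (I₀ / 2) ((kk ^ 2 * I₀ - G₀) / (2 * (1 + kk ^ 2))) ≤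
          (kk ^ 2 * I₀ - G₀) / (2 * (1 + kk ^ 2)) := min_le_right _ _
      rw [le_div_iff₀ (by linarith)] at h1
      have h2 : 0 < kk ^ 2 * I₀ - G₀ := by linarith
      nlinarith
  obtain ⟨F, hFF, hgood, hFb, hFP, v, hv, hvc, hvs, hvE, hvI⟩ :=
    add_holes RR (1 / 100) (by norm_num) P F₀ hgood₀ u₀ hu₀ hu₀c hu₀sub e he
  set Ω := holedBall RR F with hΩ
  have hΩo : IsOpen Ω := holedBall_isOpen _ _
  -- the ball of radius 1.07 is inside Ω
  have hin : ball (0 : EuclideanSpace ℝ (Fin 3)) (107 / 100) ⊆ Ω := by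
    intro z hz
    rw [mem_ball_zero_iff] at hz
    refine ⟨by rw [mem_ball_zero_iff]; linarith, ?_⟩
    simp only [mem_iUnion, exists_prop, not_exists, not_and]
    intro b hb hzb
    rw [mem_closedBall, dist_eq_norm] at hzb
    have h1 := norm_sub_norm_le b.1 (b.1 - z)
    rw [show b.1 - (b.1 - z) = z by abel, norm_sub_rev b.1 z] at h1
    rcases hFb b hb with h | ⟨h, h'⟩
    · rw [hF₀, Finset.mem_insert, Finset.mem_singleton] at h
      rcases h with rfl | rfl
      · simp only at hzb h1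
        linarith
      · simp only at hzb h1
        linarith
    · have h2 : 27 / 25 ≤ ‖b.1‖ := by
        rcases hP1 b.1 h with h3 | h3
        · linarith
        · linarith [h3.1]
      linarith
  have hneU : ∀ x : EuclideanSpace ℝ (Fin 3), (Ω \ closedBall x 1).Nonempty := by
    intro x
    by_cases hx : x = 0
    · refine ⟨EuclideanSpace.single 0 (106 / 100), hin ?_, ?_⟩
      · rw [mem_ball_zero_iff, EuclideanSpace.norm_single]; norm_num
      · rw [hx, mem_closedBall, dist_zero_right, EuclideanSpace.norm_single]; norm_num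
    · have hxn : 0 < ‖x‖ := norm_pos_iff.mpr hx
      refine ⟨(-(106 / 100) / ‖x‖) • x, hin ?_, ?_⟩
      · rw [mem_ball_zero_iff, norm_smul, norm_div, Real.norm_of_nonneg hxn.le, div_mul_cancel₀ _ hxn.ne']
        norm_num
      · rw [mem_closedBall, dist_eq_norm]
        have e1 : (-(106 / 100) / ‖x‖) • x - x = (-(106 / 100 + ‖x‖) / ‖x‖) • x := by
          rw [neg_add, add_div, add_smul]
          have : (-‖x‖ / ‖x‖) • x = -x := by
            rw [neg_div, div_self hxn.ne', neg_smul, one_smul]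
          rw [this, sub_eq_add_neg]
        rw [e1, norm_smul, norm_div, Real.norm_of_nonneg hxn.le, div_mul_cancel₀ _ hxn.ne', norm_neg,
          Real.norm_of_nonneg (by linarith)]
        push Not
        linarith
  have hUo : ∀ x : EuclideanSpace ℝ (Fin 3), IsOpen (Ω \ closedBall x 1) := fun x =>
    hΩo.sdiff isClosed_closedBall
  -- value at the centre
  have hvpos : 0 < ∫ z, v z ^ 2 := by linarith
  have hvtest : IsTest (Ω \ closedBall 0 1) v := by
    refine ⟨hv, hvc, ?_, ?_⟩
    · intro z hz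
      obtain ⟨h1, h2⟩ := hvs hz
      refine ⟨h2, ?_⟩
      rw [mem_closedBall_zero_iff]
      push Not
      exact (hu₀s z h1).1.1
    · by_contra hcon
      push Not at hcon
      simp [hcon] at hvpos
  have hf0 : lambda1 (Ω \ closedBall 0 1) < kk ^ 2 := by
    refine lt_of_le_of_lt (lambda1_le hvtest) ?_
    unfold rayleigh
    rw [div_lt_iff₀ hvpos]
    calc ∫ z, ‖gradient v z‖ ^ 2 ≤ G₀ + e := hvE
      _ < kk ^ 2 * (I₀ - e) := he2
      _ ≤ kk ^ 2 * ∫ z, v z ^ 2 := mul_le_mul_of_nonneg_left hvI hkk.le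
  -- values off centre
  have hoff : ∀ x : EuclideanSpace ℝ (Fin 3), 1 / 20 ≤ ‖x‖ → ‖x‖ ≤ 1 / 10 →
      kk ^ 2 ≤ lambda1 (Ω \ closedBall x 1) := by
    intro x hx1 hx2
    apply le_lambda1 (hUo x) (hneU x)
    intro u hu
    apply test_mono (integral_sq_pos hu)
    obtain ⟨h1, h2, h3, h4⟩ := hu
    apply lower_numeric p x hp hx2 hx1 u (h1.of_le (by exact_mod_cast le_top)) h2
    intro z hz
    obtain ⟨⟨h5, h6⟩, h7⟩ := h3 hz
    rw [mem_ball_zero_iff] at h5
    rw [mem_closedBall, dist_eq_norm] at h7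
    push Not at h7
    simp only [mem_iUnion, exists_prop, not_exists, not_and] at h6
    have h8 := h6 (p, ee) (hFF (by simp [hF₀]))
    have h9 := h6 (-p, ee) (hFF (by simp [hF₀]))
    rw [mem_closedBall, dist_eq_norm] at h8 h9
    push Not at h8 h9
    exact ⟨h5, h7, h8, h9⟩
  -- admissible positions
  have hadm : ∀ x : EuclideanSpace ℝ (Fin 3), ball x 1 ⊆ Ω → ‖x‖ < 1 / 10 := by
    intro x hx
    by_contra hcon
    push Not at hcon
    have hx0 : x ∈ Ω := hx (mem_ball_self one_pos)
    have hxR : ‖x‖ < RR := by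
      have := hx0.1
      rwa [mem_ball_zero_iff] at this
    obtain ⟨c, hc, hxc⟩ := hP2 x hcon hxR.le
    apply hFP c hc
    apply hx
    rw [mem_ball, dist_eq_norm, norm_sub_rev]
    exact hxc
  have hadm' : ∀ x : EuclideanSpace ℝ (Fin 3), ‖x‖ ≤ 1 / 20 → ball x (102 / 100) ⊆ Ω := by
    intro x hx
    refine subset_trans ?_ hin
    apply ball_subset_ball'
    rw [dist_zero_right]
    linarith
  have hnontouch : ∀ x : EuclideanSpace ℝ (Fin 3), ‖x‖ ≤ 1 / 20 → 1 < infDist x (frontier Ω) := by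
    intro x hx
    have hfr : (frontier Ω).Nonempty := by
      rw [nonempty_iff_ne_empty]
      intro hemp
      rw [← isClopen_iff_frontier_eq_empty] at hemp
      rcases isClopen_iff.mp hemp with h | h
      · have : (0 : EuclideanSpace ℝ (Fin 3)) ∈ Ω := hin (mem_ball_self (by norm_num))
        rw [h] at this
        exact this
      · have h1 : (EuclideanSpace.single 0 RR : EuclideanSpace ℝ (Fin 3)) ∈ Ω := by rw [h]; trivial
        have h2 := h1.1
        rw [mem_ball_zero_iff, EuclideanSpace.norm_single, Real.norm_of_nonneg (by linarith)] at h2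
        exact lt_irrefl _ h2
    have : (102 / 100 : ℝ) ≤ infDist x (frontier Ω) := by
      rw [le_infDist hfr]
      intro y hy
      by_contra hcon
      push Not at hcon
      have hyΩ : y ∈ Ω := hadm' x hx (by rw [mem_ball, dist_comm]; exact hcon)
      rw [hΩo.frontier_eq] at hy
      exact hy.2 hyΩ
    linarith
  -- existence of a minimiser on the small closed ball
  set f : EuclideanSpace ℝ (Fin 3) → ℝ := fun x => lambda1 (Ω \ closedBall x 1) with hf
  have hf_nonneg : ∀ x, 0 ≤ f x := fun x => lambda1_nonneg _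
  have hcont : ∀ e > 0, ∃ δ > 0, ∀ x ∈ closedBall (0 : EuclideanSpace ℝ (Fin 3)) (1 / 20),
      ∀ y ∈ closedBall (0 : EuclideanSpace ℝ (Fin 3)) (1 / 20), ‖y - x‖ < δ → f x ≤ (1 + e) * f y := by
    intro e he
    obtain ⟨δ, hδ, h⟩ := transport Ω 0 (1 / 20) 1 (1 / 100) (by norm_num) one_pos (by norm_num)
      ((closedBall_subset_ball (by norm_num)).trans hin) e he
    refine ⟨δ, hδ, fun x hx y hy hxy => ?_⟩
    have h1 : f x / (1 + e) ≤ f y := by
      apply le_lambda1 (hUo y) (hneU y)
      intro u hu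
      obtain ⟨v, hv, hvle⟩ := h x hx y hy hxy u hu
      rw [div_le_iff₀ (by linarith)]
      have := lambda1_le hv
      simp only [hf]
      linarith
    rw [div_le_iff₀ (by linarith)] at h1
    linarith
  have hlsc : LowerSemicontinuousOn f (closedBall (0 : EuclideanSpace ℝ (Fin 3)) (1 / 20)) := by
    intro x hx a ha
    rcases lt_or_ge a 0 with h0 | h0
    · exact Filter.Eventually.of_forall fun y => lt_of_lt_of_le h0 (hf_nonneg y)
    · obtain ⟨δ, hδ, h⟩ := hcont ((f x - a) / (2 * (a + 1))) (by apply div_pos <;> linarith)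
      have hnhds : ball x δ ∩ closedBall (0 : EuclideanSpace ℝ (Fin 3)) (1 / 20) ∈
          nhdsWithin x (closedBall (0 : EuclideanSpace ℝ (Fin 3)) (1 / 20)) := by
        rw [inter_comm]
        exact inter_mem_nhdsWithin _ (ball_mem_nhds x hδ)
      filter_upwards [hnhds] with y hy
      by_contra hcon
      push Not at hcon
      have h1 := h x hx y hy.2 (by rw [← dist_eq_norm]; exact hy.1)
      have h2 : (1 + (f x - a) / (2 * (a + 1))) * f y ≤ (1 + (f x - a) / (2 * (a + 1))) * a := by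
        apply mul_le_mul_of_nonneg_left hcon
        have : 0 < (f x - a) / (2 * (a + 1)) := by apply div_pos <;> linarith
        linarith
      have h3 : (f x - a) / (2 * (a + 1)) * a ≤ (f x - a) / 2 := by
        rw [div_mul_eq_mul_div, div_le_div_iff₀ (by linarith) (by norm_num)]
        nlinarith
      linarith
  obtain ⟨x₀, hx₀, hmin⟩ := hlsc.exists_isMinOn ⟨0, mem_closedBall_self (by norm_num)⟩
    (isCompact_closedBall _ _)
  have hx₀n : ‖x₀‖ ≤ 1 / 20 := by rwa [mem_closedBall_zero_iff] at hx₀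
  refine ⟨RR, F, by linarith, hgood, ⟨x₀, ?_, ?_⟩, ?_⟩
  · exact (ball_subset_ball (by norm_num)).trans (hadm' x₀ hx₀n)
  · intro y hy
    have hy1 := hadm y hy
    rcases le_or_gt ‖y‖ (1 / 20) with h | h
    · exact hmin (by rw [mem_closedBall_zero_iff]; exact h)
    · have h1 := hoff y h.le hy1.le
      have h2 : f x₀ ≤ f 0 := hmin (mem_closedBall_self (by norm_num))
      simp only [hf] at h2
      linarith
  · intro x hx hxmin
    have hx1 := hadm x hx
    rcases le_or_gt ‖x‖ (1 / 20) with h | h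
    · exact hnontouch x h
    · have h1 := hoff x h.le hx1.le
      have h2 := hxmin 0 ((ball_subset_ball (by norm_num)).trans (hadm' 0 (by simp)))
      linarith

end Pool.Agent.Helper533.BallObstacle
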