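import Pool.Agent.Helper533.BallObstacle.Holes

open MeasureTheory Metric Set

namespace Pool.Agent.Helper533.BallObstacle

theorem annulus_preconnected (c : EuclideanSpace ℝ (Fin 3)) (r r' : ℝ) (hr : 0 < r) (hrr : r < r') :
    IsPreconnected (ball c r' \ closedBall c r) := by
  have hrank : 1 < Module.rank ℝ (EuclideanSpace ℝ (Fin 3)) := by
    rw [rank_eq_card_basis (EuclideanSpace.basisFun (Fin 3) ℝ).toBasis]
    simp
  have h1 : IsPreconnected (sphere (0 : EuclideanSpace ℝ (Fin 3)) 1) :=
    (isConnected_sphere hrank 0 zero_le_one).isPreconnected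
  have h2 : IsPreconnected (Ioo r r') := isPreconnected_Ioo
  have h3 : IsPreconnected ((fun q : EuclideanSpace ℝ (Fin 3) × ℝ => c + q.2 • q.1) ''
      (sphere (0 : EuclideanSpace ℝ (Fin 3)) 1 ×ˢ Ioo r r')) := by
    apply (h1.prod h2).image
    apply Continuous.continuousOn
    fun_prop
  convert h3 using 1
  ext z
  simp only [mem_diff, mem_ball, mem_closedBall, mem_image, mem_prod, mem_sphere_iff_norm, sub_zero,
    mem_Ioo, Prod.exists]
  constructor
  · rintro ⟨h1, h2⟩
    push Not at h2
    rw [dist_eq_norm] at h1 h2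
    have hp : 0 < ‖z - c‖ := by linarith
    refine ⟨(1 / ‖z - c‖) • (z - c), ‖z - c‖, ⟨?_, h2, h1⟩, ?_⟩
    · rw [norm_smul, Real.norm_of_nonneg (by positivity)]
      field_simp
    · rw [smul_smul]
      have : ‖z - c‖ * (1 / ‖z - c‖) = 1 := by field_simp
      rw [this, one_smul]
      abel
  · rintro ⟨a, b, ⟨h1, h2, h3⟩, rfl⟩
    have e : dist (c + b • a) c = b := by
      rw [dist_eq_norm, add_sub_cancel_left, norm_smul, h1, mul_one,
        Real.norm_of_nonneg (by linarith)]
    rw [e]
    exact ⟨h3, by push Not; exact h2⟩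

/-- Removing a closed ball from a connected open set does not disconnect it. -/
theorem connected_remove (U : Set (EuclideanSpace ℝ (Fin 3))) (hU : IsOpen U)
    (hc : IsConnected U) (c : EuclideanSpace ℝ (Fin 3)) (r r' : ℝ) (hr : 0 < r) (hrr : r < r')
    (hsub : ball c r' ⊆ U) : IsConnected (U \ closedBall c r) := by
  have hUo : IsOpen (U \ closedBall c r) := hU.sdiff isClosed_closedBall
  have hann := annulus_preconnected c r r' hr hrr
  have hannU : ball c r' \ closedBall c r ⊆ U \ closedBall c r := diff_subset_diff_left hsub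
  have hannne : (ball c r' \ closedBall c r).Nonempty := by
    obtain ⟨v, hv⟩ := exists_ne (0 : EuclideanSpace ℝ (Fin 3))
    have hvn : 0 < ‖v‖ := norm_pos_iff.mpr hv
    have hr'0 : 0 < r' := by linarith
    refine ⟨c + ((r + r') / 2 / ‖v‖) • v, ?_, ?_⟩
    · rw [mem_ball, dist_eq_norm, add_sub_cancel_left, norm_smul, Real.norm_of_nonneg (by positivity),
        div_mul_cancel₀ _ hvn.ne']
      linarith
    · rw [mem_closedBall, dist_eq_norm, add_sub_cancel_left, norm_smul,
        Real.norm_of_nonneg (by positivity), div_mul_cancel₀ _ hvn.ne']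
      push Not
      linarith
  refine ⟨hannne.mono hannU, ?_⟩
  have hcU : c ∈ U := hsub (mem_ball_self (by linarith))
  have hccl : c ∈ closedBall c r := mem_closedBall_self hr.le
  -- main separation argument
  have key : ∀ V₁ V₂ : Set (EuclideanSpace ℝ (Fin 3)), IsOpen V₁ → IsOpen V₂ →
      U \ closedBall c r ⊆ V₁ ∪ V₂ → (U \ closedBall c r) ∩ (V₁ ∩ V₂) = ∅ →
      ball c r' \ closedBall c r ⊆ V₁ → U \ closedBall c r ⊆ V₁ := by
    intro V₁ V₂ hV₁ hV₂ hcov hdisj hann1
    set W₁ := (V₁ ∩ (U \ closedBall c r)) ∪ ball c r' with hW₁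
    set W₂ := V₂ ∩ (U \ closedBall c r) with hW₂
    have hW₁o : IsOpen W₁ := (hV₁.inter hUo).union isOpen_ball
    have hW₂o : IsOpen W₂ := hV₂.inter hUo
    have hdisj12 : U ∩ (W₁ ∩ W₂) = ∅ := by
      rw [eq_empty_iff_forall_notMem]
      rintro z ⟨hz, hz1, hz2⟩
      have hz3 : z ∈ (U \ closedBall c r) ∩ (V₁ ∩ V₂) := by
        refine ⟨hz2.2, ?_, hz2.1⟩
        rcases hz1 with h | h
        · exact h.1
        · exact hann1 ⟨h, hz2.2.2⟩
      rw [hdisj] at hz3
      exact hz3
    have hcov12 : U ⊆ W₁ ∪ W₂ := by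
      intro z hz
      by_cases h : z ∈ closedBall c r
      · left; right
        exact closedBall_subset_ball hrr h
      · rcases hcov ⟨hz, h⟩ with h1 | h1
        · left; left; exact ⟨h1, hz, h⟩
        · right; exact ⟨h1, hz, h⟩
    have hpre := isPreconnected_iff_subset_of_disjoint.mp hc.isPreconnected W₁ W₂ hW₁o hW₂o hcov12 hdisj12
    rcases hpre with h | h
    · intro z hz
      rcases h hz.1 with h1 | h1
      · exact h1.1
      · exact hann1 ⟨h1, hz.2⟩
    · exact absurd hccl (h hcU).2.2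
  rw [isPreconnected_iff_subset_of_disjoint]
  intro V₁ V₂ hV₁ hV₂ hcov hdisj
  have hann' := isPreconnected_iff_subset_of_disjoint.mp hann V₁ V₂ hV₁ hV₂
    (hannU.trans hcov) (by
      rw [eq_empty_iff_forall_notMem]
      rintro z ⟨hz, hz'⟩
      have : z ∈ (U \ closedBall c r) ∩ (V₁ ∩ V₂) := ⟨hannU hz, hz'⟩
      rw [hdisj] at this
      exact this)
  rcases hann' with h | h
  · left
    exact key V₁ V₂ hV₁ hV₂ hcov hdisj h
  · right
    exact key V₂ V₁ hV₂ hV₁ (by rw [union_comm]; exact hcov) (by rw [inter_comm V₂ V₁]; exact hdisj) h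

/-- A ball with finitely many closed balls removed. -/
def holedBall (R : ℝ) (F : Finset (EuclideanSpace ℝ (Fin 3) × ℝ)) : Set (EuclideanSpace ℝ (Fin 3)) :=
  ball 0 R \ ⋃ b ∈ F, closedBall b.1 b.2

/-- The removed balls are nondegenerate, pairwise disjoint and inside the big ball. -/
def goodFamily (R : ℝ) (F : Finset (EuclideanSpace ℝ (Fin 3) × ℝ)) : Prop :=
  (∀ b ∈ F, 0 < b.2 ∧ closedBall b.1 b.2 ⊆ ball 0 R) ∧
    ∀ b ∈ F, ∀ b' ∈ F, b ≠ b' → Disjoint (closedBall b.1 b.2) (closedBall b'.1 b'.2)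

theorem holedBall_isOpen (R : ℝ) (F : Finset (EuclideanSpace ℝ (Fin 3) × ℝ)) :
    IsOpen (holedBall R F) := by
  unfold holedBall
  apply isOpen_ball.sdiff
  exact F.finite_toSet.isClosed_biUnion (fun b _ => isClosed_closedBall)

theorem holedBall_bounded (R : ℝ) (F : Finset (EuclideanSpace ℝ (Fin 3) × ℝ)) :
    Bornology.IsBounded (holedBall R F) :=
  isBounded_ball.subset diff_subset

theorem holedBall_insert (R : ℝ) (F : Finset (EuclideanSpace ℝ (Fin 3) × ℝ))
    (b : EuclideanSpace ℝ (Fin 3) × ℝ) [DecidableEq (EuclideanSpace ℝ (Fin 3) × ℝ)] :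
    holedBall R (insert b F) = holedBall R F \ closedBall b.1 b.2 := by
  unfold holedBall
  ext z
  simp only [mem_diff, Finset.mem_insert, iUnion_iUnion_eq_or_left, mem_union, mem_iUnion, not_or]
  tauto

theorem exists_bigger_ball (U : Set (EuclideanSpace ℝ (Fin 3))) (hU : IsOpen U)
    (c : EuclideanSpace ℝ (Fin 3)) (r : ℝ) (hr : 0 < r) (h : closedBall c r ⊆ U) :
    ∃ r' > r, ball c r' ⊆ U := by
  obtain ⟨δ, hδ, h1⟩ := (isCompact_closedBall c r).exists_thickening_subset_open hU h
  refine ⟨r + δ, by linarith, ?_⟩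
  rw [thickening_closedBall hδ hr.le] at h1
  rw [add_comm]
  exact h1

theorem holedBall_connected (R : ℝ) (hR : 0 < R) (F : Finset (EuclideanSpace ℝ (Fin 3) × ℝ))
    (hF : goodFamily R F) : IsConnected (holedBall R F) := by
  classical
  induction F using Finset.induction_on with
  | empty =>
    have : holedBall R ∅ = ball 0 R := by simp [holedBall]
    rw [this]
    exact (convex_ball _ _).isConnected ⟨0, mem_ball_self hR⟩
  | insert b F hb ih =>
    have hF' : goodFamily R F := by
      refine ⟨fun b' hb' => hF.1 b' (Finset.mem_insert_of_mem hb'), ?_⟩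
      intro b₁ h₁ b₂ h₂
      exact hF.2 b₁ (Finset.mem_insert_of_mem h₁) b₂ (Finset.mem_insert_of_mem h₂)
    have hc := ih hF'
    rw [holedBall_insert]
    have hbg := hF.1 b (Finset.mem_insert_self _ _)
    have hsub : closedBall b.1 b.2 ⊆ holedBall R F := by
      intro z hz
      refine ⟨hbg.2 hz, ?_⟩
      simp only [mem_iUnion, not_exists]
      intro b' hb' hz'
      have hne : b ≠ b' := by
        rintro rfl
        exact hb hb'
      have := hF.2 b (Finset.mem_insert_self _ _) b' (Finset.mem_insert_of_mem hb') hne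
      exact this.le_bot ⟨hz, hz'⟩
    obtain ⟨r', hr', hball⟩ := exists_bigger_ball _ (holedBall_isOpen R F) b.1 b.2 hbg.1 hsub
    exact connected_remove _ (holedBall_isOpen R F) hc b.1 b.2 r' hbg.1 hr' hball

/-- Adding small holes at finitely many prescribed centres. -/
theorem add_holes (R rmax : ℝ) (hr : 0 < rmax) (P : Finset (EuclideanSpace ℝ (Fin 3))) :
    ∀ (F : Finset (EuclideanSpace ℝ (Fin 3) × ℝ)), goodFamily R F →
    ∀ (u : EuclideanSpace ℝ (Fin 3) → ℝ), ContDiff ℝ (⊤ : ℕ∞) u → HasCompactSupport u →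
      tsupport u ⊆ holedBall R F → ∀ e > 0,
    ∃ F' : Finset (EuclideanSpace ℝ (Fin 3) × ℝ), F ⊆ F' ∧ goodFamily R F' ∧
      (∀ b ∈ F', b ∈ F ∨ (b.1 ∈ P ∧ b.2 ≤ rmax)) ∧ (∀ c ∈ P, c ∉ holedBall R F') ∧
      ∃ v : EuclideanSpace ℝ (Fin 3) → ℝ, ContDiff ℝ (⊤ : ℕ∞) v ∧ HasCompactSupport v ∧
        tsupport v ⊆ tsupport u ∩ holedBall R F' ∧
        ∫ z, ‖gradient v z‖ ^ 2 ≤ (∫ z, ‖gradient u z‖ ^ 2) + e ∧
        (∫ z, u z ^ 2) - e ≤ ∫ z, v z ^ 2 := by
  classical
  induction P using Finset.induction_on with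
  | empty =>
    intro F hF u hu huc hus e he
    refine ⟨F, Finset.Subset.refl _, hF, fun b hb => Or.inl hb, by simp, u, hu, huc, ?_, by linarith, by linarith⟩
    exact subset_inter le_rfl hus
  | insert c P hc ih =>
    intro F hF u hu huc hus e he
    obtain ⟨F₁, hFF₁, hF₁, hb₁, hP₁, u₁, hu₁, huc₁, hus₁, he₁, hm₁⟩ := ih F hF u hu huc hus (e / 2) (by linarith)
    by_cases hcin : c ∈ holedBall R F₁
    · obtain ⟨r₀, hr₀, hball₀⟩ := Metric.isOpen_iff.mp (holedBall_isOpen R F₁) c hcin
      obtain ⟨r, hr0, hrle, u₂, hu₂, huc₂, hus₂, he₂, hm₂⟩ :=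
        add_hole u₁ hu₁ huc₁ c (min rmax (r₀ / 2)) (e / 2) (by positivity) (by linarith)
      have hcl : closedBall c r ⊆ holedBall R F₁ := by
        apply (closedBall_subset_ball _).trans hball₀
        have := hrle.trans (min_le_right _ _)
        linarith
      refine ⟨insert (c, r) F₁, hFF₁.trans (Finset.subset_insert _ _), ?_, ?_, ?_, u₂, hu₂, huc₂, ?_, by linarith, by linarith⟩
      · have hdis : ∀ b ∈ F₁, Disjoint (closedBall c r) (closedBall b.1 b.2) := by
          intro b hb
          rw [Set.disjoint_left]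
          intro z hz hz'
          have := (hcl hz).2
          simp only [mem_iUnion, not_exists] at this
          exact this b hb hz'
        constructor
        · intro b hb
          rw [Finset.mem_insert] at hb
          rcases hb with rfl | hb
          · exact ⟨hr0, fun z hz => (hcl hz).1⟩
          · exact hF₁.1 b hb
        · intro b hb b' hb' hne
          rw [Finset.mem_insert] at hb hb'
          rcases hb with rfl | hb
          · rcases hb' with rfl | hb'
            · exact absurd rfl hne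
            · exact hdis b' hb'
          · rcases hb' with rfl | hb'
            · exact (hdis b hb).symm
            · exact hF₁.2 b hb b' hb' hne
      · intro b hb
        rw [Finset.mem_insert] at hb
        rcases hb with rfl | hb
        · right
          exact ⟨Finset.mem_insert_self _ _, hrle.trans (min_le_left _ _)⟩
        · rcases hb₁ b hb with h | h
          · exact Or.inl h
          · exact Or.inr ⟨Finset.mem_insert_of_mem h.1, h.2⟩
      · intro c' hc' hcon
        rw [holedBall_insert] at hcon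
        rw [Finset.mem_insert] at hc'
        rcases hc' with rfl | hc'
        · exact hcon.2 (mem_closedBall_self hr0.le)
        · exact hP₁ c' hc' hcon.1
      · rw [holedBall_insert]
        intro z hz
        have h1 := hus₂ hz
        have h2 := hus₁ h1.1
        exact ⟨h2.1, h2.2, h1.2⟩
    · refine ⟨F₁, hFF₁, hF₁, ?_, ?_, u₁, hu₁, huc₁, hus₁, by linarith, by linarith⟩
      · intro b hb
        rcases hb₁ b hb with h | h
        · exact Or.inl h
        · exact Or.inr ⟨Finset.mem_insert_of_mem h.1, h.2⟩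
      · intro c' hc'
        rw [Finset.mem_insert] at hc'
        rcases hc' with rfl | hc'
        · exact hcin
        · exact hP₁ c' hc'

/-- Centres of the small confining holes. -/
theorem exists_centres (R : ℝ) (hR : 10 ≤ R) :
    ∃ P : Finset (EuclideanSpace ℝ (Fin 3)),
      (∀ c ∈ P, ‖c‖ = 27 / 25 ∨ (3 / 2 ≤ ‖c‖ ∧ ‖c‖ ≤ R - 1 / 2)) ∧
      ∀ x : EuclideanSpace ℝ (Fin 3), 1 / 10 ≤ ‖x‖ → ‖x‖ ≤ R → ∃ c ∈ P, ‖x - c‖ < 1 := by
  classical
  set C : Set (EuclideanSpace ℝ (Fin 3)) := {x | 1 / 10 ≤ ‖x‖ ∧ ‖x‖ ≤ R} with hC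
  have hCc : IsCompact C := by
    have hcl : IsClosed C :=
      (isClosed_le continuous_const continuous_norm).inter (isClosed_le continuous_norm continuous_const)
    apply (isCompact_closedBall (0 : EuclideanSpace ℝ (Fin 3)) R).of_isClosed_subset hcl
    intro z hz
    rw [mem_closedBall_zero_iff]
    exact hz.2
  set g : EuclideanSpace ℝ (Fin 3) → EuclideanSpace ℝ (Fin 3) := fun x =>
    if ‖x‖ ≤ 2 then (27 / 25 / ‖x‖) • x else ((‖x‖ - 1 / 2) / ‖x‖) • x with hg
  have hgn : ∀ x ∈ C, (‖g x‖ = 27 / 25 ∨ (3 / 2 ≤ ‖g x‖ ∧ ‖g x‖ ≤ R - 1 / 2)) ∧ ‖x - g x‖ < 1 := by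
    rintro x ⟨h1, h2⟩
    have hx : 0 < ‖x‖ := by linarith
    by_cases h : ‖x‖ ≤ 2
    · have e : g x = (27 / 25 / ‖x‖) • x := by simp only [hg, h, if_true]
      constructor
      · left
        rw [e, norm_smul, Real.norm_of_nonneg (by positivity), div_mul_cancel₀ _ hx.ne']
      · have e2 : x - g x = ((‖x‖ - 27 / 25) / ‖x‖) • x := by
          rw [e, sub_div, sub_smul, div_self hx.ne', one_smul]
        rw [e2, norm_smul, Real.norm_eq_abs, abs_div, abs_of_pos hx, div_mul_cancel₀ _ hx.ne', abs_lt]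
        constructor <;> linarith
    · have e : g x = ((‖x‖ - 1 / 2) / ‖x‖) • x := by simp only [hg, h, if_false]
      push Not at h
      constructor
      · right
        have e3 : ‖g x‖ = ‖x‖ - 1 / 2 := by
          rw [e, norm_smul, Real.norm_of_nonneg (by apply div_nonneg <;> linarith),
            div_mul_cancel₀ _ hx.ne']
        rw [e3]
        constructor <;> linarith
      · have e2 : x - g x = ((1 / 2) / ‖x‖) • x := by
          rw [e, sub_div, sub_smul, div_self hx.ne', one_smul]
          abel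
        rw [e2, norm_smul, Real.norm_of_nonneg (by positivity), div_mul_cancel₀ _ hx.ne']
        norm_num
  obtain ⟨t, ht, hcov⟩ := hCc.elim_nhds_subcover (fun x => ball (g x) 1) (by
    intro x hx
    apply isOpen_ball.mem_nhds
    rw [mem_ball, dist_eq_norm]
    exact (hgn x hx).2)
  refine ⟨t.image g, ?_, ?_⟩
  · intro c hc
    rw [Finset.mem_image] at hc
    obtain ⟨x, hx, rfl⟩ := hc
    exact (hgn x (ht x hx)).1
  · intro x h1 h2
    have := hcov (show x ∈ C from ⟨h1, h2⟩)
    simp only [mem_iUnion] at this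
    obtain ⟨y, hy, hxy⟩ := this
    refine ⟨g y, Finset.mem_image_of_mem _ hy, ?_⟩
    rw [← dist_eq_norm]
    exact hxy

end Pool.Agent.Helper533.BallObstacle
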