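import Pool.Agent.Helper533.BallObstacle.Fields

open MeasureTheory Metric Set

namespace Pool.Agent.Helper533.BallObstacle

/-- Radial cut-off, `1` on `|z| ≤ s` and `0` on `|z| ≥ 2s`. -/
noncomputable def cutoff (s : ℝ) (z : EuclideanSpace ℝ (Fin 3)) : ℝ :=
  Real.smoothTransition ((4 * s ^ 2 - ‖z‖ ^ 2) / (3 * s ^ 2))

theorem cutoff_contDiff (s : ℝ) {n : ℕ∞} : ContDiff ℝ n (cutoff s) := by
  unfold cutoff
  exact Real.smoothTransition.contDiff.comp ((contDiff_const.sub (contDiff_norm_sq ℝ)).div_const _)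

theorem cutoff_one {s : ℝ} (hs : 0 < s) {z : EuclideanSpace ℝ (Fin 3)} (hz : ‖z‖ ≤ s) :
    cutoff s z = 1 := by
  unfold cutoff
  apply Real.smoothTransition.one_of_one_le
  rw [one_le_div (by positivity)]
  nlinarith [norm_nonneg z]

theorem cutoff_zero {s : ℝ} (hs : 0 < s) {z : EuclideanSpace ℝ (Fin 3)} (hz : 2 * s ≤ ‖z‖) :
    cutoff s z = 0 := by
  unfold cutoff
  apply Real.smoothTransition.zero_of_nonpos
  apply div_nonpos_of_nonpos_of_nonneg _ (by positivity)
  nlinarith [norm_nonneg z]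

theorem cutoff_tsupport {s : ℝ} (hs : 0 < s) {z : EuclideanSpace ℝ (Fin 3)}
    (hz : z ∈ tsupport (cutoff s)) : ‖z‖ ≤ 2 * s := by
  have h1 : tsupport (cutoff s) ⊆ closedBall 0 (2 * s) := by
    apply closure_minimal _ isClosed_closedBall
    intro y hy
    rw [mem_closedBall_zero_iff]
    by_contra hcon
    push Not at hcon
    exact hy (cutoff_zero hs hcon.le)
  simpa using h1 hz

theorem cutoff_tsupport' {s : ℝ} (hs : 0 < s) {z : EuclideanSpace ℝ (Fin 3)}
    (hz : z ∈ tsupport (fun z => 1 - cutoff s z)) : s ≤ ‖z‖ := by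
  have h1 : tsupport (fun z => 1 - cutoff s z) ⊆ {z | s ≤ ‖z‖} := by
    apply closure_minimal _ (isClosed_le continuous_const continuous_norm)
    intro y hy
    rw [mem_setOf_eq]
    by_contra hcon
    push Not at hcon
    apply hy
    simp [cutoff_one hs hcon.le]
  exact h1 hz

theorem cutoff_fderiv {s : ℝ} (hs : 0 < s) (z : EuclideanSpace ℝ (Fin 3)) :
    ∃ a : ℝ, 0 ≤ a ∧ (∀ X, fderiv ℝ (cutoff s) z X = - a * inner ℝ z X) ∧
      (‖z‖ < s → a = 0) ∧ (2 * s < ‖z‖ → a = 0) := by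
  have h1 : HasFDerivAt (fun y : EuclideanSpace ℝ (Fin 3) => ‖y‖ ^ 2)
      (innerSL ℝ ((2:ℝ) • z)) z := by
    have := (hasFDerivAt_id z).norm_sq
    refine this.congr_fderiv ?_
    ext y
    simp [two_mul]
  have h2 : HasDerivAt (fun t : ℝ => Real.smoothTransition ((4 * s ^ 2 - t) / (3 * s ^ 2)))
      (deriv Real.smoothTransition ((4 * s ^ 2 - ‖z‖ ^ 2) / (3 * s ^ 2)) * (-1 / (3 * s ^ 2))) (‖z‖ ^ 2) := by
    have hd : HasDerivAt (fun t : ℝ => (4 * s ^ 2 - t) / (3 * s ^ 2)) (-1 / (3 * s ^ 2)) (‖z‖ ^ 2) := by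
      simpa using ((hasDerivAt_id (‖z‖ ^ 2)).const_sub (4 * s ^ 2)).div_const (3 * s ^ 2)
    have hb : HasDerivAt Real.smoothTransition
        (deriv Real.smoothTransition ((4 * s ^ 2 - ‖z‖ ^ 2) / (3 * s ^ 2)))
        ((4 * s ^ 2 - ‖z‖ ^ 2) / (3 * s ^ 2)) :=
      ((Real.smoothTransition.contDiff (n := 1)).differentiable (by norm_num) _).hasDerivAt
    exact HasDerivAt.comp (h₂ := Real.smoothTransition)
      (h := fun t : ℝ => (4 * s ^ 2 - t) / (3 * s ^ 2)) (‖z‖ ^ 2) hb hd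
  have h3 := h2.comp_hasFDerivAt z h1
  have h4 : (fun t : ℝ => Real.smoothTransition ((4 * s ^ 2 - t) / (3 * s ^ 2))) ∘
      (fun y : EuclideanSpace ℝ (Fin 3) => ‖y‖ ^ 2) = cutoff s := by
    funext y
    rfl
  rw [h4] at h3
  have hnn : 0 ≤ deriv Real.smoothTransition ((4 * s ^ 2 - ‖z‖ ^ 2) / (3 * s ^ 2)) :=
    Real.smoothTransition.monotone.deriv_nonneg
  refine ⟨2 * deriv Real.smoothTransition ((4 * s ^ 2 - ‖z‖ ^ 2) / (3 * s ^ 2)) * (1 / (3 * s ^ 2)),
    by positivity, ?_, ?_, ?_⟩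
  · intro X
    rw [h3.fderiv]
    simp only [map_smul, FunLike.coe_smul, Pi.smul_apply, innerSL_apply_apply, smul_eq_mul]
    ring
  · intro hz
    have : Real.smoothTransition =ᶠ[nhds ((4 * s ^ 2 - ‖z‖ ^ 2) / (3 * s ^ 2))] fun _ => 1 := by
      have : (1:ℝ) < (4 * s ^ 2 - ‖z‖ ^ 2) / (3 * s ^ 2) := by
        rw [one_lt_div (by positivity)]
        nlinarith [norm_nonneg z]
      filter_upwards [lt_mem_nhds this] with y hy
      exact Real.smoothTransition.one_of_one_le hy.le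
    rw [this.deriv_eq]
    simp
  · intro hz
    have : Real.smoothTransition =ᶠ[nhds ((4 * s ^ 2 - ‖z‖ ^ 2) / (3 * s ^ 2))] fun _ => 0 := by
      have : (4 * s ^ 2 - ‖z‖ ^ 2) / (3 * s ^ 2) < 0 := by
        apply div_neg_of_neg_of_pos _ (by positivity)
        nlinarith [norm_nonneg z]
      filter_upwards [gt_mem_nhds this] with y hy
      exact Real.smoothTransition.zero_of_nonpos hy.le
    rw [this.deriv_eq]
    simp

/-- Lower bound for Rayleigh quotients from a positive near field glued to a radial far field. -/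
theorem lower_glue {m : ℕ} (u : EuclideanSpace ℝ (Fin 3) → ℝ) (hu : ContDiff ℝ 1 u)
    (huc : HasCompactSupport u) (c0 τ k Q R s : ℝ) (c : Fin m → ℝ)
    (q : Fin m → EuclideanSpace ℝ (Fin 3))
    (hs : 0 < s) (hQs : Q < s) (hk : 0 < k) (hkR : k * (R - Q) ≤ Real.pi)
    (hR : ∀ z ∈ tsupport u, ‖z‖ < R)
    (hne : ∀ z ∈ tsupport u, ∀ i, z ≠ q i)
    (hpos : ∀ z ∈ tsupport u, ‖z‖ ≤ 2 * s → 0 < nearV c0 τ c q z ∧ k ^ 2 * nearV c0 τ c q z ≤ τ)
    (hcr : ∀ z ∈ tsupport u, s ≤ ‖z‖ → ‖z‖ ≤ 2 * s →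
      inner ℝ z (farX k Q z) / farg k Q ‖z‖ ≤ inner ℝ z (nearX τ c q z) / nearV c0 τ c q z) :
    k ^ 2 * ∫ z, u z ^ 2 ≤ ∫ z, ‖gradient u z‖ ^ 2 := by
  have hfar : ∀ z ∈ tsupport u, s ≤ ‖z‖ → 0 < farg k Q ‖z‖ := by
    intro z hz hsz
    unfold farg
    apply div_pos _ (by linarith)
    apply Real.sin_pos_of_pos_of_lt_pi
    · apply mul_pos hk; linarith
    · calc k * (‖z‖ - Q) < k * (R - Q) := by
            apply mul_lt_mul_of_pos_left _ hk
            linarith [hR z hz]
        _ ≤ Real.pi := hkR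
  have hz0 : ∀ z : EuclideanSpace ℝ (Fin 3), s ≤ ‖z‖ → z ≠ 0 := by
    rintro z hz rfl
    simp at hz
    linarith
  have hq1 := quot_contDiff (u := u) (χ := cutoff s) (v := nearV c0 τ c q) hu (cutoff_contDiff s)
    (fun z hz hz' => ⟨nearV_contDiffAt _ _ _ _ _ (hne z hz), (hpos z hz (cutoff_tsupport hs hz')).1.ne'⟩)
  have hq2 := quot_contDiff (u := u) (χ := fun z => 1 - cutoff s z)
    (v := fun z => farg k Q ‖z‖) hu (contDiff_const.sub (cutoff_contDiff s))
    (fun z hz hz' => ⟨farV_contDiffAt _ _ _ (hz0 z (cutoff_tsupport' hs hz')),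
      (hfar z hz (cutoff_tsupport' hs hz')).ne'⟩)
  have hwc1 : HasCompactSupport (fun y => cutoff s y * u y ^ 2 / nearV c0 τ c q y) :=
    IsCompact.of_isClosed_subset huc (isClosed_tsupport _) (fun z hz => (hq1.2 hz).1)
  have hwc2 : HasCompactSupport (fun y => (1 - cutoff s y) * u y ^ 2 / farg k Q ‖y‖) :=
    IsCompact.of_isClosed_subset huc (isClosed_tsupport _) (fun z hz => (hq2.2 hz).1)
  apply two_patch u (cutoff s) (nearV c0 τ c q) (fun z => farg k Q ‖z‖) (nearX τ c q) (farX k Q)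
    (k ^ 2) hu huc (cutoff_contDiff s)
  · intro z; exact Real.smoothTransition.nonneg _
  · intro z; exact Real.smoothTransition.le_one _
  · intro z hz hz'
    exact ⟨(hpos z hz (cutoff_tsupport hs hz')).1, nearV_contDiffAt _ _ _ _ _ (hne z hz),
      nearV_hasFDerivAt _ _ _ _ _ (hne z hz), nearX_continuousAt _ _ _ _ (hne z hz)⟩
  · intro z hz hz'
    have h0 := hz0 z (cutoff_tsupport' hs hz')
    exact ⟨hfar z hz (cutoff_tsupport' hs hz'), farV_contDiffAt _ _ _ h0,
      farV_hasFDerivAt _ _ _ h0, farX_continuousAt _ _ _ h0⟩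
  · intro z hz
    obtain ⟨a, ha0, ha, ha1, ha2⟩ := cutoff_fderiv hs z
    rw [ha, ha]
    by_cases h1 : ‖z‖ < s
    · simp [ha1 h1]
    · by_cases h2 : 2 * s < ‖z‖
      · simp [ha2 h2]
      · push Not at h1 h2
        have := hcr z hz h1 h2
        rw [mul_div_assoc, mul_div_assoc]
        nlinarith
  · rw [nearX_identity τ c q _ hq1.1 hwc1 (fun i hi => hne _ (hq1.2 hi).1 i rfl),
      ← integral_const_mul, ← integral_const_mul]
    apply integral_mono_of_nonneg
    · refine Filter.Eventually.of_forall fun z => ?_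
      have : 0 ≤ cutoff s z := Real.smoothTransition.nonneg _
      simp only [Pi.zero_apply]
      positivity
    · exact (Continuous.integrable_of_hasCompactSupport hq1.1.continuous hwc1).const_mul _
    · refine Filter.Eventually.of_forall fun z => ?_
      simp only
      by_cases hz : z ∈ tsupport u ∧ z ∈ tsupport (cutoff s)
      · obtain ⟨h1, h2⟩ := hpos z hz.1 (cutoff_tsupport hs hz.2)
        have h3 : 0 ≤ cutoff s z * u z ^ 2 := by
          have : 0 ≤ cutoff s z := Real.smoothTransition.nonneg _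
          positivity
        rw [← mul_div_assoc, le_div_iff₀ h1]
        nlinarith
      · have h0 : cutoff s z * u z ^ 2 = 0 := by
          rw [not_and_or] at hz
          rcases hz with hz | hz
          · simp [image_eq_zero_of_notMem_tsupport hz]
          · simp [image_eq_zero_of_notMem_tsupport hz]
        simp [h0]
  · rw [farX_identity k Q _ hq2.1 hwc2 (fun h0 => hz0 0 (cutoff_tsupport' hs (hq2.2 h0).2) rfl)]
    apply le_of_eq
    congr 1
    apply integral_congr_ae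
    refine Filter.Eventually.of_forall fun z => ?_
    simp only
    by_cases hz : z ∈ tsupport u ∧ z ∈ tsupport (fun z => 1 - cutoff s z)
    · have := (hfar z hz.1 (cutoff_tsupport' hs hz.2)).ne'
      field_simp
    · have h0 : (1 - cutoff s z) * u z ^ 2 = 0 := by
        rw [not_and_or] at hz
        rcases hz with hz | hz
        · simp [image_eq_zero_of_notMem_tsupport hz]
        · have h5 : 1 - cutoff s z = 0 :=
            image_eq_zero_of_notMem_tsupport (f := fun z => 1 - cutoff s z) hz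
          rw [h5, zero_mul]
      simp [h0]

end Pool.Agent.Helper533.BallObstacle
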