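import Pool.Agent.Helper533.BallObstacle.Upper
import Pool.Agent.Helper533.BallObstacle.Cont

open MeasureTheory Metric Set

namespace Pool.Agent.Helper533.BallObstacle

/-- Cutting a very small hole changes the energy very little. -/
theorem add_hole (u : EuclideanSpace ℝ (Fin 3) → ℝ) (hu : ContDiff ℝ (⊤ : ℕ∞) u)
    (huc : HasCompactSupport u) (c : EuclideanSpace ℝ (Fin 3)) (rmax e : ℝ) (hr : 0 < rmax)
    (he : 0 < e) :
    ∃ r, 0 < r ∧ r ≤ rmax ∧ ∃ v : EuclideanSpace ℝ (Fin 3) → ℝ, ContDiff ℝ (⊤ : ℕ∞) v ∧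
      HasCompactSupport v ∧ tsupport v ⊆ tsupport u \ closedBall c r ∧
      ∫ z, ‖gradient v z‖ ^ 2 ≤ (∫ z, ‖gradient u z‖ ^ 2) + e ∧
      (∫ z, u z ^ 2) - e ≤ ∫ z, v z ^ 2 := by
  obtain ⟨M₀, hM₀⟩ := hu.continuous.bounded_above_of_compact_support huc
  obtain ⟨D₀, hD₀⟩ := (hu.continuous_fderiv (by simp)).bounded_above_of_compact_support
    (huc.fderiv ℝ)
  set M := max M₀ 0 with hM
  set D := max D₀ 0 with hD
  have hM0 : 0 ≤ M := le_max_right _ _
  have hD0 : 0 ≤ D := le_max_right _ _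
  have hMb : ∀ z, |u z| ≤ M := fun z => (hM₀ z).trans (le_max_left _ _)
  have hDb : ∀ z, ‖gradient u z‖ ≤ D := fun z => by
    rw [norm_gradient]; exact (hD₀ z).trans (le_max_left _ _)
  have hom := om_pos
  set B : ℝ := 2 * D ^ 2 * (om / 3 * 32 ^ 3) + 4 * M ^ 2 * om + M ^ 2 * (om / 3 * 32 ^ 3) with hB
  have hB0 : 0 ≤ B := by positivity
  set r := min (min rmax 1) (e / (B + 1)) with hrdef
  have hr0 : 0 < r := by
    rw [hrdef]; positivity
  have hr1 : r ≤ 1 := (min_le_left _ _).trans (min_le_right _ _)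
  have hrm : r ≤ rmax := (min_le_left _ _).trans (min_le_left _ _)
  have hre : B * r ≤ e := by
    have : r ≤ e / (B + 1) := min_le_right _ _
    rw [le_div_iff₀ (by linarith)] at this
    nlinarith
  obtain ⟨η, hη, hηb, hη0, hη1, hηg⟩ := exists_hole (1 / 16) (by norm_num) (by norm_num) c r hr0
  set W : Set (EuclideanSpace ℝ (Fin 3)) := ball c (32 * r) with hW
  have hWm : MeasurableSet W := measurableSet_ball
  have hWvol : (volume : Measure (EuclideanSpace ℝ (Fin 3))).real W = om / 3 * (32 * r) ^ 3 :=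
    ball_vol _ _ (by positivity)
  have hWint : Integrable (W.indicator (fun _ : EuclideanSpace ℝ (Fin 3) => (1:ℝ))) := by
    rw [integrable_indicator_iff hWm]
    exact integrableOn_const measure_ball_lt_top.ne
  have hWintegral : ∫ z, W.indicator (fun _ : EuclideanSpace ℝ (Fin 3) => (1:ℝ)) z = om / 3 * (32 * r) ^ 3 := by
    rw [integral_indicator hWm]
    simpa using hWvol
  have hr3 : r ^ 3 ≤ r := by
    have : r ^ 3 = r * (r * r) := by ring
    rw [this]
    have : r * r ≤ 1 := by nlinarith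
    nlinarith
  set v : EuclideanSpace ℝ (Fin 3) → ℝ := fun z => u z * η z with hv
  have hvs : ContDiff ℝ (⊤ : ℕ∞) v := hu.mul hη
  have hvsub : tsupport v ⊆ tsupport u := tsupport_mul_subset_left
  have hvc : HasCompactSupport v := huc.of_isClosed_subset (isClosed_tsupport _) hvsub
  set J : ℝ → ℝ := (Ioo r (32 * r)).indicator (fun ρ => 1 / ρ ^ 4) with hJ
  have hJ0 : ∀ ρ, 0 ≤ J ρ := by
    intro ρ
    apply indicator_nonneg
    intro x _
    positivity
  have e32 : 2 * r / (1 / 16) = 32 * r := by ring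
  have eA : 1 / (1 - 4 * (1 / 16)) = (4 / 3 : ℝ) := by norm_num
  simp only [e32, eA] at hηg
  have hgη : ∀ z, ‖gradient η z‖ ^ 2 ≤ (16 / 9) * r ^ 2 * J ‖z - c‖ ∧
      (32 * r ≤ ‖z - c‖ → ‖gradient η z‖ = 0) := by
    intro z
    have h := hηg z
    constructor
    · by_cases hm : ‖z - c‖ ∈ Ioo r (32 * r)
      · rw [indicator_of_mem hm] at h
        rw [hJ, indicator_of_mem hm]
        have hp : 0 < ‖z - c‖ := lt_trans hr0 hm.1
        have : 16 / 9 * r ^ 2 * (1 / ‖z - c‖ ^ 4) = (4 / 3 * r / ‖z - c‖ ^ 2) ^ 2 := by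
          field_simp
          norm_num
        rw [this]
        exact pow_le_pow_left₀ (norm_nonneg _) h 2
      · rw [indicator_of_notMem hm] at h
        rw [hJ, indicator_of_notMem hm]
        have : ‖gradient η z‖ = 0 := le_antisymm h (norm_nonneg _)
        rw [this]
        simp
    · intro hL'
      have hm : ‖z - c‖ ∉ Ioo r (32 * r) := fun hm => by linarith [hm.2]
      rw [indicator_of_notMem hm] at h
      exact le_antisymm h (norm_nonneg _)
  have hvd : ∀ z, ‖gradient v z‖ ≤ ‖gradient u z‖ + |u z| * ‖gradient η z‖ := by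
    intro z
    rw [norm_gradient, norm_gradient, norm_gradient]
    have d1 : DifferentiableAt ℝ u z := hu.differentiable (by simp) z
    have d2 : DifferentiableAt ℝ η z := hη.differentiable (by simp) z
    have e : fderiv ℝ v z = u z • fderiv ℝ η z + η z • fderiv ℝ u z :=
      (d1.hasFDerivAt.mul d2.hasFDerivAt).fderiv
    rw [e]
    have n1 : ‖u z • fderiv ℝ η z‖ = |u z| * ‖fderiv ℝ η z‖ := by rw [norm_smul, Real.norm_eq_abs]
    have n2 : ‖η z • fderiv ℝ u z‖ ≤ ‖fderiv ℝ u z‖ := by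
      rw [norm_smul, Real.norm_of_nonneg (hηb z).1]
      exact mul_le_of_le_one_left (norm_nonneg _) (hηb z).2
    have := norm_add_le (u z • fderiv ℝ η z) (η z • fderiv ℝ u z)
    linarith
  have hpt : ∀ z, ‖gradient v z‖ ^ 2 ≤ ‖gradient u z‖ ^ 2 +
      (2 * D ^ 2 * W.indicator (fun _ => (1:ℝ)) z + 4 * M ^ 2 * r ^ 2 * J ‖z - c‖) := by
    intro z
    have hz := hvd z
    have hKJ : 0 ≤ 4 * M ^ 2 * r ^ 2 * J ‖z - c‖ := by
      have := hJ0 ‖z - c‖
      positivity
    by_cases hzW : z ∈ W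
    · rw [indicator_of_mem hzW]
      have h1 : ‖gradient v z‖ ≤ D + M * ‖gradient η z‖ := by
        have := mul_le_mul_of_nonneg_right (hMb z) (norm_nonneg (gradient η z))
        have := hDb z
        linarith
      have h2 : ‖gradient v z‖ ^ 2 ≤ (D + M * ‖gradient η z‖) ^ 2 := pow_le_pow_left₀ (norm_nonneg _) h1 2
      have h3 : (D + M * ‖gradient η z‖) ^ 2 ≤ 2 * D ^ 2 + 2 * (M ^ 2 * ‖gradient η z‖ ^ 2) := by
        nlinarith [sq_nonneg (D - M * ‖gradient η z‖)]
      have h4 : M ^ 2 * ‖gradient η z‖ ^ 2 ≤ M ^ 2 * ((16 / 9) * r ^ 2 * J ‖z - c‖) :=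
        mul_le_mul_of_nonneg_left (hgη z).1 (by positivity)
      have h5 : 0 ≤ M ^ 2 * (r ^ 2 * J ‖z - c‖) := by
        have := hJ0 ‖z - c‖
        positivity
      have h6 := sq_nonneg ‖gradient u z‖
      have h7 : M ^ 2 * ((16 / 9) * r ^ 2 * J ‖z - c‖) = 16 / 9 * (M ^ 2 * (r ^ 2 * J ‖z - c‖)) := by ring
      have h8 : 4 * M ^ 2 * r ^ 2 * J ‖z - c‖ = 4 * (M ^ 2 * (r ^ 2 * J ‖z - c‖)) := by ring
      rw [h8]
      rw [h7] at h4
      linarith
    · rw [indicator_of_notMem hzW]
      have h1 : 32 * r ≤ ‖z - c‖ := by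
        by_contra hcon
        push Not at hcon
        apply hzW
        rw [hW, mem_ball, dist_eq_norm]
        exact hcon
      rw [(hgη z).2 h1, mul_zero, add_zero] at hz
      have := pow_le_pow_left₀ (norm_nonneg _) hz 2
      linarith
  have hcont_grad : ∀ f : EuclideanSpace ℝ (Fin 3) → ℝ, ContDiff ℝ (⊤ : ℕ∞) f → HasCompactSupport f →
      Integrable (fun z => ‖gradient f z‖ ^ 2) := by
    intro f hf hfc
    have hgc : Continuous (fun z => gradient f z) := by
      unfold gradient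
      exact (LinearIsometryEquiv.continuous _).comp (hf.continuous_fderiv (by simp))
    apply Continuous.integrable_of_hasCompactSupport (hgc.norm.pow 2)
    apply IsCompact.of_isClosed_subset hfc (isClosed_tsupport _)
    apply closure_minimal _ (isClosed_tsupport f)
    intro z hz
    by_contra hcon
    apply hz
    simp [gradient_zero_of_eventually (eventually_zero_of_notMem hcon)]
  have hcont_sq : ∀ f : EuclideanSpace ℝ (Fin 3) → ℝ, ContDiff ℝ (⊤ : ℕ∞) f → HasCompactSupport f →
      Integrable (fun z => f z ^ 2) := by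
    intro f hf hfc
    apply Continuous.integrable_of_hasCompactSupport (hf.continuous.pow 2)
    apply IsCompact.of_isClosed_subset hfc (isClosed_tsupport _)
    apply closure_mono
    intro z hz
    rw [Function.mem_support] at hz ⊢
    intro h0
    apply hz
    simp [h0]
  have hiJ : Integrable (fun z : EuclideanSpace ℝ (Fin 3) => J ‖z‖) := by
    apply radial_integrable
    intro ρ hρ
    have hr0 : ρ ≠ 0 := by linarith [hρ.1]
    apply ContinuousAt.continuousWithinAt
    have h3 : ContinuousAt (fun r : ℝ => r ^ 4) ρ := by fun_prop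
    exact continuousAt_const.div h3 (by positivity)
  have hiJc : Integrable (fun z => 4 * M ^ 2 * r ^ 2 * J ‖z - c‖) :=
    (hiJ.comp_sub_right c).const_mul _
  have hJint : ∫ z, 4 * M ^ 2 * r ^ 2 * J ‖z - c‖ ≤ 4 * M ^ 2 * om * r := by
    rw [integral_const_mul]
    have e1 : ∫ z : EuclideanSpace ℝ (Fin 3), J ‖z - c‖ = ∫ z : EuclideanSpace ℝ (Fin 3), J ‖z‖ :=
      integral_sub_right_eq_self (fun z => J ‖z‖) c
    rw [e1, hJ, radial_integral _ _ _ hr0.le (by linarith), int_M3 _ _ hr0 (by linarith)]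
    have e2 : 4 * M ^ 2 * om * r = 4 * M ^ 2 * r ^ 2 * (om * (1 / r)) := by
      field_simp
    rw [e2]
    apply mul_le_mul_of_nonneg_left _ (by positivity)
    apply mul_le_mul_of_nonneg_left _ om_pos.le
    have : 0 < 1 / (32 * r) := by positivity
    linarith
  refine ⟨r, hr0, hrm, v, hvs, hvc, ?_, ?_, ?_⟩
  · intro z hz
    refine ⟨hvsub hz, ?_⟩
    intro hcon
    rw [mem_closedBall, dist_eq_norm] at hcon
    have h4 : v =ᶠ[nhds z] fun _ => 0 := by
      have : ball c (r / (1 - 1 / 16)) ∈ nhds z := by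
        apply isOpen_ball.mem_nhds
        rw [mem_ball, dist_eq_norm, lt_div_iff₀ (by norm_num)]
        nlinarith
      filter_upwards [this] with y hy
      rw [mem_ball, dist_eq_norm] at hy
      simp only [hv, hη0 y hy.le, mul_zero]
    exact notMem_tsupport_iff_eventuallyEq.mpr h4 hz
  · have a1 : Integrable (fun z : EuclideanSpace ℝ (Fin 3) =>
        2 * D ^ 2 * W.indicator (fun _ => (1:ℝ)) z) := hWint.const_mul _
    have a2 : Integrable (fun z : EuclideanSpace ℝ (Fin 3) =>
        2 * D ^ 2 * W.indicator (fun _ => (1:ℝ)) z + 4 * M ^ 2 * r ^ 2 * J ‖z - c‖) := a1.add hiJc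
    calc ∫ z, ‖gradient v z‖ ^ 2 ≤ ∫ z, (‖gradient u z‖ ^ 2 +
        (2 * D ^ 2 * W.indicator (fun _ => (1:ℝ)) z + 4 * M ^ 2 * r ^ 2 * J ‖z - c‖)) :=
          integral_mono (hcont_grad v hvs hvc) ((hcont_grad u hu huc).add a2) hpt
      _ = (∫ z, ‖gradient u z‖ ^ 2) + (2 * D ^ 2 * (om / 3 * (32 * r) ^ 3) +
          ∫ z, 4 * M ^ 2 * r ^ 2 * J ‖z - c‖) := by
          rw [integral_add (hcont_grad u hu huc) a2, integral_add a1 hiJc, integral_const_mul, hWintegral]
      _ ≤ (∫ z, ‖gradient u z‖ ^ 2) + e := by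
          apply add_le_add le_rfl
          refine le_trans ?_ hre
          have h1 : 2 * D ^ 2 * (om / 3 * (32 * r) ^ 3) ≤ 2 * D ^ 2 * (om / 3 * 32 ^ 3) * r := by
            have : 2 * D ^ 2 * (om / 3 * (32 * r) ^ 3) = 2 * D ^ 2 * (om / 3 * 32 ^ 3) * r ^ 3 := by ring
            rw [this]
            exact mul_le_mul_of_nonneg_left hr3 (by positivity)
          have h2 : 0 ≤ M ^ 2 * (om / 3 * 32 ^ 3) * r := by positivity
          rw [hB]
          linarith
  · have hpt2 : ∀ z, u z ^ 2 - M ^ 2 * W.indicator (fun _ => (1:ℝ)) z ≤ v z ^ 2 := by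
      intro z
      by_cases hzW : z ∈ W
      · rw [indicator_of_mem hzW]
        have h1 : u z ^ 2 ≤ M ^ 2 := by
          rw [← sq_abs (u z)]
          exact pow_le_pow_left₀ (abs_nonneg _) (hMb z) 2
        have := sq_nonneg (v z)
        linarith
      · rw [indicator_of_notMem hzW]
        have h1 : η z = 1 := by
          apply hη1
          by_contra hcon
          push Not at hcon
          apply hzW
          rw [hW, mem_ball, dist_eq_norm]
          have : r / (1 / 16) = 16 * r := by ring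
          rw [this] at hcon
          linarith
        simp only [hv, h1, mul_one, mul_zero, sub_zero]
        exact le_rfl
    have a1 : Integrable (fun z : EuclideanSpace ℝ (Fin 3) =>
        M ^ 2 * W.indicator (fun _ => (1:ℝ)) z) := hWint.const_mul _
    calc (∫ z, u z ^ 2) - e ≤ (∫ z, u z ^ 2) - M ^ 2 * (om / 3 * (32 * r) ^ 3) := by
          apply sub_le_sub_left
          refine le_trans ?_ hre
          have h1 : M ^ 2 * (om / 3 * (32 * r) ^ 3) ≤ M ^ 2 * (om / 3 * 32 ^ 3) * r := by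
            have : M ^ 2 * (om / 3 * (32 * r) ^ 3) = M ^ 2 * (om / 3 * 32 ^ 3) * r ^ 3 := by ring
            rw [this]
            exact mul_le_mul_of_nonneg_left hr3 (by positivity)
          have h2 : 0 ≤ 2 * D ^ 2 * (om / 3 * 32 ^ 3) * r := by positivity
          have h3 : 0 ≤ 4 * M ^ 2 * om * r := by positivity
          rw [hB]
          linarith
      _ = ∫ z, (u z ^ 2 - M ^ 2 * W.indicator (fun _ => (1:ℝ)) z) := by
          rw [integral_sub (hcont_sq u hu huc) a1, integral_const_mul, hWintegral]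
      _ ≤ ∫ z, v z ^ 2 :=
          integral_mono ((hcont_sq u hu huc).sub a1) (hcont_sq v hvs hvc) hpt2

end Pool.Agent.Helper533.BallObstacle
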