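import Pool.Agent.Helper533.BallObstacle.Defs

open MeasureTheory Metric Set

namespace Pool.Agent.Helper533.BallObstacle

/-- Integration by parts, one coordinate. -/
theorem ibp_coord {N : ℕ} (i : Fin N) (w : EuclideanSpace ℝ (Fin N) → ℝ) (hw : ContDiff ℝ 1 w)
    (hwc : HasCompactSupport w) (X : EuclideanSpace ℝ (Fin N) → ℝ)
    (X' : EuclideanSpace ℝ (Fin N) → ℝ)
    (hX : ∀ z ∈ tsupport w, HasLineDerivAt ℝ X (X' z) z (EuclideanSpace.single i 1))
    (hXc : ∀ z ∈ tsupport w, ContinuousAt X z)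
    (hXc' : ∀ z ∈ tsupport w, ContinuousAt X' z) :
    ∫ z, w z * X' z = - ∫ z, (fderiv ℝ w z (EuclideanSpace.single i 1)) * X z := by
  have hwd : Differentiable ℝ w := hw.differentiable (by norm_num)
  have hwc0 : Continuous w := hw.continuous
  have hfd : Continuous (fun z => fderiv ℝ w z (EuclideanSpace.single i 1)) :=
    (hw.continuous_fderiv (by norm_num)).clm_apply continuous_const
  have hfs : tsupport (fun z => fderiv ℝ w z (EuclideanSpace.single i 1)) ⊆ tsupport w :=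
    tsupport_fderiv_apply_subset ℝ _
  have hfcs : HasCompactSupport (fun z => fderiv ℝ w z (EuclideanSpace.single i (1:ℝ))) :=
    hwc.fderiv_apply ℝ _
  have key : ∀ (a b : EuclideanSpace ℝ (Fin N) → ℝ), Continuous a → HasCompactSupport a →
      tsupport a ⊆ tsupport w → (∀ z ∈ tsupport w, ContinuousAt b z) →
      Integrable (fun z => a z * b z) := by
    intro a b ha hac has hb
    apply Continuous.integrable_of_hasCompactSupport
    · apply continuous_of_tsupport
      intro z hz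
      have hz' : z ∈ tsupport w := has (tsupport_mul_subset_left hz)
      exact ha.continuousAt.mul (hb z hz')
    · exact hac.mul_right
  have := integral_bilinear_hasLineDerivAt_right_eq_neg_left_of_integrable
    (μ := (volume : Measure (EuclideanSpace ℝ (Fin N))))
    (f := w) (f' := fun z => fderiv ℝ w z (EuclideanSpace.single i 1)) (g := X) (g' := X')
    (v := EuclideanSpace.single i 1) (B := ContinuousLinearMap.mul ℝ ℝ)
    (by simpa using key _ _ hfd hfcs hfs hXc)
    (by simpa using key _ _ hwc0 hwc (le_refl _) hXc')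
    (by simpa using key _ _ hwc0 hwc (le_refl _) hXc)
    (fun z _ => (hwd z).hasFDerivAt.hasLineDerivAt _)
    hX
  simpa using this

/-- Radial fields: integration by parts for `φ(|z-q|^2) (z-q)`. -/
theorem ibp_radial {N : ℕ} (w : EuclideanSpace ℝ (Fin N) → ℝ) (hw : ContDiff ℝ 1 w)
    (hwc : HasCompactSupport w) (q : EuclideanSpace ℝ (Fin N)) (φ φ' : ℝ → ℝ)
    (hφ : ∀ z ∈ tsupport w, HasDerivAt φ (φ' (‖z - q‖ ^ 2)) (‖z - q‖ ^ 2))
    (hφc : ∀ z ∈ tsupport w, ContinuousAt φ' (‖z - q‖ ^ 2)) :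
    ∫ z, φ (‖z - q‖ ^ 2) * (fderiv ℝ w z (z - q)) =
      - ∫ z, w z * (N * φ (‖z - q‖ ^ 2) + 2 * ‖z - q‖ ^ 2 * φ' (‖z - q‖ ^ 2)) := by
  have hwc0 : Continuous w := hw.continuous
  have hc1 : ∀ z ∈ tsupport w, ContinuousAt (fun y : EuclideanSpace ℝ (Fin N) => φ (‖y - q‖ ^ 2)) z := by
    intro z hz
    have h1 : ContinuousAt (fun y : EuclideanSpace ℝ (Fin N) => ‖y - q‖ ^ 2) z := by fun_prop
    exact ContinuousAt.comp (g := φ) (f := fun y : EuclideanSpace ℝ (Fin N) => ‖y - q‖ ^ 2) (hφ z hz).continuousAt h1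
  have hc2 : ∀ z ∈ tsupport w, ContinuousAt (fun y : EuclideanSpace ℝ (Fin N) => φ' (‖y - q‖ ^ 2)) z := by
    intro z hz
    have h1 : ContinuousAt (fun y : EuclideanSpace ℝ (Fin N) => ‖y - q‖ ^ 2) z := by fun_prop
    exact ContinuousAt.comp (g := φ') (f := fun y : EuclideanSpace ℝ (Fin N) => ‖y - q‖ ^ 2) (hφc z hz) h1
  have hcoord : ∀ i : Fin N, ∫ z, w z * (φ (‖z - q‖ ^ 2) + 2 * φ' (‖z - q‖ ^ 2) * (z i - q i) ^ 2)
      = - ∫ z, (fderiv ℝ w z (EuclideanSpace.single i 1)) * (φ (‖z - q‖ ^ 2) * (z i - q i)) := by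
    intro i
    apply ibp_coord i w hw hwc
    · intro z hz
      have h1 : HasFDerivAt (fun y : EuclideanSpace ℝ (Fin N) => ‖y - q‖ ^ 2)
          (2 • (innerSL ℝ (z - q))) z := by
        have := ((hasFDerivAt_id z).sub_const q).norm_sq
        simpa using this
      have h2 : HasFDerivAt (fun y : EuclideanSpace ℝ (Fin N) => y i - q i)
          (EuclideanSpace.proj i : EuclideanSpace ℝ (Fin N) →L[ℝ] ℝ) z := by
        have := (EuclideanSpace.proj (𝕜 := ℝ) i : EuclideanSpace ℝ (Fin N) →L[ℝ] ℝ).hasFDerivAt (x := z)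
        exact this.sub_const (q i)
      have h3 := ((hφ z hz).comp_hasFDerivAt z h1).mul h2
      have h4 := h3.hasLineDerivAt (EuclideanSpace.single i 1)
      have h5 : (((φ ∘ fun y : EuclideanSpace ℝ (Fin N) => ‖y - q‖ ^ 2) z • (EuclideanSpace.proj i : EuclideanSpace ℝ (Fin N) →L[ℝ] ℝ) +
          (z i - q i) • φ' (‖z - q‖ ^ 2) • 2 • (innerSL ℝ) (z - q)))
            (EuclideanSpace.single i 1) = φ (‖z - q‖ ^ 2) + 2 * φ' (‖z - q‖ ^ 2) * (z i - q i) ^ 2 := by
        simp [EuclideanSpace.inner_single_right]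
        ring
      rw [h5] at h4
      exact h4
    · intro z hz
      exact (hc1 z hz).mul (by fun_prop)
    · intro z hz
      exact (hc1 z hz).add (((continuousAt_const (y := (2:ℝ))).mul (hc2 z hz)).mul (by fun_prop))
  have hint : ∀ (a b : EuclideanSpace ℝ (Fin N) → ℝ), Continuous a → HasCompactSupport a →
      tsupport a ⊆ tsupport w → (∀ z ∈ tsupport w, ContinuousAt b z) →
      Integrable (fun z => a z * b z) := by
    intro a b ha hac has hb
    apply Continuous.integrable_of_hasCompactSupport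
    · apply continuous_of_tsupport
      intro z hz
      have hz' : z ∈ tsupport w := has (tsupport_mul_subset_left hz)
      exact ha.continuousAt.mul (hb z hz')
    · exact hac.mul_right
  have hsum := Finset.sum_congr (rfl : (Finset.univ : Finset (Fin N)) = Finset.univ) (fun i _ => hcoord i)
  rw [Finset.sum_neg_distrib, ← integral_finsetSum, ← integral_finsetSum] at hsum
  · have hL : ∀ z : EuclideanSpace ℝ (Fin N), ∑ i : Fin N, w z * (φ (‖z - q‖ ^ 2) + 2 * φ' (‖z - q‖ ^ 2) * (z i - q i) ^ 2)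
        = w z * (N * φ (‖z - q‖ ^ 2) + 2 * ‖z - q‖ ^ 2 * φ' (‖z - q‖ ^ 2)) := by
      intro z
      rw [← Finset.mul_sum, Finset.sum_add_distrib, ← Finset.mul_sum]
      have : ∑ i : Fin N, (z i - q i) ^ 2 = ‖z - q‖ ^ 2 := by
        rw [EuclideanSpace.norm_sq_eq]
        simp
      rw [this]
      simp only [Finset.sum_const, Finset.card_univ, Fintype.card_fin, nsmul_eq_mul]
      ring
    have hR : ∀ z : EuclideanSpace ℝ (Fin N), ∑ i : Fin N, (fderiv ℝ w z (EuclideanSpace.single i 1)) * (φ (‖z - q‖ ^ 2) * (z i - q i))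
        = φ (‖z - q‖ ^ 2) * (fderiv ℝ w z (z - q)) := by
      intro z
      have hz : z - q = ∑ i : Fin N, (z i - q i) • (EuclideanSpace.single i (1:ℝ) : EuclideanSpace ℝ (Fin N)) := by
        have := (EuclideanSpace.basisFun (Fin N) ℝ).sum_repr (z - q)
        simpa using this.symm
      conv_rhs => rw [hz]
      rw [map_sum, Finset.mul_sum]
      refine Finset.sum_congr rfl fun i _ => ?_
      rw [map_smul, smul_eq_mul]
      have : ‖∑ i : Fin N, (z i - q i) • (EuclideanSpace.single i (1:ℝ) : EuclideanSpace ℝ (Fin N))‖ = ‖z - q‖ := by rw [← hz]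
      rw [this]
      ring
    simp_rw [hL, hR] at hsum
    linarith
  · intro i _
    have := hint (fun z => fderiv ℝ w z (EuclideanSpace.single i 1)) (fun z => φ (‖z - q‖ ^ 2) * (z i - q i))
      ((hw.continuous_fderiv (by norm_num)).clm_apply continuous_const) (hwc.fderiv_apply ℝ _)
      (tsupport_fderiv_apply_subset ℝ _) (fun z hz => (hc1 z hz).mul (by fun_prop))
    simpa using this
  · intro i _
    exact hint w _ hwc0 hwc le_rfl (fun z hz => (hc1 z hz).add (((continuousAt_const (y := (2:ℝ))).mul (hc2 z hz)).mul (by fun_prop)))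

/-- Integration by parts for `ψ(|z-q|) (z-q)`, away from `q`. -/
theorem ibp_norm {N : ℕ} (w : EuclideanSpace ℝ (Fin N) → ℝ) (hw : ContDiff ℝ 1 w)
    (hwc : HasCompactSupport w) (q : EuclideanSpace ℝ (Fin N)) (hq : q ∉ tsupport w) (ψ ψ' : ℝ → ℝ)
    (hψ : ∀ z ∈ tsupport w, HasDerivAt ψ (ψ' ‖z - q‖) ‖z - q‖)
    (hψc : ∀ z ∈ tsupport w, ContinuousAt ψ' ‖z - q‖) :
    ∫ z, ψ ‖z - q‖ * (fderiv ℝ w z (z - q)) =
      - ∫ z, w z * (N * ψ ‖z - q‖ + ‖z - q‖ * ψ' ‖z - q‖) := by
  have hpos : ∀ z ∈ tsupport w, 0 < ‖z - q‖ := by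
    intro z hz
    rw [norm_pos_iff, sub_ne_zero]
    rintro rfl
    exact hq hz
  have hs : ∀ z : EuclideanSpace ℝ (Fin N), √(‖z - q‖ ^ 2) = ‖z - q‖ := fun z =>
    Real.sqrt_sq (norm_nonneg _)
  have h := ibp_radial w hw hwc q (fun t => ψ (√t)) (fun t => ψ' (√t) * (1 / (2 * √t)))
    (by
      intro z hz
      have hp := hpos z hz
      have h1 : HasDerivAt (fun t => √t) (1 / (2 * √(‖z - q‖ ^ 2))) (‖z - q‖ ^ 2) :=
        Real.hasDerivAt_sqrt (by positivity)
      have h2 : HasDerivAt ψ (ψ' (√(‖z - q‖ ^ 2))) (√(‖z - q‖ ^ 2)) := by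
        rw [hs]; exact hψ z hz
      exact h2.comp _ h1)
    (by
      intro z hz
      have hp := hpos z hz
      have h2 : ContinuousAt ψ' (√(‖z - q‖ ^ 2)) := by rw [hs]; exact hψc z hz
      have h3 : ContinuousAt (fun t : ℝ => √t) (‖z - q‖ ^ 2) := Real.continuous_sqrt.continuousAt
      have h4 : ContinuousAt (fun t : ℝ => ψ' (√t)) (‖z - q‖ ^ 2) :=
        ContinuousAt.comp (g := ψ') (f := fun t : ℝ => √t) h2 h3
      refine h4.mul ?_
      refine ContinuousAt.div continuousAt_const (continuousAt_const.mul h3) ?_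
      rw [hs]
      positivity)
  simp only [hs] at h
  rw [h]
  congr 1
  apply integral_congr_ae
  refine Filter.Eventually.of_forall fun z => ?_
  by_cases hz : z ∈ tsupport w
  · have hp := hpos z hz
    show w z * _ = w z * _
    congr 1
    field_simp
  · have : w z = 0 := image_eq_zero_of_notMem_tsupport hz
    simp [this]

/-- Picone type pointwise inequality. -/
theorem picone_pointwise {N : ℕ} (u χ v : EuclideanSpace ℝ (Fin N) → ℝ)
    (X z : EuclideanSpace ℝ (Fin N)) (hu : DifferentiableAt ℝ u z) (hχ : DifferentiableAt ℝ χ z)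
    (hv : HasFDerivAt v (innerSL ℝ X) z) (hvpos : 0 < v z) (hχ0 : 0 ≤ χ z) :
    fderiv ℝ (fun y => χ y * u y ^ 2 / v y) z X ≤
      χ z * ‖gradient u z‖ ^ 2 + u z ^ 2 * fderiv ℝ χ z X / v z := by
  have h1 : HasFDerivAt (fun y => χ y * u y ^ 2 / v y)
      ((χ z * u z ^ 2) • (-(v z ^ 2)⁻¹ • innerSL ℝ X) +
        (v z)⁻¹ • (χ z • ((2 * u z) • fderiv ℝ u z) + u z ^ 2 • fderiv ℝ χ z)) z := by
    have h2 : HasFDerivAt (fun y => u y ^ 2) ((2 * u z) • fderiv ℝ u z) z := by
      have := hu.hasFDerivAt.pow 2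
      simpa using this
    have h3 : HasFDerivAt (fun y => (v y)⁻¹) (-(v z ^ 2)⁻¹ • innerSL ℝ X) z :=
      (hasDerivAt_inv hvpos.ne').comp_hasFDerivAt z hv
    have h4 := (hχ.hasFDerivAt.mul h2).mul h3
    simp only [div_eq_mul_inv]
    exact h4
  rw [h1.fderiv]
  have hg : fderiv ℝ u z X = inner ℝ (gradient u z) X := by
    rw [gradient, InnerProductSpace.toDual_symm_apply]
  have hsq : 0 ≤ χ z * ‖gradient u z - (u z / v z) • X‖ ^ 2 := by positivity
  rw [norm_sub_sq_real, inner_smul_right, norm_smul, mul_pow, Real.norm_eq_abs, sq_abs] at hsq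
  simp only [FunLike.coe_smul, FunLike.coe_add, Pi.smul_apply,
    Pi.add_apply, smul_eq_mul, innerSL_apply_apply, real_inner_self_eq_norm_sq, hg]
  have hv0 : v z ≠ 0 := hvpos.ne'
  have : χ z * u z ^ 2 * (-(v z ^ 2)⁻¹ * ‖X‖ ^ 2) +
        (v z)⁻¹ * (χ z * (2 * u z * inner ℝ (gradient u z) X) + u z ^ 2 * fderiv ℝ χ z X) = χ z * ‖gradient u z‖ ^ 2 + u z ^ 2 * fderiv ℝ χ z X / v z
      - χ z * (‖gradient u z‖ ^ 2 - 2 * (u z / v z * inner ℝ (gradient u z) X) + (u z / v z) ^ 2 * ‖X‖ ^ 2) := by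
    field_simp
    ring
  rw [this]
  linarith

end Pool.Agent.Helper533.BallObstacle
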