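import Pool.Agent.Helper533.BallObstacle.Glue

open MeasureTheory Metric Set

namespace Pool.Agent.Helper533.BallObstacle

/-- Green function of the exterior of the unit ball (up to constants). -/
noncomputable def grn (y P : EuclideanSpace ℝ (Fin 3)) : ℝ :=
  1 / ‖y - P‖ - 1 / (‖P‖ * ‖y - (1 / ‖P‖ ^ 2) • P‖)

theorem grn_bound (y P : EuclideanSpace ℝ (Fin 3)) (hr : 1 < ‖y‖) (hσ : 11 / 10 ≤ ‖P‖)
    (hy : y ≠ P) :
    0 ≤ grn y P ∧ grn y P ≤ 1 / ‖y - P‖ ∧ grn y P ≤ 42 * (1 - 1 / ‖y‖) / ‖y - P‖ := by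
  set r := ‖y‖ with hrdef
  set σ := ‖P‖ with hσdef
  have hσ0 : 0 < σ := by linarith
  set α := ‖y - P‖ with hα
  set β := σ * ‖y - (1 / σ ^ 2) • P‖ with hβ
  have hα0 : 0 < α := norm_pos_iff.mpr (sub_ne_zero.mpr hy)
  have hα2 : α ^ 2 = r ^ 2 - 2 * inner ℝ y P + σ ^ 2 := by
    rw [hα, norm_sub_sq_real]
  have hβ2 : β ^ 2 = σ ^ 2 * r ^ 2 - 2 * inner ℝ y P + 1 := by
    rw [hβ, mul_pow, norm_sub_sq_real, inner_smul_right, norm_smul, Real.norm_of_nonneg (by positivity)]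
    rw [← hσdef, ← hrdef]
    field_simp
  have hβr : σ * r - 1 ≤ β := by
    have h1 : r - 1 / σ ≤ ‖y - (1 / σ ^ 2) • P‖ := by
      have := norm_sub_norm_le y ((1 / σ ^ 2) • P)
      rw [norm_smul, Real.norm_of_nonneg (by positivity), ← hσdef, ← hrdef] at this
      have e : 1 / σ ^ 2 * σ = 1 / σ := by field_simp
      rwa [e] at this
    have h2 : σ * (r - 1 / σ) ≤ β := mul_le_mul_of_nonneg_left h1 hσ0.le
    have e : σ * (r - 1 / σ) = σ * r - 1 := by field_simp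
    rwa [e] at h2
  have hβ1 : (σ - 1) * r ≤ β := by nlinarith
  have hβ0 : 0 < β := by
    have : 0 < (σ - 1) * r := by apply mul_pos <;> linarith
    linarith
  have hdiff : β ^ 2 - α ^ 2 = (σ ^ 2 - 1) * (r ^ 2 - 1) := by
    rw [hα2, hβ2]; ring
  have hαβ : α ≤ β := by
    have : 0 ≤ (σ ^ 2 - 1) * (r ^ 2 - 1) := by
      apply mul_nonneg <;> nlinarith
    nlinarith
  have hG : grn y P = 1 / α - 1 / β := rfl
  rw [hG]
  refine ⟨?_, ?_, ?_⟩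
  · rw [sub_nonneg]
    exact one_div_le_one_div_of_le hα0 hαβ
  · have : 0 < 1 / β := by positivity
    linarith
  · have h1 : 1 / α - 1 / β = (β ^ 2 - α ^ 2) / (α * β * (α + β)) := by
      field_simp
      ring
    rw [h1, hdiff, div_le_div_iff₀ (by positivity) hα0]
    have h3 : (σ ^ 2 - 1) * (r ^ 2 - 1) ≤ 42 * (1 - 1 / r) * β ^ 2 := by
      have h4 : ((σ - 1) * r) ^ 2 ≤ β ^ 2 := by
        have : 0 ≤ (σ - 1) * r := by apply mul_nonneg <;> linarith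
        nlinarith
      have h5 : 0 ≤ 42 * (1 - 1 / r) := by
        have : 1 / r ≤ 1 := by
          rw [div_le_one (by linarith)]; exact hr.le
        linarith
      have h6 : (σ ^ 2 - 1) * (r ^ 2 - 1) ≤ 42 * (1 - 1 / r) * ((σ - 1) * r) ^ 2 := by
        have e : 42 * (1 - 1 / r) * ((σ - 1) * r) ^ 2 = (σ - 1) * (r - 1) * (42 * (σ - 1) * r) := by
          have : r ≠ 0 := by linarith
          field_simp
        have e2 : (σ ^ 2 - 1) * (r ^ 2 - 1) = (σ - 1) * (r - 1) * ((σ + 1) * (r + 1)) := by ring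
        rw [e, e2]
        apply mul_le_mul_of_nonneg_left _ (by apply mul_nonneg <;> linarith)
        nlinarith
      calc _ ≤ _ := h6
        _ ≤ _ := mul_le_mul_of_nonneg_left h4 h5
    have h7 : 42 * (1 - 1 / r) * β ^ 2 * α ≤ 42 * (1 - 1 / r) * (α * β * (α + β)) := by
      have h5 : 0 ≤ 42 * (1 - 1 / r) := by
        have : 1 / r ≤ 1 := by
          rw [div_le_one (by linarith)]; exact hr.le
        linarith
      have : β ^ 2 * α ≤ α * β * (α + β) := by nlinarith [mul_pos hα0 hβ0]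
      nlinarith
    calc (σ ^ 2 - 1) * (r ^ 2 - 1) * α ≤ 42 * (1 - 1 / r) * β ^ 2 * α :=
          mul_le_mul_of_nonneg_right h3 hα0.le
      _ ≤ _ := h7

/-- Positivity, one-hole-close case. -/
theorem pos_close (ε m₁ t : ℝ) (hε : 0 < ε) (hε1 : ε ≤ 1 / 1000) (hm : 1 / 11 ≤ m₁)
    (ht1 : ε ≤ t) (ht2 : t ≤ 1 / 20) :
    0 < m₁ - t - ε * m₁ * (1 - 100 * ε) / t - 5 * ε := by
  have ht : 0 < t := by linarith
  have h : 0 < (m₁ - 5 * ε) * t - t ^ 2 - ε * m₁ * (1 - 100 * ε) := by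
    have h1 : 0 ≤ (t - ε) * (1 / 20 - t) := mul_nonneg (by linarith) (by linarith)
    have h2 : 0 ≤ (m₁ - 6 * ε - 1 / 20) * (t - ε) := mul_nonneg (by linarith) (by linarith)
    have h3 : 0 < ε ^ 2 * (100 * m₁ - 6) := mul_pos (by positivity) (by linarith)
    nlinarith
  have e : m₁ - t - ε * m₁ * (1 - 100 * ε) / t - 5 * ε =
      ((m₁ - 5 * ε) * t - t ^ 2 - ε * m₁ * (1 - 100 * ε)) / t := by
    field_simp
    ring
  rw [e]
  positivity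

theorem green_pos_aux (ε : ℝ) (hε : 0 < ε) (hε1 : ε ≤ 1 / 1000) (y P₁ P₂ : EuclideanSpace ℝ (Fin 3))
    (hr : 1 < ‖y‖) (h1 : 11 / 10 ≤ ‖P₁‖) (h1' : ‖P₁‖ ≤ 13 / 10) (h2 : 11 / 10 ≤ ‖P₂‖)
    (h2' : ‖P₂‖ ≤ 13 / 10) (h12 : ‖P₁ - P₂‖ = 12 / 5) (hy1 : ε < ‖y - P₁‖)
    (hc : ‖y - P₁‖ ≤ 1 / 20) :
    0 < 1 - 1 / ‖y‖ - ε * (1 - 1 / ‖P₁‖) * (1 - 100 * ε) * grn y P₁
      - ε * (1 - 1 / ‖P₂‖) * (1 - 100 * ε) * grn y P₂ := by
  set t := ‖y - P₁‖ with ht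
  have ht0 : 0 < t := by linarith
  have hd2 : 2 ≤ ‖y - P₂‖ := by
    have e : P₁ - P₂ = (y - P₂) - (y - P₁) := by abel
    have := norm_sub_le (y - P₂) (y - P₁)
    rw [← e, h12, ← ht] at this
    linarith
  have hyP1 : y ≠ P₁ := by
    rintro rfl
    simp at ht
    linarith
  have hyP2 : y ≠ P₂ := by
    rintro rfl
    simp at hd2
    linarith
  obtain ⟨g10, g11, g12⟩ := grn_bound y P₁ hr h1 hyP1
  obtain ⟨g20, g21, g22⟩ := grn_bound y P₂ hr h2 hyP2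
  rw [← ht] at g11
  set σ := ‖P₁‖ with hσ
  have hrt : σ - t ≤ ‖y‖ := by
    have := norm_sub_norm_le P₁ (P₁ - y)
    rw [show P₁ - (P₁ - y) = y by abel, norm_sub_rev P₁ y, ← ht, ← hσ] at this
    linarith
  have hm1 : 1 / 11 ≤ 1 - 1 / σ := by
    have : 1 / σ ≤ 10 / 11 := by
      rw [div_le_div_iff₀ (by linarith) (by norm_num)]; linarith
    linarith
  have hm2 : 1 - 1 / ‖P₂‖ ≤ 3 / 13 := by
    have : 10 / 13 ≤ 1 / ‖P₂‖ := by
      rw [div_le_div_iff₀ (by norm_num) (by linarith)]; linarith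
    linarith
  have hm2' : 0 ≤ 1 - 1 / ‖P₂‖ := by
    have : 1 / ‖P₂‖ ≤ 1 := by
      rw [div_le_one (by linarith)]; linarith
    linarith
  have hinv : 1 - 1 / ‖y‖ ≥ (1 - 1 / σ) - t := by
    have h3 : 1 / ‖y‖ ≤ 1 / (σ - t) := one_div_le_one_div_of_le (by linarith) hrt
    have h4 : 1 / (σ - t) ≤ 1 / σ + t := by
      have hst : 0 < σ - t := by linarith
      have hσ0 : 0 < σ := by linarith
      rw [div_le_iff₀ hst]
      have e : (1 / σ + t) * (σ - t) = 1 + t * (σ - t - 1 / σ) := by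
        field_simp
        ring
      rw [e]
      have h5 : 1 / σ ≤ 10 / 11 := by
        rw [div_le_div_iff₀ (by linarith) (by norm_num)]; linarith
      have : 0 ≤ t * (σ - t - 1 / σ) := mul_nonneg ht0.le (by linarith)
      linarith
    linarith
  have hg2 : grn y P₂ ≤ 21 := by
    have h3 : 42 * (1 - 1 / ‖y‖) / ‖y - P₂‖ ≤ 42 / 2 := by
      apply div_le_div₀ (by norm_num) _ (by norm_num) hd2
      have : 0 < 1 / ‖y‖ := by positivity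
      linarith
    linarith
  have hb : 0 < 1 - 100 * ε := by linarith
  have hb1 : 1 - 100 * ε ≤ 1 := by linarith
  have t1 : ε * (1 - 1 / σ) * (1 - 100 * ε) * grn y P₁ ≤ ε * (1 - 1 / σ) * (1 - 100 * ε) / t := by
    have : 0 ≤ ε * (1 - 1 / σ) * (1 - 100 * ε) := by
      apply mul_nonneg (mul_nonneg hε.le (by linarith)) hb.le
    calc _ ≤ ε * (1 - 1 / σ) * (1 - 100 * ε) * (1 / t) := mul_le_mul_of_nonneg_left g11 this
      _ = _ := by ring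
  have t2 : ε * (1 - 1 / ‖P₂‖) * (1 - 100 * ε) * grn y P₂ ≤ 5 * ε := by
    have e1 : (1 - 1 / ‖P₂‖) * (1 - 100 * ε) ≤ 3 / 13 := by nlinarith
    have e2 : 0 ≤ (1 - 1 / ‖P₂‖) * (1 - 100 * ε) := mul_nonneg hm2' hb.le
    have e3 : (1 - 1 / ‖P₂‖) * (1 - 100 * ε) * grn y P₂ ≤ 3 / 13 * 21 :=
      mul_le_mul e1 hg2 g20 (by norm_num)
    nlinarith
  have := pos_close ε (1 - 1 / σ) t hε hε1 hm1 hy1.le hc
  linarith

/-- Positivity of the near field for the ball `K` (centred at `0` here) with two small holes. -/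
theorem green_pos (ε : ℝ) (hε : 0 < ε) (hε1 : ε ≤ 1 / 1000) (y P₁ P₂ : EuclideanSpace ℝ (Fin 3))
    (hr : 1 < ‖y‖) (h1 : 11 / 10 ≤ ‖P₁‖) (h1' : ‖P₁‖ ≤ 13 / 10) (h2 : 11 / 10 ≤ ‖P₂‖)
    (h2' : ‖P₂‖ ≤ 13 / 10) (h12 : ‖P₁ - P₂‖ = 12 / 5) (hy1 : ε < ‖y - P₁‖) (hy2 : ε < ‖y - P₂‖) :
    0 < 1 - 1 / ‖y‖ - ε * (1 - 1 / ‖P₁‖) * (1 - 100 * ε) * grn y P₁
      - ε * (1 - 1 / ‖P₂‖) * (1 - 100 * ε) * grn y P₂ := by
  by_cases c1 : ‖y - P₁‖ ≤ 1 / 20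
  · exact green_pos_aux ε hε hε1 y P₁ P₂ hr h1 h1' h2 h2' h12 hy1 c1
  by_cases c2 : ‖y - P₂‖ ≤ 1 / 20
  · have := green_pos_aux ε hε hε1 y P₂ P₁ hr h2 h2' h1 h1' (by rw [norm_sub_rev]; exact h12) hy2 c2
    linarith
  push Not at c1 c2
  have hyP1 : y ≠ P₁ := by
    rintro rfl
    simp at c1
    linarith
  have hyP2 : y ≠ P₂ := by
    rintro rfl
    simp at c2
    linarith
  obtain ⟨g10, -, g12⟩ := grn_bound y P₁ hr h1 hyP1
  obtain ⟨g20, -, g22⟩ := grn_bound y P₂ hr h2 hyP2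
  have hr1 : 0 < 1 - 1 / ‖y‖ := by
    have : 1 / ‖y‖ < 1 := by
      rw [div_lt_one (by linarith)]; exact hr
    linarith
  have key : ∀ P : EuclideanSpace ℝ (Fin 3), 11 / 10 ≤ ‖P‖ → ‖P‖ ≤ 13 / 10 → 1 / 20 < ‖y - P‖ →
      0 ≤ grn y P → grn y P ≤ 42 * (1 - 1 / ‖y‖) / ‖y - P‖ →
      ε * (1 - 1 / ‖P‖) * (1 - 100 * ε) * grn y P ≤ 194 * ε * (1 - 1 / ‖y‖) := by
    intro P hP hP' hd g0 g2
    have hm2 : 1 - 1 / ‖P‖ ≤ 3 / 13 := by
      have : 10 / 13 ≤ 1 / ‖P‖ := by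
        rw [div_le_div_iff₀ (by norm_num) (by linarith)]; linarith
      linarith
    have hm2' : 0 ≤ 1 - 1 / ‖P‖ := by
      have : 1 / ‖P‖ ≤ 1 := by
        rw [div_le_one (by linarith)]; linarith
      linarith
    have hb : 0 < 1 - 100 * ε := by linarith
    have e0 : grn y P ≤ 840 * (1 - 1 / ‖y‖) := by
      have : 42 * (1 - 1 / ‖y‖) / ‖y - P‖ ≤ 42 * (1 - 1 / ‖y‖) / (1 / 20) :=
        div_le_div_of_nonneg_left (by positivity) (by norm_num) hd.le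
      have e : 42 * (1 - 1 / ‖y‖) / (1 / 20) = 840 * (1 - 1 / ‖y‖) := by ring
      linarith
    have e1 : (1 - 1 / ‖P‖) * (1 - 100 * ε) ≤ 3 / 13 := by nlinarith
    have e2 : 0 ≤ (1 - 1 / ‖P‖) * (1 - 100 * ε) := mul_nonneg hm2' hb.le
    have e3 : (1 - 1 / ‖P‖) * (1 - 100 * ε) * grn y P ≤ 3 / 13 * (840 * (1 - 1 / ‖y‖)) :=
      mul_le_mul e1 e0 g0 (by norm_num)
    have e4 : ε * ((1 - 1 / ‖P‖) * (1 - 100 * ε) * grn y P) ≤ ε * (3 / 13 * (840 * (1 - 1 / ‖y‖))) :=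
      mul_le_mul_of_nonneg_left e3 hε.le
    have e5 : 0 < ε * (1 - 1 / ‖y‖) := mul_pos hε hr1
    nlinarith
  have k1 := key P₁ h1 h1' c1 g10 g12
  have k2 := key P₂ h2 h2' c2 g20 g22
  nlinarith

end Pool.Agent.Helper533.BallObstacle
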