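import Pool.Agent.Helper533.BallObstacle.Defs

open MeasureTheory Metric Set

namespace Pool.Agent.Helper533.BallObstacle

theorem contDiff_primitive (β : ℝ → ℝ) (hβ : ContDiff ℝ (⊤ : ℕ∞) β) :
    ContDiff ℝ (⊤ : ℕ∞) (fun t => ∫ s in (0:ℝ)..t, β s) ∧
      ∀ t, HasDerivAt (fun t => ∫ s in (0:ℝ)..t, β s) (β t) t := by
  have hd : ∀ t, HasDerivAt (fun t => ∫ s in (0:ℝ)..t, β s) (β t) t := by
    intro t
    exact intervalIntegral.integral_hasDerivAt_right (hβ.continuous.intervalIntegrable _ _)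
      (hβ.continuous.stronglyMeasurableAtFilter _ _) hβ.continuous.continuousAt
  refine ⟨?_, hd⟩
  rw [contDiff_infty_iff_deriv]
  refine ⟨fun t => (hd t).differentiableAt, ?_⟩
  have : deriv (fun t => ∫ s in (0:ℝ)..t, β s) = β := by
    funext t
    exact (hd t).deriv
  rw [this]
  exact hβ

/-- Smooth version of `(t - δ)⁺`. -/
theorem exists_Phi (δ : ℝ) (hδ : 0 < δ) : ∃ Φ : ℝ → ℝ, ContDiff ℝ (⊤ : ℕ∞) Φ ∧
    (∀ t ≤ δ / 2, Φ t = 0) ∧ (∀ t, 0 ≤ deriv Φ t ∧ deriv Φ t ≤ 1) ∧
    (∀ t, 0 ≤ t → t - δ ≤ Φ t ∧ Φ t ≤ t ∧ 0 ≤ Φ t) := by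
  set β : ℝ → ℝ := fun s => Real.smoothTransition ((s - δ / 2) / (δ / 2)) with hβdef
  have hβ : ContDiff ℝ (⊤ : ℕ∞) β :=
    Real.smoothTransition.contDiff.comp ((contDiff_id.sub contDiff_const).div_const _)
  obtain ⟨h1, h2⟩ := contDiff_primitive β hβ
  have hβ0 : ∀ s, 0 ≤ β s := fun s => Real.smoothTransition.nonneg _
  have hβ1 : ∀ s, β s ≤ 1 := fun s => Real.smoothTransition.le_one _
  have hβz : ∀ s ≤ δ / 2, β s = 0 := by
    intro s hs
    apply Real.smoothTransition.zero_of_nonpos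
    apply div_nonpos_of_nonpos_of_nonneg <;> linarith
  have hβo : ∀ s, δ ≤ s → β s = 1 := by
    intro s hs
    apply Real.smoothTransition.one_of_one_le
    rw [one_le_div (by linarith)]
    linarith
  have hint : ∀ a b, IntervalIntegrable β volume a b := fun a b => hβ.continuous.intervalIntegrable _ _
  refine ⟨_, h1, ?_, ?_, ?_⟩
  · intro t ht
    apply intervalIntegral.integral_zero_ae
    refine Filter.Eventually.of_forall fun s hs => ?_
    apply hβz
    rcases le_total 0 t with h | h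
    · rw [uIoc_of_le h] at hs
      exact hs.2.trans ht
    · rw [uIoc_of_ge h] at hs
      linarith [hs.2]
  · intro t
    rw [(h2 t).deriv]
    exact ⟨hβ0 t, hβ1 t⟩
  · intro t ht
    have hnn : 0 ≤ ∫ s in (0:ℝ)..t, β s := intervalIntegral.integral_nonneg ht (fun s _ => hβ0 s)
    refine ⟨?_, ?_, hnn⟩
    · rcases le_total t δ with h | h
      · linarith
      · have e : ∫ s in (0:ℝ)..t, β s = (∫ s in (0:ℝ)..δ, β s) + ∫ s in δ..t, β s :=
          (intervalIntegral.integral_add_adjacent_intervals (hint _ _) (hint _ _)).symm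
        have e1 : 0 ≤ ∫ s in (0:ℝ)..δ, β s := intervalIntegral.integral_nonneg hδ.le (fun s _ => hβ0 s)
        have e2 : ∫ s in δ..t, β s = ∫ s in δ..t, (1:ℝ) := by
          apply intervalIntegral.integral_congr
          intro s hs
          rw [uIcc_of_le h] at hs
          exact hβo s hs.1
        rw [e, e2]
        simp
        linarith
    · have : ∫ s in (0:ℝ)..t, β s ≤ ∫ s in (0:ℝ)..t, (1:ℝ) :=
        intervalIntegral.integral_mono_on ht (hint _ _) (by simp) (fun s _ => hβ1 s)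
      simpa using this

/-- Smooth step from `0` to `1` on `[0,1]` with slope at most `1/(1-4θ)`. -/
theorem exists_Theta (θ : ℝ) (hθ : 0 < θ) (hθ1 : θ < 1 / 8) : ∃ Θ : ℝ → ℝ, ContDiff ℝ (⊤ : ℕ∞) Θ ∧
    (∀ t ≤ θ, Θ t = 0) ∧ (∀ t, 1 - θ ≤ t → Θ t = 1) ∧ (∀ t, 0 ≤ Θ t ∧ Θ t ≤ 1) ∧
    (∀ t, 0 ≤ deriv Θ t ∧ deriv Θ t ≤ 1 / (1 - 4 * θ)) := by
  set β : ℝ → ℝ := fun s => Real.smoothTransition ((s - θ) / θ) *
    Real.smoothTransition ((1 - θ - s) / θ) with hβdef
  have hβ : ContDiff ℝ (⊤ : ℕ∞) β :=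
    (Real.smoothTransition.contDiff.comp ((contDiff_id.sub contDiff_const).div_const _)).mul
    (Real.smoothTransition.contDiff.comp ((contDiff_const.sub contDiff_id).div_const _))
  obtain ⟨h1, h2⟩ := contDiff_primitive β hβ
  have hβ0 : ∀ s, 0 ≤ β s := fun s =>
    mul_nonneg (Real.smoothTransition.nonneg _) (Real.smoothTransition.nonneg _)
  have hβ1 : ∀ s, β s ≤ 1 := fun s => mul_le_one₀ (Real.smoothTransition.le_one _)
    (Real.smoothTransition.nonneg _) (Real.smoothTransition.le_one _)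
  have hβz : ∀ s ≤ θ, β s = 0 := by
    intro s hs
    have : Real.smoothTransition ((s - θ) / θ) = 0 := by
      apply Real.smoothTransition.zero_of_nonpos
      apply div_nonpos_of_nonpos_of_nonneg <;> linarith
    simp only [hβdef, this, zero_mul]
  have hβz' : ∀ s, 1 - θ ≤ s → β s = 0 := by
    intro s hs
    have : Real.smoothTransition ((1 - θ - s) / θ) = 0 := by
      apply Real.smoothTransition.zero_of_nonpos
      apply div_nonpos_of_nonpos_of_nonneg <;> linarith
    simp only [hβdef, this, mul_zero]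
  have hβo : ∀ s, 2 * θ ≤ s → s ≤ 1 - 2 * θ → β s = 1 := by
    intro s hs hs'
    have e1 : Real.smoothTransition ((s - θ) / θ) = 1 := by
      apply Real.smoothTransition.one_of_one_le
      rw [one_le_div (by linarith)]
      linarith
    have e2 : Real.smoothTransition ((1 - θ - s) / θ) = 1 := by
      apply Real.smoothTransition.one_of_one_le
      rw [one_le_div (by linarith)]
      linarith
    simp only [hβdef, e1, e2, mul_one]
  have hint : ∀ a b, IntervalIntegrable β volume a b := fun a b => hβ.continuous.intervalIntegrable _ _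
  set I := ∫ s in (0:ℝ)..1, β s with hI
  have hIge : 1 - 4 * θ ≤ I := by
    have e : I = (∫ s in (0:ℝ)..(2 * θ), β s) + (∫ s in (2 * θ)..(1 - 2 * θ), β s) +
        ∫ s in (1 - 2 * θ)..1, β s := by
      rw [intervalIntegral.integral_add_adjacent_intervals (hint _ _) (hint _ _),
        intervalIntegral.integral_add_adjacent_intervals (hint _ _) (hint _ _)]
    have e1 : 0 ≤ ∫ s in (0:ℝ)..(2 * θ), β s :=
      intervalIntegral.integral_nonneg (by linarith) (fun s _ => hβ0 s)
    have e3 : 0 ≤ ∫ s in (1 - 2 * θ)..1, β s :=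
      intervalIntegral.integral_nonneg (by linarith) (fun s _ => hβ0 s)
    have e2 : ∫ s in (2 * θ)..(1 - 2 * θ), β s = ∫ s in (2 * θ)..(1 - 2 * θ), (1:ℝ) := by
      apply intervalIntegral.integral_congr
      intro s hs
      rw [uIcc_of_le (by linarith)] at hs
      exact hβo s hs.1 hs.2
    have e4 : ∫ s in (2 * θ)..(1 - 2 * θ), (1:ℝ) = 1 - 4 * θ := by
      simp
      ring
    linarith
  have hI0 : 0 < I := by linarith
  have hΘ1 : ∀ t, 1 - θ ≤ t → ∫ s in (0:ℝ)..t, β s = I := by
    intro t ht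
    have e : ∫ s in (0:ℝ)..t, β s = I + ∫ s in (1:ℝ)..t, β s :=
      (intervalIntegral.integral_add_adjacent_intervals (hint _ _) (hint _ _)).symm
    have e2 : ∫ s in (1:ℝ)..t, β s = 0 := by
      apply intervalIntegral.integral_zero_ae
      refine Filter.Eventually.of_forall fun s hs => ?_
      apply hβz'
      rcases le_total 1 t with h | h
      · rw [uIoc_of_le h] at hs
        linarith [hs.1]
      · rw [uIoc_of_ge h] at hs
        linarith [hs.1]
    rw [e, e2, add_zero]
  have hΘ0 : ∀ t ≤ θ, ∫ s in (0:ℝ)..t, β s = 0 := by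
    intro t ht
    apply intervalIntegral.integral_zero_ae
    refine Filter.Eventually.of_forall fun s hs => ?_
    apply hβz
    rcases le_total 0 t with h | h
    · rw [uIoc_of_le h] at hs
      exact hs.2.trans ht
    · rw [uIoc_of_ge h] at hs
      linarith [hs.2]
  have hmono : ∀ a b, a ≤ b → ∫ s in (0:ℝ)..a, β s ≤ ∫ s in (0:ℝ)..b, β s := by
    intro a b hab
    have e : ∫ s in (0:ℝ)..b, β s = (∫ s in (0:ℝ)..a, β s) + ∫ s in a..b, β s :=
      (intervalIntegral.integral_add_adjacent_intervals (hint _ _) (hint _ _)).symm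
    have e1 : 0 ≤ ∫ s in a..b, β s := intervalIntegral.integral_nonneg hab (fun s _ => hβ0 s)
    linarith
  refine ⟨fun t => (∫ s in (0:ℝ)..t, β s) / I, h1.div_const _, ?_, ?_, ?_, ?_⟩
  · intro t ht
    simp only [hΘ0 t ht, zero_div]
  · intro t ht
    simp only [hΘ1 t ht]
    exact div_self hI0.ne'
  · intro t
    constructor
    · apply div_nonneg _ hI0.le
      rcases le_total t θ with h | h
      · rw [hΘ0 t h]
      · calc (0:ℝ) = ∫ s in (0:ℝ)..θ, β s := (hΘ0 θ le_rfl).symm
          _ ≤ _ := hmono _ _ h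
    · rw [div_le_one hI0]
      rcases le_total t (1 - θ) with h | h
      · rw [← hΘ1 (1 - θ) le_rfl]
        exact hmono _ _ h
      · rw [hΘ1 t h]
  · intro t
    rw [((h2 t).div_const I).deriv]
    constructor
    · exact div_nonneg (hβ0 t) hI0.le
    · apply div_le_div₀ (by norm_num) (hβ1 t) (by linarith) hIge

end Pool.Agent.Helper533.BallObstacle
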