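import Pool.Agent.Helper533.BallObstacle.IBP

open MeasureTheory Metric Set

namespace Pool.Agent.Helper533.BallObstacle

theorem integrable_tsupport {N : ℕ} {w : EuclideanSpace ℝ (Fin N) → ℝ}
    {a b : EuclideanSpace ℝ (Fin N) → ℝ} (hwc : HasCompactSupport w) (ha : Continuous a)
    (has : tsupport a ⊆ tsupport w) (hb : ∀ z ∈ tsupport w, ContinuousAt b z) :
    Integrable (fun z => a z * b z) := by
  have hac : HasCompactSupport a := IsCompact.of_isClosed_subset hwc (isClosed_tsupport a) has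
  apply Continuous.integrable_of_hasCompactSupport
  · apply continuous_of_tsupport
    intro z hz
    have hz' : z ∈ tsupport w := has (tsupport_mul_subset_left hz)
    exact ha.continuousAt.mul (hb z hz')
  · exact hac.mul_right

theorem eventually_zero_of_notMem {N : ℕ} {w : EuclideanSpace ℝ (Fin N) → ℝ}
    {z : EuclideanSpace ℝ (Fin N)} (hz : z ∉ tsupport w) : w =ᶠ[nhds z] fun _ => 0 := by
  have : (tsupport w)ᶜ ∈ nhds z := (isClosed_tsupport w).isOpen_compl.mem_nhds hz
  filter_upwards [this] with y hy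
  exact image_eq_zero_of_notMem_tsupport hy

theorem integrable_fderiv_apply {N : ℕ} {w : EuclideanSpace ℝ (Fin N) → ℝ}
    {X : EuclideanSpace ℝ (Fin N) → EuclideanSpace ℝ (Fin N)} (hw : ContDiff ℝ 1 w)
    (hwc : HasCompactSupport w) (hX : ∀ z ∈ tsupport w, ContinuousAt X z) :
    Integrable (fun z => fderiv ℝ w z (X z)) := by
  have hsub : tsupport (fun z => fderiv ℝ w z (X z)) ⊆ tsupport w := by
    apply closure_minimal _ (isClosed_tsupport w)
    intro z hz
    by_contra hcon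
    apply hz
    have := (eventually_zero_of_notMem hcon).fderiv_eq (𝕜 := ℝ)
    simp only [this]
    simp
  apply Continuous.integrable_of_hasCompactSupport
  · apply continuous_of_tsupport
    intro z hz
    exact ((hw.continuous_fderiv (by norm_num)).continuousAt).clm_apply (hX z (hsub hz))
  · exact IsCompact.of_isClosed_subset hwc (isClosed_tsupport _) hsub

/-- `χ u² / v` is `C¹` as soon as `v` is `C¹` and nonzero on `tsupport u ∩ tsupport χ`. -/
theorem quot_contDiff {N : ℕ} {u χ v : EuclideanSpace ℝ (Fin N) → ℝ} (hu : ContDiff ℝ 1 u)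
    (hχ : ContDiff ℝ 1 χ)
    (hv : ∀ z ∈ tsupport u, z ∈ tsupport χ → ContDiffAt ℝ 1 v z ∧ v z ≠ 0) :
    ContDiff ℝ 1 (fun z => χ z * u z ^ 2 / v z) ∧
      tsupport (fun z => χ z * u z ^ 2 / v z) ⊆ tsupport u ∩ tsupport χ := by
  have hsub : tsupport (fun z => χ z * u z ^ 2 / v z) ⊆ tsupport u ∩ tsupport χ := by
    refine subset_inter ?_ ?_
    · apply closure_mono
      intro z hz
      rw [Function.mem_support] at hz ⊢
      intro h0
      apply hz
      simp [h0]
    · apply closure_mono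
      intro z hz
      rw [Function.mem_support] at hz ⊢
      intro h0
      apply hz
      simp [h0]
  refine ⟨?_, hsub⟩
  rw [contDiff_iff_contDiffAt]
  intro z
  by_cases hz : z ∈ tsupport (fun z => χ z * u z ^ 2 / v z)
  · obtain ⟨h1, h2⟩ := hsub hz
    obtain ⟨h3, h4⟩ := hv z h1 h2
    exact (hχ.contDiffAt.mul (hu.contDiffAt.pow 2)).div h3 h4
  · exact (contDiffAt_const (c := (0:ℝ))).congr_of_eventuallyEq (eventually_zero_of_notMem hz)

/-- Gluing two positive supersolutions with a cut-off. -/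
theorem two_patch {N : ℕ} (u χ v₁ v₂ : EuclideanSpace ℝ (Fin N) → ℝ)
    (X₁ X₂ : EuclideanSpace ℝ (Fin N) → EuclideanSpace ℝ (Fin N)) (lam : ℝ)
    (hu : ContDiff ℝ 1 u) (huc : HasCompactSupport u)
    (hχ : ContDiff ℝ 1 χ) (hχ0 : ∀ z, 0 ≤ χ z) (hχ1 : ∀ z, χ z ≤ 1)
    (h1 : ∀ z ∈ tsupport u, z ∈ tsupport χ →
      0 < v₁ z ∧ ContDiffAt ℝ 1 v₁ z ∧ HasFDerivAt v₁ (innerSL ℝ (X₁ z)) z ∧ ContinuousAt X₁ z)
    (h2 : ∀ z ∈ tsupport u, z ∈ tsupport (fun z => 1 - χ z) →
      0 < v₂ z ∧ ContDiffAt ℝ 1 v₂ z ∧ HasFDerivAt v₂ (innerSL ℝ (X₂ z)) z ∧ ContinuousAt X₂ z)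
    (hcross : ∀ z ∈ tsupport u, fderiv ℝ χ z (X₁ z) / v₁ z ≤ fderiv ℝ χ z (X₂ z) / v₂ z)
    (hI1 : lam * ∫ z, χ z * u z ^ 2 ≤
      ∫ z, fderiv ℝ (fun y => χ y * u y ^ 2 / v₁ y) z (X₁ z))
    (hI2 : lam * ∫ z, (1 - χ z) * u z ^ 2 ≤
      ∫ z, fderiv ℝ (fun y => (1 - χ y) * u y ^ 2 / v₂ y) z (X₂ z)) :
    lam * ∫ z, u z ^ 2 ≤ ∫ z, ‖gradient u z‖ ^ 2 := by
  have hud : Differentiable ℝ u := hu.differentiable (by norm_num)
  have hχd : Differentiable ℝ χ := hχ.differentiable (by norm_num)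
  have hχ' : ContDiff ℝ 1 (fun z => 1 - χ z) := contDiff_const.sub hχ
  have hχd' : Differentiable ℝ (fun z => 1 - χ z) := hχ'.differentiable (by norm_num)
  obtain ⟨hw1, hs1⟩ := quot_contDiff (v := v₁) hu hχ (fun z hz hz' => ⟨(h1 z hz hz').2.1, (h1 z hz hz').1.ne'⟩)
  obtain ⟨hw2, hs2⟩ := quot_contDiff (v := v₂) hu hχ' (fun z hz hz' => ⟨(h2 z hz hz').2.1, (h2 z hz hz').1.ne'⟩)
  have hwc1 : HasCompactSupport (fun y => χ y * u y ^ 2 / v₁ y) :=
    IsCompact.of_isClosed_subset huc (isClosed_tsupport _) (fun z hz => (hs1 hz).1)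
  have hwc2 : HasCompactSupport (fun y => (1 - χ y) * u y ^ 2 / v₂ y) :=
    IsCompact.of_isClosed_subset huc (isClosed_tsupport _) (fun z hz => (hs2 hz).1)
  -- integrability
  have int1 : Integrable (fun z => fderiv ℝ (fun y => χ y * u y ^ 2 / v₁ y) z (X₁ z)) :=
    integrable_fderiv_apply hw1 hwc1 (fun z hz => (h1 z (hs1 hz).1 (hs1 hz).2).2.2.2)
  have int2 : Integrable (fun z => fderiv ℝ (fun y => (1 - χ y) * u y ^ 2 / v₂ y) z (X₂ z)) :=
    integrable_fderiv_apply hw2 hwc2 (fun z hz => (h2 z (hs2 hz).1 (hs2 hz).2).2.2.2)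
  have hgc : Continuous (fun z => gradient u z) := by
    unfold gradient
    exact (LinearIsometryEquiv.continuous _).comp (hu.continuous_fderiv (by norm_num))
  have hgs : HasCompactSupport (fun z => ‖gradient u z‖ ^ 2) := by
    apply IsCompact.of_isClosed_subset huc (isClosed_tsupport _)
    apply closure_minimal _ (isClosed_tsupport u)
    intro z hz
    by_contra hcon
    apply hz
    have := (eventually_zero_of_notMem hcon).fderiv_eq (𝕜 := ℝ)
    simp [gradient, this]
  have int3 : Integrable (fun z => ‖gradient u z‖ ^ 2) :=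
    Continuous.integrable_of_hasCompactSupport (hgc.norm.pow 2) hgs
  have int4 : Integrable (fun z => χ z * u z ^ 2) := by
    apply Continuous.integrable_of_hasCompactSupport (hχ.continuous.mul (hu.continuous.pow 2))
    apply IsCompact.of_isClosed_subset huc (isClosed_tsupport _)
    apply closure_mono
    intro z hz
    rw [Function.mem_support] at hz ⊢
    intro h0
    apply hz
    simp [h0]
  have int5 : Integrable (fun z => (1 - χ z) * u z ^ 2) := by
    apply Continuous.integrable_of_hasCompactSupport (hχ'.continuous.mul (hu.continuous.pow 2))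
    apply IsCompact.of_isClosed_subset huc (isClosed_tsupport _)
    apply closure_mono
    intro z hz
    rw [Function.mem_support] at hz ⊢
    intro h0
    apply hz
    simp [h0]
  -- pointwise
  have hp1 : ∀ z, fderiv ℝ (fun y => χ y * u y ^ 2 / v₁ y) z (X₁ z) ≤
      χ z * ‖gradient u z‖ ^ 2 + u z ^ 2 * (fderiv ℝ χ z (X₁ z) / v₁ z) := by
    intro z
    by_cases hz : z ∈ tsupport u ∧ z ∈ tsupport χ
    · obtain ⟨ha, hb, hc, hd⟩ := h1 z hz.1 hz.2
      have := picone_pointwise u χ v₁ (X₁ z) z (hud z) (hχd z) hc ha (hχ0 z)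
      rw [mul_div_assoc] at this
      exact this
    · have h0 : z ∉ tsupport (fun y => χ y * u y ^ 2 / v₁ y) := fun h => hz (hs1 h)
      rw [(eventually_zero_of_notMem h0).fderiv_eq (𝕜 := ℝ)]
      rw [not_and_or] at hz
      rcases hz with hz | hz
      · have : u z = 0 := image_eq_zero_of_notMem_tsupport hz
        simp [this]
        exact mul_nonneg (hχ0 z) (by positivity)
      · have h5 := (eventually_zero_of_notMem hz).fderiv_eq (𝕜 := ℝ)
        have : χ z = 0 := image_eq_zero_of_notMem_tsupport hz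
        simp [this, h5]
  have hp2 : ∀ z, fderiv ℝ (fun y => (1 - χ y) * u y ^ 2 / v₂ y) z (X₂ z) ≤
      (1 - χ z) * ‖gradient u z‖ ^ 2 - u z ^ 2 * (fderiv ℝ χ z (X₂ z) / v₂ z) := by
    intro z
    have hfd : fderiv ℝ (fun z => 1 - χ z) z = - fderiv ℝ χ z := by
      rw [fderiv_const_sub]
    by_cases hz : z ∈ tsupport u ∧ z ∈ tsupport (fun z => 1 - χ z)
    · obtain ⟨ha, hb, hc, hd⟩ := h2 z hz.1 hz.2
      have := picone_pointwise u (fun z => 1 - χ z) v₂ (X₂ z) z (hud z) (hχd' z) hc ha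
        (by linarith [hχ1 z])
      rw [hfd] at this
      have h6 : u z ^ 2 * (-fderiv ℝ χ z) (X₂ z) / v₂ z = - (u z ^ 2 * (fderiv ℝ χ z (X₂ z) / v₂ z)) := by
        rw [neg_apply]
        ring
      rw [h6] at this
      linarith
    · have h0 : z ∉ tsupport (fun y => (1 - χ y) * u y ^ 2 / v₂ y) := fun h => hz (hs2 h)
      rw [(eventually_zero_of_notMem h0).fderiv_eq (𝕜 := ℝ)]
      rw [not_and_or] at hz
      rcases hz with hz | hz
      · have : u z = 0 := image_eq_zero_of_notMem_tsupport hz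
        simp [this]
        exact mul_nonneg (by linarith [hχ1 z]) (by positivity)
      · have h5 := (eventually_zero_of_notMem hz).fderiv_eq (𝕜 := ℝ)
        have h7 : 1 - χ z = 0 := image_eq_zero_of_notMem_tsupport (f := fun z => 1 - χ z) hz
        have h8 : fderiv ℝ χ z = 0 := by
          rw [hfd] at h5
          simpa using h5
        simp [h7, h8]
  have hp : ∀ z, fderiv ℝ (fun y => χ y * u y ^ 2 / v₁ y) z (X₁ z) +
      fderiv ℝ (fun y => (1 - χ y) * u y ^ 2 / v₂ y) z (X₂ z) ≤ ‖gradient u z‖ ^ 2 := by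
    intro z
    by_cases hz : z ∈ tsupport u
    · have e1 := hp1 z
      have e2 := hp2 z
      have e3 := hcross z hz
      have e4 : u z ^ 2 * (fderiv ℝ χ z (X₁ z) / v₁ z) ≤ u z ^ 2 * (fderiv ℝ χ z (X₂ z) / v₂ z) :=
        mul_le_mul_of_nonneg_left e3 (by positivity)
      linarith
    · have h0 : u z = 0 := image_eq_zero_of_notMem_tsupport hz
      have e1 := hp1 z
      have e2 := hp2 z
      simp only [h0] at e1 e2
      have : (0:ℝ) ^ 2 = 0 := by norm_num
      rw [this, zero_mul] at e1 e2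
      linarith
  calc lam * ∫ z, u z ^ 2 = (lam * ∫ z, χ z * u z ^ 2) + (lam * ∫ z, (1 - χ z) * u z ^ 2) := by
        rw [← mul_add, ← integral_add int4 int5]
        congr 2
        ext z
        ring
    _ ≤ (∫ z, fderiv ℝ (fun y => χ y * u y ^ 2 / v₁ y) z (X₁ z)) +
        ∫ z, fderiv ℝ (fun y => (1 - χ y) * u y ^ 2 / v₂ y) z (X₂ z) := add_le_add hI1 hI2
    _ = ∫ z, (fderiv ℝ (fun y => χ y * u y ^ 2 / v₁ y) z (X₁ z) +
        fderiv ℝ (fun y => (1 - χ y) * u y ^ 2 / v₂ y) z (X₂ z)) := (integral_add int1 int2).symm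
    _ ≤ ∫ z, ‖gradient u z‖ ^ 2 := integral_mono (int1.add int2) int3 hp

end Pool.Agent.Helper533.BallObstacle
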