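import Pool.Agent.Helper533.BallObstacle.Radial

open MeasureTheory Metric Set

namespace Pool.Agent.Helper533.BallObstacle

theorem gradient_of_innerSL {N : ℕ} {f : EuclideanSpace ℝ (Fin N) → ℝ}
    {X z : EuclideanSpace ℝ (Fin N)} (h : HasFDerivAt f (innerSL ℝ X) z) : gradient f z = X := by
  rw [gradient, h.fderiv]
  rw [LinearIsometryEquiv.symm_apply_eq]
  rfl

theorem gradient_zero_of_eventually {N : ℕ} {f : EuclideanSpace ℝ (Fin N) → ℝ} {c : ℝ}
    {z : EuclideanSpace ℝ (Fin N)} (h : f =ᶠ[nhds z] fun _ => c) : gradient f z = 0 := by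
  rw [gradient, h.fderiv_eq]
  simp

/-- A smooth, compactly supported approximation of the radial ground state of the shell. -/
theorem exists_profile (R : ℝ) (hR : 1 < R) (δ : ℝ) (hδ : 0 < δ) :
    ∃ ψ : EuclideanSpace ℝ (Fin 3) → ℝ, ContDiff ℝ (⊤ : ℕ∞) ψ ∧ HasCompactSupport ψ ∧
      (∀ z ∈ tsupport ψ, 1 < ‖z‖ ∧ ‖z‖ < R) ∧ (∀ z, 0 ≤ ψ z) ∧
      (∀ z, 1 < ‖z‖ → ‖z‖ < R → farg (Real.pi / (R - 1)) 1 ‖z‖ - δ ≤ ψ z ∧
        ψ z ≤ farg (Real.pi / (R - 1)) 1 ‖z‖) ∧
      (∀ z, ‖gradient ψ z‖ ^ 2 ≤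
        (Ioo 1 R).indicator (fun r => (farg' (Real.pi / (R - 1)) 1 r) ^ 2) ‖z‖) := by
  obtain ⟨Φ, hΦ, hΦ0, hΦd, hΦb⟩ := exists_Phi δ hδ
  set k := Real.pi / (R - 1) with hk
  have hR1 : 0 < R - 1 := by linarith
  have hk0 : 0 < k := by have := Real.pi_pos; positivity
  have hkR : k * (R - 1) = Real.pi := by rw [hk]; field_simp
  classical
  set ψ : EuclideanSpace ℝ (Fin 3) → ℝ := fun z =>
    if 1 < ‖z‖ ∧ ‖z‖ < R then Φ (farg k 1 ‖z‖) else 0 with hψ
  set T : Set (EuclideanSpace ℝ (Fin 3)) :=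
    {z | (1 ≤ ‖z‖ ∧ ‖z‖ ≤ R) ∧ δ / 2 * ‖z‖ ≤ Real.sin (k * (‖z‖ - 1))} with hT
  have hTc : IsClosed T := by
    have e : T = ({z | 1 ≤ ‖z‖} ∩ {z | ‖z‖ ≤ R}) ∩
        {z : EuclideanSpace ℝ (Fin 3) | δ / 2 * ‖z‖ ≤ Real.sin (k * (‖z‖ - 1))} := by
      ext z
      simp [hT]
    rw [e]
    apply IsClosed.inter
    · exact (isClosed_le continuous_const continuous_norm).inter (isClosed_le continuous_norm continuous_const)
    · apply isClosed_le <;> fun_prop
  have hTsub : T ⊆ closedBall 0 R := by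
    intro z hz
    rw [mem_closedBall_zero_iff]
    exact hz.1.2
  have hTcomp : IsCompact T := (isCompact_closedBall _ _).of_isClosed_subset hTc hTsub
  have hTin : ∀ z ∈ T, 1 < ‖z‖ ∧ ‖z‖ < R := by
    intro z hz
    obtain ⟨⟨h1, h2⟩, h3⟩ := hz
    have hpos : 0 < δ / 2 * ‖z‖ := mul_pos (by linarith) (by linarith)
    constructor
    · rcases h1.lt_or_eq with h | h
      · exact h
      · rw [← h] at h3 hpos
        simp at h3
        linarith
    · rcases h2.lt_or_eq with h | h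
      · exact h
      · rw [h, hkR, Real.sin_pi] at h3
        rw [h] at hpos
        linarith
  have hsupp : Function.support ψ ⊆ T := by
    intro z hz
    rw [Function.mem_support] at hz
    by_cases h : 1 < ‖z‖ ∧ ‖z‖ < R
    · refine ⟨⟨h.1.le, h.2.le⟩, ?_⟩
      by_contra hcon
      push Not at hcon
      apply hz
      simp only [hψ, h, and_self, if_true]
      apply hΦ0
      unfold farg
      have : (0:ℝ) < ‖z‖ := by linarith [h.1]
      rw [div_le_iff₀ this]
      exact hcon.le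
    · exact absurd (by simp [hψ, h]) hz
  have htsupp : tsupport ψ ⊆ T := closure_minimal hsupp hTc
  have hloc : ∀ z, 1 < ‖z‖ → ‖z‖ < R → ψ =ᶠ[nhds z] fun y => Φ (farg k 1 ‖y‖) := by
    intro z h1 h2
    have hop : IsOpen {y : EuclideanSpace ℝ (Fin 3) | 1 < ‖y‖ ∧ ‖y‖ < R} :=
      (isOpen_lt continuous_const continuous_norm).inter (isOpen_lt continuous_norm continuous_const)
    have : {y : EuclideanSpace ℝ (Fin 3) | 1 < ‖y‖ ∧ ‖y‖ < R} ∈ nhds z :=
      hop.mem_nhds ⟨h1, h2⟩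
    filter_upwards [this] with y hy
    have hy1 : 1 < ‖y‖ := hy.1
    have hy2 : ‖y‖ < R := hy.2
    simp only [hψ, hy1, hy2, and_self, if_true]
  have hz0 : ∀ z : EuclideanSpace ℝ (Fin 3), 1 < ‖z‖ → z ≠ 0 := by
    rintro z h rfl
    simp at h
    linarith
  refine ⟨ψ, ?_, ?_, fun z hz => hTin z (htsupp hz), ?_, ?_, ?_⟩
  · rw [contDiff_iff_contDiffAt]
    intro z
    by_cases hz : z ∈ T
    · obtain ⟨h1, h2⟩ := hTin z hz
      have h3 : ContDiffAt ℝ (⊤ : ℕ∞) (fun y : EuclideanSpace ℝ (Fin 3) => Φ (farg k 1 ‖y‖)) z :=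
        hΦ.contDiffAt.comp z (farV_contDiffAt k 1 z (hz0 z h1))
      exact h3.congr_of_eventuallyEq (hloc z h1 h2)
    · have : Tᶜ ∈ nhds z := hTc.isOpen_compl.mem_nhds hz
      have h4 : ψ =ᶠ[nhds z] fun _ => 0 := by
        filter_upwards [this] with y hy
        by_contra hcon
        exact hy (hsupp hcon)
      exact contDiffAt_const.congr_of_eventuallyEq h4
  · exact hTcomp.of_isClosed_subset (isClosed_tsupport _) htsupp
  · intro z
    simp only [hψ]
    split_ifs with h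
    · exact (hΦb _ (farg_le R _ hR h.1.le h.2.le).1).2.2
    · exact le_rfl
  · intro z h1 h2
    simp only [hψ, h1, h2, and_self, if_true]
    have := hΦb _ (farg_le R _ hR h1.le h2.le).1
    exact ⟨this.1, this.2.1⟩
  · intro z
    by_cases hz : 1 < ‖z‖ ∧ ‖z‖ < R
    · obtain ⟨h1, h2⟩ := hz
      have hm : ‖z‖ ∈ Ioo 1 R := ⟨h1, h2⟩
      rw [indicator_of_mem hm]
      have hn0 : ‖z‖ ≠ 0 := by linarith
      have h5 : HasFDerivAt (fun y : EuclideanSpace ℝ (Fin 3) => Φ (farg k 1 ‖y‖))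
          (innerSL ℝ ((deriv Φ (farg k 1 ‖z‖) * farg' k 1 ‖z‖ / ‖z‖) • z)) z := by
        have h6 : HasDerivAt (fun r => Φ (farg k 1 r)) (deriv Φ (farg k 1 ‖z‖) * farg' k 1 ‖z‖) ‖z‖ :=
          (((hΦ.differentiable (by simp)) _).hasDerivAt).comp _ (hasDerivAt_farg k 1 _ hn0)
        have h7 := hasFDerivAt_radial 0 z (hz0 z h1) (fun r => Φ (farg k 1 r)) _ (by rw [sub_zero]; exact h6)
        simp only [sub_zero] at h7
        exact h7
      have h8 := h5.congr_of_eventuallyEq (hloc z h1 h2)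
      rw [gradient_of_innerSL h8, norm_smul, Real.norm_eq_abs, abs_div, abs_mul, abs_of_nonneg (norm_nonneg z)]
      rw [div_mul_cancel₀ _ hn0, mul_pow, sq_abs, sq_abs]
      have hd := hΦd (farg k 1 ‖z‖)
      have h9 : deriv Φ (farg k 1 ‖z‖) ^ 2 ≤ 1 := by nlinarith [hd.1, hd.2]
      have := sq_nonneg (farg' k 1 ‖z‖)
      nlinarith
    · have hm : ‖z‖ ∉ Ioo 1 R := hz
      rw [indicator_of_notMem hm]
      have hz' : z ∉ T := fun h => hz (hTin z h)
      have : Tᶜ ∈ nhds z := hTc.isOpen_compl.mem_nhds hz'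
      have h4 : ψ =ᶠ[nhds z] fun _ => 0 := by
        filter_upwards [this] with y hy
        by_contra hcon
        exact hy (hsupp hcon)
      rw [gradient_zero_of_eventually h4]
      simp

/-- Near optimal smooth cut-off vanishing around a small ball. -/
theorem exists_hole (θ : ℝ) (hθ : 0 < θ) (hθ1 : θ < 1 / 8) (c : EuclideanSpace ℝ (Fin 3)) (ρ : ℝ)
    (hρ : 0 < ρ) :
    ∃ η : EuclideanSpace ℝ (Fin 3) → ℝ, ContDiff ℝ (⊤ : ℕ∞) η ∧ (∀ z, 0 ≤ η z ∧ η z ≤ 1) ∧
      (∀ z, ‖z - c‖ ≤ ρ / (1 - θ) → η z = 0) ∧ (∀ z, ρ / θ ≤ ‖z - c‖ → η z = 1) ∧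
      (∀ z, ‖gradient η z‖ ≤
        (Ioo ρ (2 * ρ / θ)).indicator (fun r => 1 / (1 - 4 * θ) * ρ / r ^ 2) ‖z - c‖) := by
  obtain ⟨Θ, hΘ, hΘ0, hΘ1, hΘb, hΘd⟩ := exists_Theta θ hθ hθ1
  classical
  set η : EuclideanSpace ℝ (Fin 3) → ℝ := fun z => if z = c then 0 else Θ (1 - ρ / ‖z - c‖) with hη
  have h1θ : 0 < 1 - θ := by linarith
  have hzero : ∀ z, ‖z - c‖ ≤ ρ / (1 - θ) → η z = 0 := by
    intro z hz
    simp only [hη]
    split_ifs with h
    · rfl
    · apply hΘ0
      have hp : 0 < ‖z - c‖ := norm_pos_iff.mpr (sub_ne_zero.mpr h)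
      rw [le_div_iff₀ h1θ] at hz
      have : 1 - θ ≤ ρ / ‖z - c‖ := by
        rw [le_div_iff₀ hp]; linarith
      linarith
  have hone : ∀ z, ρ / θ ≤ ‖z - c‖ → η z = 1 := by
    intro z hz
    have hp : 0 < ‖z - c‖ := lt_of_lt_of_le (by positivity) hz
    have h : z ≠ c := by
      rintro rfl
      simp at hp
    simp only [hη, h, if_false]
    apply hΘ1
    rw [div_le_iff₀ hθ] at hz
    have : ρ / ‖z - c‖ ≤ θ := by
      rw [div_le_iff₀ hp]; linarith
    linarith
  have hloc : ∀ z, z ≠ c → η =ᶠ[nhds z] fun y => Θ (1 - ρ / ‖y - c‖) := by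
    intro z hz
    have : {y : EuclideanSpace ℝ (Fin 3) | y ≠ c} ∈ nhds z := isOpen_ne.mem_nhds hz
    filter_upwards [this] with y hy
    have hy' : y ≠ c := hy
    simp only [hη, hy', if_false]
  have hρθ : ρ < ρ / (1 - θ) := by
    rw [lt_div_iff₀ h1θ]; nlinarith
  refine ⟨η, ?_, ?_, hzero, hone, ?_⟩
  · rw [contDiff_iff_contDiffAt]
    intro z
    by_cases hz : z = c
    · have : ball c ρ ∈ nhds z := by rw [hz]; exact ball_mem_nhds _ hρ
      have h4 : η =ᶠ[nhds z] fun _ => 0 := by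
        filter_upwards [this] with y hy
        apply hzero
        rw [mem_ball, dist_eq_norm] at hy
        linarith
      exact contDiffAt_const.congr_of_eventuallyEq h4
    · have hp : ‖z - c‖ ≠ 0 := norm_ne_zero_iff.mpr (sub_ne_zero.mpr hz)
      have h3 : ContDiffAt ℝ (⊤ : ℕ∞) (fun y : EuclideanSpace ℝ (Fin 3) => Θ (1 - ρ / ‖y - c‖)) z :=
        hΘ.contDiffAt.comp z (contDiffAt_const.sub (contDiffAt_const.div (contDiffAt_norm_sub c z hz) hp))
      exact h3.congr_of_eventuallyEq (hloc z hz)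
  · intro z
    simp only [hη]
    split_ifs with h
    · exact ⟨le_rfl, by norm_num⟩
    · exact hΘb _
  · intro z
    have hnn : 0 ≤ (Ioo ρ (2 * ρ / θ)).indicator (fun r => 1 / (1 - 4 * θ) * ρ / r ^ 2) ‖z - c‖ := by
      apply indicator_nonneg
      intro r _
      have : 0 < 1 - 4 * θ := by linarith
      positivity
    by_cases h1 : ‖z - c‖ ≤ ρ
    · have : ball c (ρ / (1 - θ)) ∈ nhds z := by
        apply isOpen_ball.mem_nhds
        rw [mem_ball, dist_eq_norm]
        linarith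
      have h4 : η =ᶠ[nhds z] fun _ => 0 := by
        filter_upwards [this] with y hy
        apply hzero
        rw [mem_ball, dist_eq_norm] at hy
        exact hy.le
      rw [gradient_zero_of_eventually h4, norm_zero]
      exact hnn
    · by_cases h2 : 2 * ρ / θ ≤ ‖z - c‖
      · have h3 : ρ / θ < ‖z - c‖ := by
          have : ρ / θ < 2 * ρ / θ := by
            apply div_lt_div_of_pos_right _ hθ
            linarith
          linarith
        have hop : IsOpen {y : EuclideanSpace ℝ (Fin 3) | ρ / θ < ‖y - c‖} :=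
          isOpen_lt continuous_const (by fun_prop)
        have : {y : EuclideanSpace ℝ (Fin 3) | ρ / θ < ‖y - c‖} ∈ nhds z := hop.mem_nhds h3
        have h4 : η =ᶠ[nhds z] fun _ => 1 := by
          filter_upwards [this] with y hy
          exact hone y (le_of_lt hy)
        rw [gradient_zero_of_eventually h4, norm_zero]
        exact hnn
      · push Not at h1 h2
        have hm : ‖z - c‖ ∈ Ioo ρ (2 * ρ / θ) := ⟨h1, h2⟩
        rw [indicator_of_mem hm]
        have hz : z ≠ c := by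
          rintro rfl
          simp at h1
          linarith
        have hp : 0 < ‖z - c‖ := by linarith
        have h6 : HasDerivAt (fun r => Θ (1 - ρ / r)) (deriv Θ (1 - ρ / ‖z - c‖) * (ρ / ‖z - c‖ ^ 2)) ‖z - c‖ := by
          have h7 : HasDerivAt (fun r => 1 - ρ / r) (ρ / ‖z - c‖ ^ 2) ‖z - c‖ := by
            have h8 := ((hasDerivAt_inv hp.ne').const_mul ρ).const_sub 1
            have e : (fun r : ℝ => 1 - ρ / r) = fun r => 1 - ρ * r⁻¹ := by
              funext r; rw [div_eq_mul_inv]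
            rw [e]
            refine h8.congr_deriv ?_
            field_simp
          exact HasDerivAt.comp (h₂ := Θ) (h := fun r : ℝ => 1 - ρ / r) _
            (((hΘ.differentiable (by simp)) _).hasDerivAt) h7
        have h9 := hasFDerivAt_radial c z hz (fun r => Θ (1 - ρ / r)) _ h6
        have h10 := h9.congr_of_eventuallyEq (hloc z hz)
        rw [gradient_of_innerSL h10, norm_smul, Real.norm_eq_abs, abs_div, abs_mul,
          abs_of_nonneg (norm_nonneg (z - c)), div_mul_cancel₀ _ hp.ne', abs_of_nonneg (hΘd _).1,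
          abs_of_nonneg (by positivity : 0 ≤ ρ / ‖z - c‖ ^ 2), mul_div_assoc]
        exact mul_le_mul_of_nonneg_right (hΘd _).2 (by positivity)

end Pool.Agent.Helper533.BallObstacle
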