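import Pool.Agent.Helper533.BallObstacle.Fields
import Pool.Agent.Helper533.BallObstacle.OneVar

open MeasureTheory Metric Set

namespace Pool.Agent.Helper533.BallObstacle

/-- Surface measure of the unit sphere of three dimensional space. -/
noncomputable def om : ℝ := 3 * (volume : Measure (EuclideanSpace ℝ (Fin 3))).real (ball 0 1)

theorem om_pos : 0 < om := by
  unfold om
  have : 0 < (volume : Measure (EuclideanSpace ℝ (Fin 3))).real (ball 0 1) := by
    rw [Measure.real, ENNReal.toReal_pos_iff]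
    exact ⟨measure_ball_pos _ _ one_pos, measure_ball_lt_top⟩
  positivity

theorem radial_integral (f : ℝ → ℝ) (a b : ℝ) (ha : 0 ≤ a) (hab : a ≤ b) :
    ∫ z : EuclideanSpace ℝ (Fin 3), (Ioo a b).indicator f ‖z‖ = om * ∫ r in a..b, r ^ 2 * f r := by
  rw [integral_fun_norm_addHaar (volume : Measure (EuclideanSpace ℝ (Fin 3))) ((Ioo a b).indicator f)]
  simp only [finrank_euclideanSpace, Fintype.card_fin, smul_eq_mul, nsmul_eq_mul]
  rw [← mul_assoc]
  congr 1
  have e1 : ∀ y : ℝ, y ^ (3 - 1) * (Ioo a b).indicator f y = (Ioo a b).indicator (fun y => y ^ 2 * f y) y := by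
    intro y
    by_cases h : y ∈ Ioo a b
    · simp [h]
    · simp [h]
  simp_rw [e1]
  rw [setIntegral_indicator measurableSet_Ioo, intervalIntegral.integral_of_le hab,
    integral_Ioc_eq_integral_Ioo]
  congr 2
  ext y
  simp only [mem_inter_iff, mem_Ioi, mem_Ioo]
  constructor
  · rintro ⟨_, h⟩; exact h
  · intro h; exact ⟨lt_of_le_of_lt ha h.1, h⟩

theorem int_M1 (R : ℝ) (hR : 1 < R) :
    ∫ r in (1:ℝ)..R, r ^ 2 * (farg (Real.pi / (R - 1)) 1 r) ^ 2 = (R - 1) / 2 := by
  set k := Real.pi / (R - 1) with hk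
  have hR1 : 0 < R - 1 := by linarith
  have hk0 : 0 < k := by have := Real.pi_pos; positivity
  have hkR : k * (R - 1) = Real.pi := by rw [hk]; field_simp
  have e : ∫ r in (1:ℝ)..R, r ^ 2 * (farg k 1 r) ^ 2 = ∫ r in (1:ℝ)..R, Real.sin (k * (r - 1)) ^ 2 := by
    apply intervalIntegral.integral_congr
    intro r hr
    rw [uIcc_of_le hR.le] at hr
    have : r ≠ 0 := by linarith [hr.1]
    simp only [farg]
    field_simp
  rw [e]
  have hd : ∀ r ∈ uIcc 1 R, HasDerivAt (fun r => r / 2 - Real.sin (2 * (k * (r - 1))) / (4 * k))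
      (Real.sin (k * (r - 1)) ^ 2) r := by
    intro r _
    have h1 : HasDerivAt (fun r => 2 * (k * (r - 1))) (2 * k) r := by
      simpa using (((hasDerivAt_id r).sub_const 1).const_mul k).const_mul 2
    have h2 := ((hasDerivAt_id r).div_const 2).sub ((h1.sin).div_const (4 * k))
    refine h2.congr_deriv ?_
    rw [Real.cos_two_mul]
    have := Real.sin_sq_add_cos_sq (k * (r - 1))
    field_simp
    linarith
  rw [intervalIntegral.integral_eq_sub_of_hasDerivAt hd]
  · rw [hkR, Real.sin_two_pi]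
    simp
    ring
  · apply Continuous.intervalIntegrable
    fun_prop

theorem int_M2 (R : ℝ) (hR : 1 < R) :
    ∫ r in (1:ℝ)..R, r ^ 2 * (farg' (Real.pi / (R - 1)) 1 r) ^ 2 =
      (Real.pi / (R - 1)) ^ 2 * (R - 1) / 2 := by
  set k := Real.pi / (R - 1) with hk
  have hR1 : 0 < R - 1 := by linarith
  have hk0 : 0 < k := by have := Real.pi_pos; positivity
  have hkR : k * (R - 1) = Real.pi := by rw [hk]; field_simp
  have hd : ∀ r ∈ uIcc 1 R, HasDerivAt (fun r => k ^ 2 * r / 2 + k * Real.sin (2 * (k * (r - 1))) / 4 -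
      Real.sin (k * (r - 1)) ^ 2 / r) (r ^ 2 * (farg' k 1 r) ^ 2) r := by
    intro r hr
    rw [uIcc_of_le hR.le] at hr
    have hr0 : r ≠ 0 := by linarith [hr.1]
    have h0 : HasDerivAt (fun r => k * (r - 1)) k r := by
      simpa using ((hasDerivAt_id r).sub_const 1).const_mul k
    have h1 : HasDerivAt (fun r => 2 * (k * (r - 1))) (2 * k) r := h0.const_mul 2
    have h2 := ((((hasDerivAt_id r).const_mul (k ^ 2)).div_const 2).add
      (((h1.sin).const_mul k).div_const 4)).sub (((h0.sin).pow 2).div (hasDerivAt_id r) hr0)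
    refine h2.congr_deriv ?_
    simp only [id, farg', Pi.pow_apply]
    rw [Real.cos_two_mul]
    have := Real.sin_sq_add_cos_sq (k * (r - 1))
    field_simp
    ring
  rw [intervalIntegral.integral_eq_sub_of_hasDerivAt hd]
  · rw [hkR, Real.sin_two_pi, Real.sin_pi]
    simp
    ring
  · apply ContinuousOn.intervalIntegrable
    intro r hr
    rw [uIcc_of_le hR.le] at hr
    have hr0 : r ≠ 0 := by linarith [hr.1]
    apply ContinuousAt.continuousWithinAt
    unfold farg'
    have h1 : ContinuousAt (fun r : ℝ => k * Real.cos (k * (r - 1))) r := by fun_prop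
    have h2 : ContinuousAt (fun r : ℝ => Real.sin (k * (r - 1))) r := by fun_prop
    have h3 : ContinuousAt (fun r : ℝ => r ^ 2) r := by fun_prop
    exact h3.mul (((h1.div continuousAt_id hr0).sub (h2.div h3 (by positivity))).pow 2)

theorem int_M3 (a b : ℝ) (ha : 0 < a) (hab : a ≤ b) :
    ∫ r in a..b, r ^ 2 * (1 / r ^ 4) = 1 / a - 1 / b := by
  have hd : ∀ r ∈ uIcc a b, HasDerivAt (fun r : ℝ => - (1 / r)) (r ^ 2 * (1 / r ^ 4)) r := by
    intro r hr
    rw [uIcc_of_le hab] at hr
    have hr0 : r ≠ 0 := by linarith [hr.1]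
    have h1 := (hasDerivAt_inv hr0).neg
    have e : (fun r : ℝ => - (1 / r)) = fun r => - r⁻¹ := by
      funext r; simp
    rw [e]
    refine h1.congr_deriv ?_
    field_simp
  rw [intervalIntegral.integral_eq_sub_of_hasDerivAt hd]
  · ring
  · apply ContinuousOn.intervalIntegrable
    intro r hr
    rw [uIcc_of_le hab] at hr
    have hr0 : r ≠ 0 := by linarith [hr.1]
    apply ContinuousAt.continuousWithinAt
    have h3 : ContinuousAt (fun r : ℝ => r ^ 2) r := by fun_prop
    have h4 : ContinuousAt (fun r : ℝ => r ^ 4) r := by fun_prop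
    exact h3.mul (continuousAt_const.div h4 (by positivity))

/-- Sup bound for the radial field. -/
theorem farg_le (R r : ℝ) (hR : 1 < R) (hr : 1 ≤ r) (hrR : r ≤ R) :
    0 ≤ farg (Real.pi / (R - 1)) 1 r ∧ farg (Real.pi / (R - 1)) 1 r ≤ Real.pi / (R - 1) * (1 - 1 / r) := by
  set k := Real.pi / (R - 1) with hk
  have hR1 : 0 < R - 1 := by linarith
  have hk0 : 0 < k := by have := Real.pi_pos; positivity
  have hkR : k * (R - 1) = Real.pi := by rw [hk]; field_simp
  have h0 : 0 ≤ k * (r - 1) := mul_nonneg hk0.le (by linarith)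
  have hr0 : 0 < r := by linarith
  unfold farg
  constructor
  · apply div_nonneg _ hr0.le
    apply Real.sin_nonneg_of_nonneg_of_le_pi h0
    rw [← hkR]
    exact mul_le_mul_of_nonneg_left (by linarith) hk0.le
  · have e : k * (1 - 1 / r) = k * (r - 1) / r := by field_simp
    rw [e]
    exact div_le_div_of_nonneg_right (Real.sin_le h0) hr0.le

theorem farg'_le (R r : ℝ) (hR : 1 < R) (hr : 1 ≤ r) :
    |farg' (Real.pi / (R - 1)) 1 r| ≤ 2 * (Real.pi / (R - 1)) := by
  set k := Real.pi / (R - 1) with hk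
  have hR1 : 0 < R - 1 := by linarith
  have hk0 : 0 < k := by have := Real.pi_pos; positivity
  have hr0 : 0 < r := by linarith
  unfold farg'
  have h0 : 0 ≤ k * (r - 1) := mul_nonneg hk0.le (by linarith)
  have h1 : |k * Real.cos (k * (r - 1)) / r| ≤ k := by
    rw [abs_div, abs_mul, abs_of_pos hk0, abs_of_pos hr0, div_le_iff₀ hr0]
    have := Real.abs_cos_le_one (k * (r - 1))
    nlinarith
  have h2 : |Real.sin (k * (r - 1)) / r ^ 2| ≤ k := by
    rw [abs_div, abs_of_pos (by positivity : 0 < r ^ 2), div_le_iff₀ (by positivity)]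
    have h3 : |Real.sin (k * (r - 1))| ≤ |k * (r - 1)| := Real.abs_sin_le_abs
    rw [abs_of_nonneg h0] at h3
    have h4 : k * (r - 1) ≤ k * r ^ 2 := mul_le_mul_of_nonneg_left (by nlinarith) hk0.le
    linarith
  calc |k * Real.cos (k * (r - 1)) / r - Real.sin (k * (r - 1)) / r ^ 2|
      ≤ |k * Real.cos (k * (r - 1)) / r| + |Real.sin (k * (r - 1)) / r ^ 2| := abs_sub _ _
    _ ≤ 2 * k := by linarith

end Pool.Agent.Helper533.BallObstacle
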