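import Pool.Agent.Helper533.BallObstacle.Profile

open MeasureTheory Metric Set

namespace Pool.Agent.Helper533.BallObstacle

theorem radial_integrable (f : ℝ → ℝ) (a b : ℝ) (hf : ContinuousOn f (Icc a b)) :
    Integrable (fun z : EuclideanSpace ℝ (Fin 3) => (Ioo a b).indicator f ‖z‖) := by
  have e : (fun z : EuclideanSpace ℝ (Fin 3) => (Ioo a b).indicator f ‖z‖) =
      {z : EuclideanSpace ℝ (Fin 3) | ‖z‖ ∈ Ioo a b}.indicator (fun z => f ‖z‖) := by
    funext z
    by_cases h : ‖z‖ ∈ Ioo a b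
    · have h' : z ∈ {z : EuclideanSpace ℝ (Fin 3) | ‖z‖ ∈ Ioo a b} := h
      rw [indicator_of_mem h, indicator_of_mem h']
    · have h' : z ∉ {z : EuclideanSpace ℝ (Fin 3) | ‖z‖ ∈ Ioo a b} := h
      rw [indicator_of_notMem h, indicator_of_notMem h']
  have hm : MeasurableSet {z : EuclideanSpace ℝ (Fin 3) | ‖z‖ ∈ Ioo a b} :=
    measurableSet_Ioo.preimage measurable_norm
  rw [e, integrable_indicator_iff hm]
  have hcomp : IsCompact {z : EuclideanSpace ℝ (Fin 3) | ‖z‖ ∈ Icc a b} := by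
    have hcl : IsClosed {z : EuclideanSpace ℝ (Fin 3) | ‖z‖ ∈ Icc a b} :=
      isClosed_Icc.preimage continuous_norm
    apply (isCompact_closedBall (0 : EuclideanSpace ℝ (Fin 3)) b).of_isClosed_subset hcl
    intro z hz
    rw [mem_closedBall_zero_iff]
    exact hz.2
  have hcont : ContinuousOn (fun z : EuclideanSpace ℝ (Fin 3) => f ‖z‖)
      {z : EuclideanSpace ℝ (Fin 3) | ‖z‖ ∈ Icc a b} :=
    hf.comp continuous_norm.continuousOn (fun z hz => hz)
  exact (hcont.integrableOn_compact hcomp).mono_set (fun z hz => Ioo_subset_Icc_self hz)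

theorem norm_gradient {N : ℕ} (f : EuclideanSpace ℝ (Fin N) → ℝ) (z : EuclideanSpace ℝ (Fin N)) :
    ‖gradient f z‖ = ‖fderiv ℝ f z‖ := by
  rw [gradient, LinearIsometryEquiv.norm_map]

theorem ball_vol (c : EuclideanSpace ℝ (Fin 3)) (r : ℝ) (hr : 0 ≤ r) :
    (volume : Measure (EuclideanSpace ℝ (Fin 3))).real (ball c r) = om / 3 * r ^ 3 := by
  rw [Measure.real, Measure.addHaar_ball _ _ hr, ENNReal.toReal_mul, ENNReal.toReal_ofReal (by positivity)]
  unfold om
  rw [Measure.real]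
  simp only [finrank_euclideanSpace, Fintype.card_fin]
  ring

/-- Test function for the concentric position with two holes. -/
theorem upper_test (ε θ θ₂ δ R : ℝ) (p : EuclideanSpace ℝ (Fin 3)) (hε : 0 < ε)
    (hp : ‖p‖ = 6 / 5) (hθ : 0 < θ) (hθ1 : θ < 1 / 8) (hθ₂ : 0 < θ₂) (hδ : 0 < δ)
    (hsm : 2 * ε / θ ≤ 1 / 20) (hR : 10 ≤ R) :
    ∃ u : EuclideanSpace ℝ (Fin 3) → ℝ, ContDiff ℝ (⊤ : ℕ∞) u ∧ HasCompactSupport u ∧
      (∀ z ∈ tsupport u, (1 < ‖z‖ ∧ ‖z‖ < R) ∧ ε < ‖z - p‖ ∧ ε < ‖z - (-p)‖) ∧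
      ∫ z, ‖gradient u z‖ ^ 2 ≤ om * ((Real.pi / (R - 1)) ^ 2 * (R - 1) / 2) +
        1 / θ₂ * (4 * (Real.pi / (R - 1)) ^ 2) * (2 * (om / 3 * (2 * ε / θ) ^ 3)) +
        (1 + θ₂) * (Real.pi / (R - 1) * (1 - 1 / (6 / 5 + 2 * ε / θ))) ^ 2 *
          (1 / (1 - 4 * θ)) ^ 2 * (2 * (om * ε)) ∧
      om * ((R - 1) / 2) - 2 * δ * (Real.pi / (R - 1)) * (om / 3 * R ^ 3) -
        (Real.pi / (R - 1)) ^ 2 * (2 * (om / 3 * (2 * ε / θ) ^ 3)) ≤ ∫ z, u z ^ 2 := by
  obtain ⟨ψ, hψ, hψc, hψs, hψ0, hψb, hψg⟩ := exists_profile R (by linarith) δ hδ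
  obtain ⟨η₁, hη₁, hη₁b, hη₁0, hη₁1, hη₁g⟩ := exists_hole θ hθ hθ1 p ε hε
  obtain ⟨η₂, hη₂, hη₂b, hη₂0, hη₂1, hη₂g⟩ := exists_hole θ hθ hθ1 (-p) ε hε
  set k := Real.pi / (R - 1) with hk
  have hR1 : 0 < R - 1 := by linarith
  have hk0 : 0 < k := by have := Real.pi_pos; positivity
  set L := 2 * ε / θ with hL
  have hL0 : 0 < L := by positivity
  have h1θ : 0 < 1 - θ := by linarith
  have hεθ : ε < ε / (1 - θ) := by
    rw [lt_div_iff₀ h1θ]; nlinarith
  have hLε : ε / θ ≤ L := by
    rw [hL]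
    apply div_le_div_of_nonneg_right _ hθ.le
    linarith
  set M := 1 - 1 / (6 / 5 + L) with hM
  have hM0 : 0 < M := by
    have : 1 / (6 / 5 + L) < 1 := by
      rw [div_lt_one (by linarith)]; linarith
    linarith
  -- bounds for ψ
  have hψk : ∀ z, ψ z ≤ k := by
    intro z
    by_cases h : 1 < ‖z‖ ∧ ‖z‖ < R
    · have h1 := (hψb z h.1 h.2).2
      have h2 := (farg_le R ‖z‖ (by linarith) h.1.le h.2.le).2
      have h3 : 0 < 1 / ‖z‖ := by
        have := h.1
        positivity
      rw [← hk] at h2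
      nlinarith
    · have : ψ z = 0 := by
        by_contra hcon
        exact h (hψs z (subset_tsupport _ hcon))
      rw [this]; exact hk0.le
  have hψM : ∀ z, ‖z‖ ≤ 6 / 5 + L → ψ z ≤ k * M := by
    intro z hz
    by_cases h : 1 < ‖z‖ ∧ ‖z‖ < R
    · have h1 := (hψb z h.1 h.2).2
      have h2 := (farg_le R ‖z‖ (by linarith) h.1.le h.2.le).2
      rw [← hk] at h2
      have h3 : 1 / (6 / 5 + L) ≤ 1 / ‖z‖ := one_div_le_one_div_of_le (by linarith [h.1]) hz
      have h4 : k * (1 - 1 / ‖z‖) ≤ k * M := mul_le_mul_of_nonneg_left (by rw [hM]; linarith) hk0.le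
      linarith
    · have : ψ z = 0 := by
        by_contra hcon
        exact h (hψs z (subset_tsupport _ hcon))
      rw [this]; positivity
  have hψg4 : ∀ z, ‖gradient ψ z‖ ^ 2 ≤ 4 * k ^ 2 := by
    intro z
    refine (hψg z).trans ?_
    by_cases h : ‖z‖ ∈ Ioo 1 R
    · rw [indicator_of_mem h]
      have h2 := farg'_le R ‖z‖ (by linarith) h.1.le
      rw [← hk] at h2
      rw [← sq_abs]
      have := abs_nonneg (farg' k 1 ‖z‖)
      nlinarith
    · rw [indicator_of_notMem h]; positivity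
  have hdist : ∀ z, ‖z - p‖ ≤ L → L < ‖z - (-p)‖ := by
    intro z hz
    have e : (2:ℝ) • p = (z - (-p)) - (z - p) := by rw [two_smul]; abel
    have h1 := norm_sub_le (z - (-p)) (z - p)
    rw [← e, norm_smul, hp, Real.norm_of_nonneg (by norm_num : (0:ℝ) ≤ 2)] at h1
    linarith
  have hdist' : ∀ z, ‖z - (-p)‖ ≤ L → L < ‖z - p‖ := by
    intro z hz
    by_contra hcon
    push Not at hcon
    have := hdist z hcon
    linarith
  set W : Set (EuclideanSpace ℝ (Fin 3)) := ball p L ∪ ball (-p) L with hW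
  have hWm : MeasurableSet W := measurableSet_ball.union measurableSet_ball
  have hWvol : (volume : Measure (EuclideanSpace ℝ (Fin 3))).real W ≤ 2 * (om / 3 * L ^ 3) := by
    calc (volume : Measure (EuclideanSpace ℝ (Fin 3))).real W
        ≤ (volume : Measure (EuclideanSpace ℝ (Fin 3))).real (ball p L) +
          (volume : Measure (EuclideanSpace ℝ (Fin 3))).real (ball (-p) L) := measureReal_union_le _ _
      _ = _ := by rw [ball_vol _ _ hL0.le, ball_vol _ _ hL0.le]; ring
  have hWfin : (volume : Measure (EuclideanSpace ℝ (Fin 3))) W < ⊤ :=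
    measure_union_lt_top measure_ball_lt_top measure_ball_lt_top
  have hWint : Integrable (W.indicator (fun _ : EuclideanSpace ℝ (Fin 3) => (1:ℝ))) := by
    rw [integrable_indicator_iff hWm]
    exact integrableOn_const hWfin.ne
  have hWintegral : ∫ z, W.indicator (fun _ : EuclideanSpace ℝ (Fin 3) => (1:ℝ)) z ≤ 2 * (om / 3 * L ^ 3) := by
    rw [integral_indicator hWm]
    simpa using hWvol
  set u : EuclideanSpace ℝ (Fin 3) → ℝ := fun z => ψ z * (η₁ z * η₂ z) with hu
  have hus : ContDiff ℝ (⊤ : ℕ∞) u := hψ.mul (hη₁.mul hη₂)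
  have husub : tsupport u ⊆ tsupport ψ := tsupport_mul_subset_left
  have huc : HasCompactSupport u := hψc.of_isClosed_subset (isClosed_tsupport _) husub
  have hud : ∀ z, ‖gradient u z‖ ≤ ‖gradient ψ z‖ + ψ z * (‖gradient η₁ z‖ + ‖gradient η₂ z‖) := by
    intro z
    rw [norm_gradient, norm_gradient, norm_gradient, norm_gradient]
    have d1 : DifferentiableAt ℝ ψ z := hψ.differentiable (by simp) z
    have d2 : DifferentiableAt ℝ η₁ z := hη₁.differentiable (by simp) z
    have d3 : DifferentiableAt ℝ η₂ z := hη₂.differentiable (by simp) z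
    have e : fderiv ℝ u z = ψ z • (η₁ z • fderiv ℝ η₂ z + η₂ z • fderiv ℝ η₁ z) +
        (η₁ z * η₂ z) • fderiv ℝ ψ z := (d1.hasFDerivAt.mul (d2.hasFDerivAt.mul d3.hasFDerivAt)).fderiv
    rw [e]
    have b1 := hη₁b z
    have b2 := hη₂b z
    have n1 : ‖η₁ z • fderiv ℝ η₂ z‖ ≤ ‖fderiv ℝ η₂ z‖ := by
      rw [norm_smul, Real.norm_of_nonneg b1.1]
      exact mul_le_of_le_one_left (norm_nonneg _) b1.2
    have n2 : ‖η₂ z • fderiv ℝ η₁ z‖ ≤ ‖fderiv ℝ η₁ z‖ := by
      rw [norm_smul, Real.norm_of_nonneg b2.1]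
      exact mul_le_of_le_one_left (norm_nonneg _) b2.2
    have n3 : ‖(η₁ z * η₂ z) • fderiv ℝ ψ z‖ ≤ ‖fderiv ℝ ψ z‖ := by
      rw [norm_smul, Real.norm_of_nonneg (mul_nonneg b1.1 b2.1)]
      exact mul_le_of_le_one_left (norm_nonneg _) (mul_le_one₀ b1.2 b2.1 b2.2)
    have n4 : ‖ψ z • (η₁ z • fderiv ℝ η₂ z + η₂ z • fderiv ℝ η₁ z)‖ ≤
        ψ z * (‖fderiv ℝ η₁ z‖ + ‖fderiv ℝ η₂ z‖) := by
      rw [norm_smul, Real.norm_of_nonneg (hψ0 z)]
      apply mul_le_mul_of_nonneg_left _ (hψ0 z)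
      have := norm_add_le (η₁ z • fderiv ℝ η₂ z) (η₂ z • fderiv ℝ η₁ z)
      linarith
    have := norm_add_le (ψ z • (η₁ z • fderiv ℝ η₂ z + η₂ z • fderiv ℝ η₁ z)) ((η₁ z * η₂ z) • fderiv ℝ ψ z)
    linarith
  set A := (1:ℝ) / (1 - 4 * θ) with hA
  have hA0 : 0 < A := by
    have : 0 < 1 - 4 * θ := by linarith
    positivity
  set J : ℝ → ℝ := (Ioo ε L).indicator (fun r => 1 / r ^ 4) with hJ
  have hJ0 : ∀ r, 0 ≤ J r := by
    intro r
    apply indicator_nonneg
    intro x _
    positivity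
  set K := (1 + θ₂) * (k * M) ^ 2 * A ^ 2 * ε ^ 2 with hK
  have hK0 : 0 ≤ K := by positivity
  -- gradient bounds for the cut-offs
  have hgη : ∀ (η : EuclideanSpace ℝ (Fin 3) → ℝ) (c z : EuclideanSpace ℝ (Fin 3)),
      ‖gradient η z‖ ≤ (Ioo ε L).indicator (fun r => A * ε / r ^ 2) ‖z - c‖ →
      ‖gradient η z‖ ^ 2 ≤ A ^ 2 * ε ^ 2 * J ‖z - c‖ ∧ (L ≤ ‖z - c‖ → ‖gradient η z‖ = 0) := by
    intro η c z h
    constructor
    · by_cases hm : ‖z - c‖ ∈ Ioo ε L
      · rw [indicator_of_mem hm] at h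
        rw [hJ, indicator_of_mem hm]
        have hp : 0 < ‖z - c‖ := lt_trans hε hm.1
        have : A ^ 2 * ε ^ 2 * (1 / ‖z - c‖ ^ 4) = (A * ε / ‖z - c‖ ^ 2) ^ 2 := by
          field_simp
        rw [this]
        exact pow_le_pow_left₀ (norm_nonneg _) h 2
      · rw [indicator_of_notMem hm] at h
        rw [hJ, indicator_of_notMem hm]
        have : ‖gradient η z‖ = 0 := le_antisymm h (norm_nonneg _)
        rw [this]
        simp
    · intro hL'
      have hm : ‖z - c‖ ∉ Ioo ε L := fun hm => by linarith [hm.2]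
      rw [indicator_of_notMem hm] at h
      exact le_antisymm h (norm_nonneg _)
  have hpt : ∀ z, ‖gradient u z‖ ^ 2 ≤ (Ioo 1 R).indicator (fun r => (farg' k 1 r) ^ 2) ‖z‖ +
      1 / θ₂ * (4 * k ^ 2) * W.indicator (fun _ => (1:ℝ)) z +
      (K * J ‖z - p‖ + K * J ‖z - (-p)‖) := by
    intro z
    obtain ⟨ga, ga'⟩ := hgη η₁ p z (hη₁g z)
    obtain ⟨gb, gb'⟩ := hgη η₂ (-p) z (hη₂g z)
    have hz := hud z
    have hψgz := hψg z
    have hk2 : 0 ≤ 1 / θ₂ * (4 * k ^ 2) := by positivity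
    have hKJ1 : 0 ≤ K * J ‖z - p‖ := mul_nonneg hK0 (hJ0 _)
    have hKJ2 : 0 ≤ K * J ‖z - (-p)‖ := mul_nonneg hK0 (hJ0 _)
    have combine : ∀ (g : ℝ), 0 ≤ g → ψ z ≤ k * M → ‖gradient u z‖ ≤ ‖gradient ψ z‖ + ψ z * g →
        ‖gradient u z‖ ^ 2 ≤ ‖gradient ψ z‖ ^ 2 + 1 / θ₂ * (4 * k ^ 2) +
          (1 + θ₂) * (k * M) ^ 2 * g ^ 2 := by
      intro g hg hψz h
      have s1 : ‖gradient u z‖ ^ 2 ≤ (‖gradient ψ z‖ + ψ z * g) ^ 2 :=
        pow_le_pow_left₀ (norm_nonneg _) h 2
      have s2 : (‖gradient ψ z‖ + ψ z * g) ^ 2 ≤ (1 + 1 / θ₂) * ‖gradient ψ z‖ ^ 2 +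
          (1 + θ₂) * (ψ z * g) ^ 2 := by
        have : 0 ≤ (1 / θ₂) * (‖gradient ψ z‖ - θ₂ * (ψ z * g)) ^ 2 := by positivity
        have e : (1 / θ₂) * (‖gradient ψ z‖ - θ₂ * (ψ z * g)) ^ 2 =
            1 / θ₂ * ‖gradient ψ z‖ ^ 2 - 2 * ‖gradient ψ z‖ * (ψ z * g) + θ₂ * (ψ z * g) ^ 2 := by
          field_simp
          ring
        rw [e] at this
        nlinarith
      have s3 : (ψ z * g) ^ 2 ≤ (k * M) ^ 2 * g ^ 2 := by
        rw [mul_pow]
        exact mul_le_mul_of_nonneg_right (pow_le_pow_left₀ (hψ0 z) hψz 2) (by positivity)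
      have s4 : 1 / θ₂ * ‖gradient ψ z‖ ^ 2 ≤ 1 / θ₂ * (4 * k ^ 2) :=
        mul_le_mul_of_nonneg_left (hψg4 z) (by positivity)
      have s5 : (1 + θ₂) * (ψ z * g) ^ 2 ≤ (1 + θ₂) * ((k * M) ^ 2 * g ^ 2) :=
        mul_le_mul_of_nonneg_left s3 (by linarith)
      nlinarith
    by_cases c1 : ‖z - p‖ < L
    · have hzW : z ∈ W := Or.inl (by rw [mem_ball, dist_eq_norm]; exact c1)
      rw [indicator_of_mem hzW]
      have hb0 := gb' (hdist z c1.le).le
      have hzn : ‖z‖ ≤ 6 / 5 + L := by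
        have := norm_add_le (z - p) p
        rw [sub_add_cancel, hp] at this
        linarith
      have := combine ‖gradient η₁ z‖ (norm_nonneg _) (hψM z hzn) (by rw [hb0, add_zero] at hz; exact hz)
      have h5 : (1 + θ₂) * (k * M) ^ 2 * ‖gradient η₁ z‖ ^ 2 ≤ K * J ‖z - p‖ := by
        calc (1 + θ₂) * (k * M) ^ 2 * ‖gradient η₁ z‖ ^ 2 ≤
            (1 + θ₂) * (k * M) ^ 2 * (A ^ 2 * ε ^ 2 * J ‖z - p‖) :=
              mul_le_mul_of_nonneg_left ga (by positivity)
          _ = K * J ‖z - p‖ := by rw [hK]; ring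
      linarith
    · by_cases c2 : ‖z - (-p)‖ < L
      · have hzW : z ∈ W := Or.inr (by rw [mem_ball, dist_eq_norm]; exact c2)
        rw [indicator_of_mem hzW]
        push Not at c1
        have ha0 := ga' c1
        have hzn : ‖z‖ ≤ 6 / 5 + L := by
          have := norm_add_le (z - (-p)) (-p)
          rw [sub_add_cancel, norm_neg, hp] at this
          linarith
        have := combine ‖gradient η₂ z‖ (norm_nonneg _) (hψM z hzn) (by rw [ha0, zero_add] at hz; exact hz)
        have h5 : (1 + θ₂) * (k * M) ^ 2 * ‖gradient η₂ z‖ ^ 2 ≤ K * J ‖z - (-p)‖ := by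
          calc (1 + θ₂) * (k * M) ^ 2 * ‖gradient η₂ z‖ ^ 2 ≤
              (1 + θ₂) * (k * M) ^ 2 * (A ^ 2 * ε ^ 2 * J ‖z - (-p)‖) :=
                mul_le_mul_of_nonneg_left gb (by positivity)
            _ = K * J ‖z - (-p)‖ := by rw [hK]; ring
        linarith
      · push Not at c1 c2
        have ha0 := ga' c1
        have hb0 := gb' c2
        rw [ha0, hb0] at hz
        have h6 : ‖gradient u z‖ ≤ ‖gradient ψ z‖ := by simpa using hz
        have h7 : ‖gradient u z‖ ^ 2 ≤ ‖gradient ψ z‖ ^ 2 := pow_le_pow_left₀ (norm_nonneg _) h6 2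
        have hzW : z ∉ W := by
          rintro (h | h)
          · rw [mem_ball, dist_eq_norm] at h; linarith
          · rw [mem_ball, dist_eq_norm] at h; linarith
        rw [indicator_of_notMem hzW, mul_zero]
        linarith
  -- integrable majorants
  have hi1 : Integrable (fun z : EuclideanSpace ℝ (Fin 3) =>
      (Ioo 1 R).indicator (fun r => (farg' k 1 r) ^ 2) ‖z‖) := by
    apply radial_integrable
    intro r hr
    have hr0 : r ≠ 0 := by linarith [hr.1]
    apply ContinuousAt.continuousWithinAt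
    unfold farg'
    have h1 : ContinuousAt (fun r : ℝ => k * Real.cos (k * (r - 1))) r := by fun_prop
    have h2 : ContinuousAt (fun r : ℝ => Real.sin (k * (r - 1))) r := by fun_prop
    have h3 : ContinuousAt (fun r : ℝ => r ^ 2) r := by fun_prop
    exact ((h1.div continuousAt_id hr0).sub (h2.div h3 (by positivity))).pow 2
  have hi2 : Integrable (fun z : EuclideanSpace ℝ (Fin 3) =>
      (Ioo 1 R).indicator (fun r => (farg k 1 r) ^ 2) ‖z‖) := by
    apply radial_integrable
    intro r hr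
    have hr0 : r ≠ 0 := by linarith [hr.1]
    apply ContinuousAt.continuousWithinAt
    unfold farg
    have h2 : ContinuousAt (fun r : ℝ => Real.sin (k * (r - 1))) r := by fun_prop
    exact (h2.div continuousAt_id hr0).pow 2
  have hi3 : Integrable (fun z : EuclideanSpace ℝ (Fin 3) =>
      (Ioo 1 R).indicator (fun _ => (1:ℝ)) ‖z‖) := radial_integrable _ _ _ continuousOn_const
  have hiJ : Integrable (fun z : EuclideanSpace ℝ (Fin 3) => J ‖z‖) := by
    apply radial_integrable
    intro r hr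
    have hr0 : r ≠ 0 := by linarith [hr.1]
    apply ContinuousAt.continuousWithinAt
    have h3 : ContinuousAt (fun r : ℝ => r ^ 4) r := by fun_prop
    exact continuousAt_const.div h3 (by positivity)
  have hiJc : ∀ c : EuclideanSpace ℝ (Fin 3), Integrable (fun z => K * J ‖z - c‖) := fun c =>
    (hiJ.comp_sub_right c).const_mul K
  have hJint : ∀ c : EuclideanSpace ℝ (Fin 3), ∫ z, K * J ‖z - c‖ ≤ K * (om * (1 / ε)) := by
    intro c
    rw [integral_const_mul]
    apply mul_le_mul_of_nonneg_left _ hK0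
    have e1 : ∫ z : EuclideanSpace ℝ (Fin 3), J ‖z - c‖ = ∫ z : EuclideanSpace ℝ (Fin 3), J ‖z‖ :=
      integral_sub_right_eq_self (fun z => J ‖z‖) c
    rw [e1, hJ]
    have hεL : ε ≤ L := by
      rw [hL, le_div_iff₀ hθ]; nlinarith
    rw [radial_integral _ _ _ hε.le hεL, int_M3 _ _ hε hεL]
    apply mul_le_mul_of_nonneg_left _ om_pos.le
    have : 0 < 1 / L := by positivity
    linarith
  have hgc : Continuous (fun z => gradient u z) := by
    unfold gradient
    exact (LinearIsometryEquiv.continuous _).comp (hus.continuous_fderiv (by simp))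
  have hgs : HasCompactSupport (fun z => ‖gradient u z‖ ^ 2) := by
    apply IsCompact.of_isClosed_subset huc (isClosed_tsupport _)
    apply closure_minimal _ (isClosed_tsupport u)
    intro z hz
    by_contra hcon
    apply hz
    have := (eventually_zero_of_notMem hcon)
    simp [gradient_zero_of_eventually this]
  have int3 : Integrable (fun z => ‖gradient u z‖ ^ 2) :=
    Continuous.integrable_of_hasCompactSupport (hgc.norm.pow 2) hgs
  have int4 : Integrable (fun z => u z ^ 2) := by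
    apply Continuous.integrable_of_hasCompactSupport (hus.continuous.pow 2)
    apply IsCompact.of_isClosed_subset huc (isClosed_tsupport _)
    apply closure_mono
    intro z hz
    rw [Function.mem_support] at hz ⊢
    intro h0
    apply hz
    simp [h0]
  refine ⟨u, hus, huc, ?_, ?_, ?_⟩
  · intro z hz
    refine ⟨hψs z (husub hz), ?_, ?_⟩
    · by_contra hcon
      push Not at hcon
      have h4 : u =ᶠ[nhds z] fun _ => 0 := by
        have : ball p (ε / (1 - θ)) ∈ nhds z := by
          apply isOpen_ball.mem_nhds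
          rw [mem_ball, dist_eq_norm]
          linarith
        filter_upwards [this] with y hy
        rw [mem_ball, dist_eq_norm] at hy
        simp only [hu, hη₁0 y hy.le, zero_mul, mul_zero]
      exact notMem_tsupport_iff_eventuallyEq.mpr h4 hz
    · by_contra hcon
      push Not at hcon
      have h4 : u =ᶠ[nhds z] fun _ => 0 := by
        have : ball (-p) (ε / (1 - θ)) ∈ nhds z := by
          apply isOpen_ball.mem_nhds
          rw [mem_ball, dist_eq_norm]
          linarith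
        filter_upwards [this] with y hy
        rw [mem_ball, dist_eq_norm] at hy
        simp only [hu, hη₂0 y hy.le, mul_zero]
      exact notMem_tsupport_iff_eventuallyEq.mpr h4 hz
  · calc ∫ z, ‖gradient u z‖ ^ 2 ≤ ∫ z, ((Ioo 1 R).indicator (fun r => (farg' k 1 r) ^ 2) ‖z‖ +
          1 / θ₂ * (4 * k ^ 2) * W.indicator (fun _ => (1:ℝ)) z +
          (K * J ‖z - p‖ + K * J ‖z - (-p)‖)) :=
          integral_mono int3 ((hi1.add (hWint.const_mul _)).add ((hiJc p).add (hiJc (-p)))) hpt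
      _ = (∫ z : EuclideanSpace ℝ (Fin 3), (Ioo 1 R).indicator (fun r => (farg' k 1 r) ^ 2) ‖z‖) +
          1 / θ₂ * (4 * k ^ 2) * (∫ z, W.indicator (fun _ => (1:ℝ)) z) +
          ((∫ z, K * J ‖z - p‖) + ∫ z, K * J ‖z - (-p)‖) := by
          have a1 : Integrable (fun z : EuclideanSpace ℝ (Fin 3) =>
            1 / θ₂ * (4 * k ^ 2) * W.indicator (fun _ => (1:ℝ)) z) := hWint.const_mul _
          have a2 : Integrable (fun z : EuclideanSpace ℝ (Fin 3) =>
            (Ioo 1 R).indicator (fun r => (farg' k 1 r) ^ 2) ‖z‖ +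
            1 / θ₂ * (4 * k ^ 2) * W.indicator (fun _ => (1:ℝ)) z) := hi1.add a1
          have a3 : Integrable (fun z : EuclideanSpace ℝ (Fin 3) =>
            K * J ‖z - p‖ + K * J ‖z - (-p)‖) := (hiJc p).add (hiJc (-p))
          rw [integral_add a2 a3, integral_add hi1 a1, integral_add (hiJc p) (hiJc (-p)), integral_const_mul]
      _ ≤ om * (k ^ 2 * (R - 1) / 2) + 1 / θ₂ * (4 * k ^ 2) * (2 * (om / 3 * L ^ 3)) +
          (K * (om * (1 / ε)) + K * (om * (1 / ε))) := by
          rw [radial_integral _ _ _ (by norm_num) (by linarith), hk, int_M2 R (by linarith), ← hk]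
          have := mul_le_mul_of_nonneg_left hWintegral (by positivity : 0 ≤ 1 / θ₂ * (4 * k ^ 2))
          have j1 := hJint p
          have j2 := hJint (-p)
          linarith
      _ = _ := by
          rw [hK]
          field_simp
          ring
  · have hpt2 : ∀ z, (Ioo 1 R).indicator (fun r => (farg k 1 r) ^ 2) ‖z‖ -
        2 * δ * k * (Ioo 1 R).indicator (fun _ => (1:ℝ)) ‖z‖ -
        k ^ 2 * W.indicator (fun _ => (1:ℝ)) z ≤ u z ^ 2 := by
      intro z
      have base : (Ioo 1 R).indicator (fun r => (farg k 1 r) ^ 2) ‖z‖ -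
          2 * δ * k * (Ioo 1 R).indicator (fun _ => (1:ℝ)) ‖z‖ ≤ ψ z ^ 2 := by
        by_cases h : ‖z‖ ∈ Ioo 1 R
        · rw [indicator_of_mem h, indicator_of_mem h]
          have h1 := (hψb z h.1 h.2).1
          have h2 := farg_le R ‖z‖ (by linarith) h.1.le h.2.le
          have h3 := hψ0 z
          rw [← hk] at h2
          have h4 : farg k 1 ‖z‖ ≤ k := by
            have : 0 < 1 / ‖z‖ := by
              have := h.1
              positivity
            nlinarith [h2.2]
          have h5 : 2 * δ * farg k 1 ‖z‖ ≤ 2 * δ * k := mul_le_mul_of_nonneg_left h4 (by linarith)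
          rcases le_total δ (farg k 1 ‖z‖) with hc | hc
          · have : (farg k 1 ‖z‖ - δ) ^ 2 ≤ ψ z ^ 2 := pow_le_pow_left₀ (by linarith) h1 2
            nlinarith
          · have : farg k 1 ‖z‖ ^ 2 ≤ δ * farg k 1 ‖z‖ := by nlinarith [h2.1]
            nlinarith [sq_nonneg (ψ z), mul_nonneg hδ.le h2.1]
        · rw [indicator_of_notMem h, indicator_of_notMem h]
          have := sq_nonneg (ψ z)
          linarith
      by_cases hzW : z ∈ W
      · rw [indicator_of_mem hzW]
        have h1 : ψ z ^ 2 ≤ k ^ 2 := pow_le_pow_left₀ (hψ0 z) (hψk z) 2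
        have := sq_nonneg (u z)
        linarith
      · rw [indicator_of_notMem hzW]
        have h1 : η₁ z = 1 := by
          apply hη₁1
          by_contra hcon
          push Not at hcon
          apply hzW
          left
          rw [mem_ball, dist_eq_norm]
          linarith
        have h2 : η₂ z = 1 := by
          apply hη₂1
          by_contra hcon
          push Not at hcon
          apply hzW
          right
          rw [mem_ball, dist_eq_norm]
          linarith
        have : u z = ψ z := by simp only [hu, h1, h2, mul_one]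
        rw [this]
        linarith
    calc om * ((R - 1) / 2) - 2 * δ * k * (om / 3 * R ^ 3) - k ^ 2 * (2 * (om / 3 * L ^ 3)) ≤
        (∫ z : EuclideanSpace ℝ (Fin 3), (Ioo 1 R).indicator (fun r => (farg k 1 r) ^ 2) ‖z‖) -
        2 * δ * k * (∫ z : EuclideanSpace ℝ (Fin 3), (Ioo 1 R).indicator (fun _ => (1:ℝ)) ‖z‖) -
        k ^ 2 * (∫ z, W.indicator (fun _ => (1:ℝ)) z) := by
          rw [radial_integral _ _ _ (by norm_num) (by linarith), radial_integral _ _ _ (by norm_num) (by linarith),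
            hk, int_M1 R (by linarith), ← hk]
          have h1 := mul_le_mul_of_nonneg_left hWintegral (by positivity : 0 ≤ k ^ 2)
          have h2 : ∫ r in (1:ℝ)..R, r ^ 2 * 1 ≤ R ^ 3 / 3 := by
            simp only [mul_one]
            rw [integral_pow]
            norm_num
            linarith
          have h3 : 2 * δ * k * (om * ∫ r in (1:ℝ)..R, r ^ 2 * 1) ≤ 2 * δ * k * (om / 3 * R ^ 3) := by
            apply mul_le_mul_of_nonneg_left _ (by positivity)
            have := mul_le_mul_of_nonneg_left h2 om_pos.le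
            linarith
          linarith
      _ = ∫ z, ((Ioo 1 R).indicator (fun r => (farg k 1 r) ^ 2) ‖z‖ -
        2 * δ * k * (Ioo 1 R).indicator (fun _ => (1:ℝ)) ‖z‖ -
        k ^ 2 * W.indicator (fun _ => (1:ℝ)) z) := by
          have a1 : Integrable (fun z : EuclideanSpace ℝ (Fin 3) =>
            k ^ 2 * W.indicator (fun _ => (1:ℝ)) z) := hWint.const_mul _
          have a2 : Integrable (fun z : EuclideanSpace ℝ (Fin 3) =>
            2 * δ * k * (Ioo 1 R).indicator (fun _ => (1:ℝ)) ‖z‖) := hi3.const_mul _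
          have a3 : Integrable (fun z : EuclideanSpace ℝ (Fin 3) =>
            (Ioo 1 R).indicator (fun r => (farg k 1 r) ^ 2) ‖z‖ -
            2 * δ * k * (Ioo 1 R).indicator (fun _ => (1:ℝ)) ‖z‖) := hi2.sub a2
          rw [integral_sub a3 a1, integral_sub hi2 a2, integral_const_mul, integral_const_mul]
      _ ≤ ∫ z, u z ^ 2 :=
          integral_mono ((hi2.sub (hi3.const_mul _)).sub (hWint.const_mul _)) int4 hpt2

end Pool.Agent.Helper533.BallObstacle
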